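import Pool.Agent.W5h53.CS.Gauge

/-!
# Fell absorption in coordinates and approximate units
-/

set_option autoImplicit false
set_option linter.unusedSectionVars false

open Set Filter Topology MeasureTheory
open scoped ENNReal InnerProductSpace

namespace Pool.Agent.W5h53.CS

variable {H : Type*} [Group H] [TopologicalSpace H] [IsTopologicalGroup H] [LocallyCompactSpace H]
  [SecondCountableTopology H] [T2Space H] [MeasurableSpace H] [BorelSpace H]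

variable {m : Measure H} [m.IsHaarMeasure]

lemma ennreal_mul_le (a b : ℝ≥0∞) : a * b ≤ a ^ 2 + b ^ 2 := by
  rcases le_total a b with h | h
  · calc a * b ≤ b * b := by gcongr
      _ = b ^ 2 := (sq b).symm
      _ ≤ _ := le_add_self
  · calc a * b ≤ a * a := by gcongr
      _ = a ^ 2 := (sq a).symm
      _ ≤ _ := le_self_add

lemma HasAA.enorm_le {M₁ M₂ : ℝ≥0∞} {a : H → ℂ} (h : HasAA m M₁ M₂ a) (s : H) :
    ‖a s‖ₑ ≤ M₁ + M₂ := by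
  obtain ⟨ι, _, F, G, hF, hG, hs⟩ := h
  rw [← (hs s).tsum_eq]
  calc ‖∑' i, ⟪G i, lam m s (F i)⟫_ℂ‖ₑ ≤ ∑' i, ‖⟪G i, lam m s (F i)⟫_ℂ‖ₑ := enorm_tsum_le_tsum_enorm
    _ ≤ ∑' i, (‖F i‖ₑ ^ 2 + ‖G i‖ₑ ^ 2) := by
        apply ENNReal.tsum_le_tsum
        intro i
        refine le_trans ?_ (ennreal_mul_le _ _)
        rw [← ofReal_norm, ← ofReal_norm, ← ofReal_norm, ← ENNReal.ofReal_mul (norm_nonneg _)]
        apply ENNReal.ofReal_le_ofReal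
        rw [mul_comm]
        exact coef_norm m (F i) (G i) s
    _ = ∑' i, ‖F i‖ₑ ^ 2 + ∑' i, ‖G i‖ₑ ^ 2 := ENNReal.tsum_add
    _ ≤ M₁ + M₂ := add_le_add hF hG

lemma HasAA.summable {κ : Type} {M₁ M₂ : κ → ℝ≥0∞} {a : κ → H → ℂ}
    (h : ∀ k, HasAA m (M₁ k) (M₂ k) (a k)) (h1 : ∑' k, M₁ k ≠ ⊤) (h2 : ∑' k, M₂ k ≠ ⊤) (s : H) :
    Summable fun k => a k s := by
  have h3 : ∑' k, (M₁ k + M₂ k) ≠ ⊤ := by
    rw [ENNReal.tsum_add]
    exact ENNReal.add_ne_top.2 ⟨h1, h2⟩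
  refine Summable.of_norm_bounded (ENNReal.summable_toReal h3) fun k => ?_
  have h4 : M₁ k + M₂ k ≠ ⊤ := ENNReal.ne_top_of_tsum_ne_top h3 k
  rw [← toReal_enorm]
  exact ENNReal.toReal_mono h4 ((h k).enorm_le s)

lemma HasAA.tsum {κ : Type} [Countable κ] {M₁ M₂ : κ → ℝ≥0∞} {a : κ → H → ℂ}
    (h : ∀ k, HasAA m (M₁ k) (M₂ k) (a k)) (h1 : ∑' k, M₁ k ≠ ⊤) (h2 : ∑' k, M₂ k ≠ ⊤) :
    HasAA m (∑' k, M₁ k) (∑' k, M₂ k) (fun s => ∑' k, a k s) :=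
  HasAA.sum h h1 h2 fun s => (HasAA.summable h h1 h2 s).hasSum

lemma l2_enorm {u : H → ℂ} (hu : MemLp u 2 m) : ‖hu.toLp u‖ₑ ^ 2 = ∫⁻ x, ‖u x‖ₑ ^ 2 ∂m := by
  rw [Lp.enorm_toLp]
  have h1 := eLpNorm_nnreal_pow_eq_lintegral (f := u) (μ := m) (p := 2) (by norm_num)
  simpa using h1

lemma l2_enorm' (f : Lp ℂ 2 m) : ‖f‖ₑ ^ 2 = ∫⁻ x, ‖f x‖ₑ ^ 2 ∂m := by
  have h1 := l2_enorm (Lp.memLp f)
  rwa [Lp.toLp_coeFn] at h1

/-- **Fell absorption in coordinates.** -/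
lemma fell (f g : Lp ℂ 2 m) (P Q : H → Lp ℂ 2 m) (hP : Continuous P) (hQ : Continuous Q)
    {C D : ℝ} (hC : ∀ y, ‖P y‖ ≤ C) (hD : ∀ x, ‖Q x‖ ≤ D) :
    HasAA m (∫⁻ y, ‖f y‖ₑ ^ 2 * ‖P y‖ₑ ^ 2 ∂m) (∫⁻ x, ‖g x‖ₑ ^ 2 * ‖Q x‖ₑ ^ 2 ∂m)
      (fun s => ∫ x, (starRingEnd ℂ) (g x) * f (s⁻¹ * x) * ⟪Q x, P (s⁻¹ * x)⟫_ℂ ∂m) := by
  obtain ⟨e, he⟩ := exists_parseval m
  -- the coordinates
  have hmem : ∀ (f : Lp ℂ 2 m) (P : H → Lp ℂ 2 m) (_ : Continuous P) {C : ℝ}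
      (_ : ∀ y, ‖P y‖ ≤ C) (i : ℕ), MemLp (fun y => f y * ⟪e i, P y⟫_ℂ) 2 m := by
    intro f P hP C hC i
    refine MemLp.of_le_mul (c := ‖e i‖ * C) (Lp.memLp f) ?_ (Eventually.of_forall fun y => ?_)
    · exact (Lp.aestronglyMeasurable f).mul (continuous_const.inner hP).aestronglyMeasurable
    · rw [norm_mul, mul_comm]
      gcongr
      exact (norm_inner_le_norm _ _).trans (by gcongr; exact hC y)
  have hsum : ∀ (f : Lp ℂ 2 m) (P : H → Lp ℂ 2 m) (hP : Continuous P) {C : ℝ}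
      (hC : ∀ y, ‖P y‖ ≤ C), ∑' i, ‖(hmem f P hP hC i).toLp‖ₑ ^ 2 =
        ∫⁻ y, ‖f y‖ₑ ^ 2 * ‖P y‖ₑ ^ 2 ∂m := by
    intro f P hP C hC
    have h1 : ∀ i, ‖(hmem f P hP hC i).toLp‖ₑ ^ 2 =
        ∫⁻ y, ‖f y‖ₑ ^ 2 * ‖⟪e i, P y⟫_ℂ‖ₑ ^ 2 ∂m := by
      intro i
      rw [l2_enorm]
      congr 1
      funext y
      rw [enorm_mul, mul_pow]
    simp only [h1]
    rw [← lintegral_tsum]
    · congr 1
      funext y
      rw [ENNReal.tsum_mul_left, parseval_enorm m he]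
    · intro i
      have h2 : Measurable fun y => ⟪e i, P y⟫_ℂ := (continuous_const.inner hP).measurable
      exact ((((Lp.stronglyMeasurable f).measurable.enorm).pow_const 2).mul
        (h2.enorm.pow_const 2)).aemeasurable
  have hfin : ∀ (f : Lp ℂ 2 m) (P : H → Lp ℂ 2 m) {C : ℝ}
      (_ : ∀ y, ‖P y‖ ≤ C), ∫⁻ y, ‖f y‖ₑ ^ 2 * ‖P y‖ₑ ^ 2 ∂m ≠ ⊤ := by
    intro f P C hC
    have h1 : ∫⁻ y, ‖f y‖ₑ ^ 2 * ‖P y‖ₑ ^ 2 ∂m ≤ ‖f‖ₑ ^ 2 * ENNReal.ofReal C ^ 2 := by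
      rw [l2_enorm' f, ← lintegral_mul_const _ (((Lp.stronglyMeasurable f).measurable.enorm).pow_const 2)]
      apply lintegral_mono
      intro y
      have h2 : ‖P y‖ₑ ≤ ENNReal.ofReal C := by
        rw [← ofReal_norm]
        exact ENNReal.ofReal_le_ofReal (hC y)
      show ‖f y‖ₑ ^ 2 * ‖P y‖ₑ ^ 2 ≤ ‖f y‖ₑ ^ 2 * ENNReal.ofReal C ^ 2
      gcongr
    exact ne_top_of_le_ne_top (ENNReal.mul_ne_top (ENNReal.pow_ne_top enorm_ne_top)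
      (ENNReal.pow_ne_top ENNReal.ofReal_ne_top)) h1
  refine ⟨ℕ, inferInstance, fun i => (hmem f P hP hC i).toLp, fun i => (hmem g Q hQ hD i).toLp,
    (hsum f P hP hC).le, (hsum g Q hQ hD).le, fun s => ?_⟩
  have hF0 : ∑' i, ‖(hmem f P hP hC i).toLp‖ₑ ^ 2 ≠ ⊤ := by
    rw [hsum f P hP hC]
    exact hfin f P hC
  have hG0 : ∑' i, ‖(hmem g Q hQ hD i).toLp‖ₑ ^ 2 ≠ ⊤ := by
    rw [hsum g Q hQ hD]
    exact hfin g Q hD
  obtain ⟨K, hK⟩ : ∃ K : ℕ → H → ℂ, K = fun i x => (starRingEnd ℂ) (g x * ⟪e i, Q x⟫_ℂ) *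
    (f (s⁻¹ * x) * ⟪e i, P (s⁻¹ * x)⟫_ℂ) := ⟨_, rfl⟩
  have hqmp := (measurePreserving_mul_left m s⁻¹).quasiMeasurePreserving
  have hKm : ∀ i, AEStronglyMeasurable (K i) m := by
    intro i
    rw [hK]
    have h1 : AEStronglyMeasurable (fun x => g x * ⟪e i, Q x⟫_ℂ) m :=
      (hmem g Q hQ hD i).1
    have h2 : AEStronglyMeasurable (fun x => f x * ⟪e i, P x⟫_ℂ) m := (hmem f P hP hC i).1
    exact (Complex.continuous_conj.comp_aestronglyMeasurable h1).mul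
      (h2.comp_quasiMeasurePreserving hqmp)
  have hKi : ∀ i, ⟪(hmem g Q hQ hD i).toLp, lam m s (hmem f P hP hC i).toLp⟫_ℂ =
      ∫ x, K i x ∂m := by
    intro i
    rw [L2.inner_def]
    apply integral_congr_ae
    filter_upwards [(hmem g Q hQ hD i).coeFn_toLp, lam_coe m s (hmem f P hP hC i).toLp,
      hqmp.ae (hmem f P hP hC i).coeFn_toLp] with x h1 h2 h3
    rw [h1, h2, h3, hK, RCLike.inner_apply, mul_comm]
  have hKs : ∑' i, ∫⁻ x, ‖K i x‖ₑ ∂m ≠ ⊤ := by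
    have h1 : ∀ i, ∫⁻ x, ‖K i x‖ₑ ∂m ≤ ‖(hmem g Q hQ hD i).toLp‖ₑ ^ 2 +
        ‖(hmem f P hP hC i).toLp‖ₑ ^ 2 := by
      intro i
      rw [l2_enorm, l2_enorm]
      have h2 : ∫⁻ x, ‖f (s⁻¹ * x) * ⟪e i, P (s⁻¹ * x)⟫_ℂ‖ₑ ^ 2 ∂m =
          ∫⁻ x, ‖f x * ⟪e i, P x⟫_ℂ‖ₑ ^ 2 ∂m :=
        lintegral_mul_left_eq_self (fun x => ‖f x * ⟪e i, P x⟫_ℂ‖ₑ ^ 2) s⁻¹
      rw [← h2, ← lintegral_add_left]
      · apply lintegral_mono
        intro x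
        rw [hK]
        show ‖(starRingEnd ℂ) (g x * ⟪e i, Q x⟫_ℂ) *
          (f (s⁻¹ * x) * ⟪e i, P (s⁻¹ * x)⟫_ℂ)‖ₑ ≤ _
        rw [enorm_mul]
        refine (ennreal_mul_le _ _).trans ?_
        have h3 : ‖(starRingEnd ℂ) (g x * ⟪e i, Q x⟫_ℂ)‖ₑ = ‖g x * ⟪e i, Q x⟫_ℂ‖ₑ := by
          rw [← ofReal_norm, ← ofReal_norm, RCLike.norm_conj]
        rw [h3]
      · have h3 : Measurable fun y => ⟪e i, Q y⟫_ℂ := (continuous_const.inner hQ).measurable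
        exact ((((Lp.stronglyMeasurable g).measurable).mul h3).enorm).pow_const 2
    have h2 : ∑' i, ∫⁻ x, ‖K i x‖ₑ ∂m ≤ ∑' i, ‖(hmem g Q hQ hD i).toLp‖ₑ ^ 2 +
        ∑' i, ‖(hmem f P hP hC i).toLp‖ₑ ^ 2 := by
      rw [← ENNReal.tsum_add]
      exact ENNReal.tsum_le_tsum h1
    exact ne_top_of_le_ne_top (ENNReal.add_ne_top.2 ⟨hG0, hF0⟩) h2
  have h1 := integral_tsum hKm hKs
  have h2 : ∀ x, ∑' i, K i x = (starRingEnd ℂ) (g x) * f (s⁻¹ * x) * ⟪Q x, P (s⁻¹ * x)⟫_ℂ := by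
    intro x
    have h3 := (he (Q x) (P (s⁻¹ * x))).mul_left ((starRingEnd ℂ) (g x) * f (s⁻¹ * x))
    rw [← h3.tsum_eq]
    congr 1
    funext i
    rw [hK]
    show (starRingEnd ℂ) (g x * ⟪e i, Q x⟫_ℂ) * (f (s⁻¹ * x) * ⟪e i, P (s⁻¹ * x)⟫_ℂ) = _
    rw [map_mul, inner_conj_symm]
    ring
  simp only [h2] at h1
  have h3 := (summable_coef m hF0 hG0 s).hasSum
  have h4 : ∑' i, ⟪(hmem g Q hQ hD i).toLp, lam m s (hmem f P hP hC i).toLp⟫_ℂ =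
      ∫ x, (starRingEnd ℂ) (g x) * f (s⁻¹ * x) * ⟪Q x, P (s⁻¹ * x)⟫_ℂ ∂m := by
    rw [h1]
    exact tsum_congr hKi
  rw [h4] at h3
  exact h3

variable (m) in
/-- the function of positive type of a vector -/
noncomputable def uu (h : Lp ℂ 2 m) : H → ℂ := fun s => ⟪h, lam m s h⟫_ℂ

lemma inner_shift (h : Lp ℂ 2 m) (s x : H) :
    ⟪lam m x⁻¹ h, lam m (s⁻¹ * x)⁻¹ h⟫_ℂ = uu m h s := by
  rw [lam_inner_left, inv_inv, ← lam_mul]
  congr 2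
  group

lemma coef_integral (f g : Lp ℂ 2 m) (s : H) :
    ⟪g, lam m s f⟫_ℂ = ∫ x, (starRingEnd ℂ) (g x) * f (s⁻¹ * x) ∂m := by
  rw [L2.inner_def]
  apply integral_congr_ae
  filter_upwards [lam_coe m s f] with x h1
  rw [h1, RCLike.inner_apply, mul_comm]

lemma coef_integrable (f g : Lp ℂ 2 m) (s : H) :
    Integrable (fun x => (starRingEnd ℂ) (g x) * f (s⁻¹ * x)) m := by
  have h1 := L2.integrable_inner (𝕜 := ℂ) g (lam m s f)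
  refine h1.congr ?_
  filter_upwards [lam_coe m s f] with x h1
  rw [h1, RCLike.inner_apply, mul_comm]

lemma cont_inv_lam (h : Lp ℂ 2 m) : Continuous fun y : H => lam m y⁻¹ h :=
  (lam_cont m h).comp continuous_inv

lemma enorm_eq_one {h : Lp ℂ 2 m} (h1 : ‖h‖ = 1) : ‖h‖ₑ = 1 := by
  rw [← ofReal_norm, h1, ENNReal.ofReal_one]

/-- multiplication by a normalised function of positive type -/
lemma HasAA.mul_uu {M₁ M₂ : ℝ≥0∞} (hM₁ : M₁ ≠ ⊤) (hM₂ : M₂ ≠ ⊤) {a : H → ℂ}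
    (ha : HasAA m M₁ M₂ a) {h : Lp ℂ 2 m} (h1 : ‖h‖ = 1) :
    HasAA m M₁ M₂ (fun s => uu m h s * a s) := by
  obtain ⟨ι, _, F, G, hF, hG, hs⟩ := ha
  have h2 : ∀ i, HasAA m (‖F i‖ₑ ^ 2) (‖G i‖ₑ ^ 2) (fun s => uu m h s * ⟪G i, lam m s (F i)⟫_ℂ) := by
    intro i
    have h3 := fell (F i) (G i) (fun y => lam m y⁻¹ h) (fun y => lam m y⁻¹ h) (cont_inv_lam h)
      (cont_inv_lam h) (fun y => (lam_norm m y⁻¹ h).le) (fun y => (lam_norm m y⁻¹ h).le)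
    have h4 : ∀ y : H, ‖lam m y⁻¹ h‖ₑ = 1 := fun y => enorm_eq_one (by rw [lam_norm, h1])
    simp only [h4, one_pow, mul_one, inner_shift] at h3
    rw [← l2_enorm', ← l2_enorm'] at h3
    have h5 : (fun s => ∫ x, (starRingEnd ℂ) (G i x) * F i (s⁻¹ * x) * uu m h s ∂m) =
        fun s => uu m h s * ⟪G i, lam m s (F i)⟫_ℂ := by
      funext s
      rw [integral_mul_const, coef_integral, mul_comm]
    rwa [h5] at h3
  have h3 := HasAA.sum h2 (ne_top_of_le_ne_top hM₁ hF) (ne_top_of_le_ne_top hM₂ hG)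
    (fun s => (hs s).mul_left (uu m h s))
  exact h3.mono hF hG

lemma HasA.mul_uu {M : ℝ} {a : H → ℂ} (ha : HasA m M a) {h : Lp ℂ 2 m} (h1 : ‖h‖ = 1) :
    HasA m M (fun s => uu m h s * a s) :=
  HasAA.mul_uu ENNReal.ofReal_ne_top ENNReal.ofReal_ne_top ha h1

lemma HasA.uu {h : Lp ℂ 2 m} (h1 : ‖h‖ = 1) : HasA m 1 (uu m h) := by
  refine ⟨Unit, inferInstance, fun _ => h, fun _ => h, ?_, ?_, fun s => ?_⟩
  · rw [tsum_fintype]
    simp [enorm_eq_one h1]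
  · rw [tsum_fintype]
    simp [enorm_eq_one h1]
  · exact hasSum_unique _

/-! ### approximate units -/

lemma exists_compact_lintegral {w : H → ℝ≥0∞} (hfin : ∫⁻ x, w x ∂m ≠ ⊤)
    {η : ℝ≥0∞} (hη : 0 < η) : ∃ K : Set H, IsCompact K ∧ ∫⁻ x in Kᶜ, w x ∂m ≤ η := by
  obtain ⟨ν, hν⟩ : ∃ ν : Measure H, ν = m.withDensity w := ⟨_, rfl⟩
  have hνf : IsFiniteMeasure ν := by
    rw [hν]
    exact isFiniteMeasure_withDensity hfin
  have h1 : Tendsto (fun n => ν (compactCovering H n)ᶜ) atTop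
      (𝓝 (ν (⋂ n, (compactCovering H n)ᶜ))) := by
    apply tendsto_measure_iInter_atTop
    · intro n
      exact (isCompact_compactCovering H n).measurableSet.compl.nullMeasurableSet
    · intro a b hab
      exact compl_subset_compl.2 (compactCovering_subset H hab)
    · exact ⟨0, measure_ne_top _ _⟩
  rw [← compl_iUnion, iUnion_compactCovering, compl_univ, measure_empty] at h1
  obtain ⟨n, hn⟩ := (h1.eventually (gt_mem_nhds hη)).exists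
  refine ⟨compactCovering H n, isCompact_compactCovering H n, ?_⟩
  rw [hν, withDensity_apply _ (isCompact_compactCovering H n).measurableSet.compl] at hn
  exact hn.le

lemma small_lintegral {w : H → ℝ≥0∞} (hw : Measurable w) {M : ℝ} (hM : 0 ≤ M)
    (hfin : ∫⁻ x, w x ∂m ≤ ENNReal.ofReal M) {η : ℝ} (hη : 0 < η) :
    ∃ K : Set H, IsCompact K ∧ ∃ δ : ℝ, 0 < δ ∧ ∀ h : Lp ℂ 2 m, ‖h‖ = 1 →
      (∀ s ∈ K, ‖lam m s h - h‖ ≤ δ) →
      ∫⁻ x, w x * ‖lam m x⁻¹ h - h‖ₑ ^ 2 ∂m ≤ ENNReal.ofReal η := by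
  obtain ⟨K, hK, hK1⟩ := exists_compact_lintegral (m := m) (w := w) (ne_top_of_le_ne_top ENNReal.ofReal_ne_top hfin)
    (show 0 < ENNReal.ofReal (η / 8) by rw [ENNReal.ofReal_pos]; positivity)
  obtain ⟨δ, hδ0, hδ⟩ : ∃ δ : ℝ, 0 < δ ∧ δ ^ 2 * M ≤ η / 2 := by
    refine ⟨Real.sqrt (η / (2 * (M + 1))), by positivity, ?_⟩
    rw [Real.sq_sqrt (by positivity), div_mul_eq_mul_div, div_le_div_iff₀ (by positivity) (by positivity)]
    nlinarith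
  refine ⟨K⁻¹, hK.inv, δ, hδ0, fun h h1 hs => ?_⟩
  rw [← lintegral_add_compl _ hK.measurableSet]
  have h2 : ∫⁻ x in K, w x * ‖lam m x⁻¹ h - h‖ₑ ^ 2 ∂m ≤ ENNReal.ofReal (η / 2) := by
    calc ∫⁻ x in K, w x * ‖lam m x⁻¹ h - h‖ₑ ^ 2 ∂m ≤ ∫⁻ x in K, w x * ENNReal.ofReal (δ ^ 2) ∂m := by
          apply setLIntegral_mono (hw.mul_const _)
          intro x hx
          gcongr
          rw [← ofReal_norm, ← ENNReal.ofReal_pow (norm_nonneg _)]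
          apply ENNReal.ofReal_le_ofReal
          gcongr
          exact hs x⁻¹ (by simpa using hx)
      _ ≤ ∫⁻ x, w x * ENNReal.ofReal (δ ^ 2) ∂m := setLIntegral_le_lintegral _ _
      _ = (∫⁻ x, w x ∂m) * ENNReal.ofReal (δ ^ 2) := lintegral_mul_const _ hw
      _ ≤ ENNReal.ofReal M * ENNReal.ofReal (δ ^ 2) := by gcongr
      _ = ENNReal.ofReal (M * δ ^ 2) := (ENNReal.ofReal_mul hM).symm
      _ ≤ ENNReal.ofReal (η / 2) := ENNReal.ofReal_le_ofReal (by linarith)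
  have h3 : ∫⁻ x in Kᶜ, w x * ‖lam m x⁻¹ h - h‖ₑ ^ 2 ∂m ≤ ENNReal.ofReal (η / 2) := by
    calc ∫⁻ x in Kᶜ, w x * ‖lam m x⁻¹ h - h‖ₑ ^ 2 ∂m ≤ ∫⁻ x in Kᶜ, w x * ENNReal.ofReal 4 ∂m := by
          apply setLIntegral_mono (hw.mul_const _)
          intro x _
          gcongr
          rw [← ofReal_norm, ← ENNReal.ofReal_pow (norm_nonneg _)]
          apply ENNReal.ofReal_le_ofReal
          have h4 := lam_sub_norm m x⁻¹ h
          rw [h1] at h4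
          nlinarith [norm_nonneg (lam m x⁻¹ h - h)]
      _ = (∫⁻ x in Kᶜ, w x ∂m) * ENNReal.ofReal 4 := lintegral_mul_const _ hw
      _ ≤ ENNReal.ofReal (η / 8) * ENNReal.ofReal 4 := by gcongr
      _ = ENNReal.ofReal (η / 8 * 4) := (ENNReal.ofReal_mul (by positivity)).symm
      _ = ENNReal.ofReal (η / 2) := by
          congr 1
          ring
  calc _ ≤ ENNReal.ofReal (η / 2) + ENNReal.ofReal (η / 2) := add_le_add h2 h3
    _ = ENNReal.ofReal η := by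
        rw [← ENNReal.ofReal_add (by positivity) (by positivity)]
        congr 1
        ring

lemma approx_unit {M : ℝ} (hM : 0 < M) {a : H → ℂ} (ha : HasA m M a) {ε : ℝ} (hε : 0 < ε) :
    ∃ K : Set H, IsCompact K ∧ ∃ δ : ℝ, 0 < δ ∧ ∀ h : Lp ℂ 2 m, ‖h‖ = 1 →
      (∀ s ∈ K, ‖lam m s h - h‖ ≤ δ) → HasA m ε (fun s => (uu m h s - 1) * a s) := by
  obtain ⟨ι, _, F, G, hF, hG, hs⟩ := ha
  have hw : ∀ F : ι → Lp ℂ 2 m, Measurable fun x => ∑' i, ‖F i x‖ₑ ^ 2 := by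
    intro F
    apply Measurable.tsum
    intro i
    exact ((Lp.stronglyMeasurable (F i)).measurable.enorm).pow_const 2
  have hwi : ∀ F : ι → Lp ℂ 2 m, ∫⁻ x, ∑' i, ‖F i x‖ₑ ^ 2 ∂m = ∑' i, ‖F i‖ₑ ^ 2 := by
    intro F
    rw [lintegral_tsum]
    · simp only [← l2_enorm']
    · intro i
      exact (((Lp.stronglyMeasurable (F i)).measurable.enorm).pow_const 2).aemeasurable
  have hη : 0 < (ε / 2) ^ 2 / M := by positivity
  obtain ⟨K1, hK1, δ1, hδ1, h1⟩ := small_lintegral (m := m) (hw F) hM.le (by rw [hwi]; exact hF) hη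
  obtain ⟨K2, hK2, δ2, hδ2, h2⟩ := small_lintegral (m := m) (hw G) hM.le (by rw [hwi]; exact hG) hη
  refine ⟨K1 ∪ K2, hK1.union hK2, min δ1 δ2, lt_min hδ1 hδ2, fun h hh hK => ?_⟩
  have e1 := h1 h hh fun s hs => (hK s (Or.inl hs)).trans (min_le_left _ _)
  have e2 := h2 h hh fun s hs => (hK s (Or.inr hs)).trans (min_le_right _ _)
  have hsumw : ∀ F : ι → Lp ℂ 2 m, ∑' i, ∫⁻ x, ‖F i x‖ₑ ^ 2 * ‖lam m x⁻¹ h - h‖ₑ ^ 2 ∂m =
      ∫⁻ x, (∑' i, ‖F i x‖ₑ ^ 2) * ‖lam m x⁻¹ h - h‖ₑ ^ 2 ∂m := by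
    intro F
    rw [← lintegral_tsum]
    · congr 1
      funext x
      rw [ENNReal.tsum_mul_right]
    · intro i
      have h3 : Measurable fun x : H => ‖lam m x⁻¹ h - h‖ₑ :=
        (((cont_inv_lam h).sub continuous_const).enorm).measurable
      exact ((((Lp.stronglyMeasurable (F i)).measurable.enorm).pow_const 2).mul
        (h3.pow_const 2)).aemeasurable
  have hnorm : ∀ y : H, ‖lam m y⁻¹ h‖ₑ = 1 := fun y => enorm_eq_one (by rw [lam_norm, hh])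
  have hcs : Continuous fun y : H => lam m y⁻¹ h - h := (cont_inv_lam h).sub continuous_const
  -- the first term
  have t1 : ∀ i, HasAA m (‖F i‖ₑ ^ 2) (∫⁻ x, ‖G i x‖ₑ ^ 2 * ‖lam m x⁻¹ h - h‖ₑ ^ 2 ∂m)
      (fun s => ∫ x, (starRingEnd ℂ) (G i x) * F i (s⁻¹ * x) *
        ⟪lam m x⁻¹ h - h, lam m (s⁻¹ * x)⁻¹ h⟫_ℂ ∂m) := by
    intro i
    have h3 := fell (F i) (G i) (fun y => lam m y⁻¹ h) (fun y => lam m y⁻¹ h - h) (cont_inv_lam h)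
      hcs (fun y => (lam_norm m y⁻¹ h).le) (fun y => lam_sub_norm m y⁻¹ h)
    simp only [hnorm, one_pow, mul_one] at h3
    rwa [← l2_enorm'] at h3
  have t2 : ∀ i, HasAA m (∫⁻ x, ‖F i x‖ₑ ^ 2 * ‖lam m x⁻¹ h - h‖ₑ ^ 2 ∂m) (‖G i‖ₑ ^ 2)
      (fun s => ∫ x, (starRingEnd ℂ) (G i x) * F i (s⁻¹ * x) *
        ⟪h, lam m (s⁻¹ * x)⁻¹ h - h⟫_ℂ ∂m) := by
    intro i
    have h3 := fell (F i) (G i) (fun y => lam m y⁻¹ h - h) (fun _ => h) hcs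
      continuous_const (fun y => lam_sub_norm m y⁻¹ h) (fun _ => le_refl ‖h‖)
    simp only [enorm_eq_one hh, one_pow, mul_one] at h3
    rwa [← l2_enorm' (G i)] at h3
  have hFt : ∑' i, ‖F i‖ₑ ^ 2 ≠ ⊤ := ne_top_of_le_ne_top ENNReal.ofReal_ne_top hF
  have hGt : ∑' i, ‖G i‖ₑ ^ 2 ≠ ⊤ := ne_top_of_le_ne_top ENNReal.ofReal_ne_top hG
  rw [← hsumw] at e1 e2
  have hFt' := ne_top_of_le_ne_top ENNReal.ofReal_ne_top e1
  have hGt' := ne_top_of_le_ne_top ENNReal.ofReal_ne_top e2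
  have T1 : HasA m (ε / 2) _ := HasAA.balance hM (by positivity) le_rfl le_rfl
    ((HasAA.tsum t1 hFt hGt').mono hF e2)
  have T2 : HasA m (ε / 2) _ := HasAA.balance' hM (by positivity) le_rfl le_rfl
    ((HasAA.tsum t2 hFt' hGt).mono e1 hG)
  have T := HasA.add (by positivity) (by positivity) T1 T2
  rw [add_halves] at T
  refine T.congr fun s => ?_
  have s1 := HasAA.summable t1 hFt hGt' s
  have s2 := HasAA.summable t2 hFt' hGt s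
  rw [← s1.tsum_add s2]
  have h3 : (uu m h s - 1) * a s = ∑' i, (uu m h s - 1) * ⟪G i, lam m s (F i)⟫_ℂ := by
    rw [((hs s).mul_left _).tsum_eq]
  rw [h3]
  congr 1
  funext i
  have hint : ∀ (Φ : H → ℂ) (_ : Continuous Φ) (C : ℝ) (_ : ∀ x, ‖Φ x‖ ≤ C),
      Integrable (fun x => (starRingEnd ℂ) (G i x) * F i (s⁻¹ * x) * Φ x) m := by
    intro Φ hΦ C hC
    have h4 := (coef_integrable (F i) (G i) s).bdd_mul (c := C) hΦ.aestronglyMeasurable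
      (Eventually.of_forall hC)
    exact h4.congr (Eventually.of_forall fun x => mul_comm _ _)
  have hc2 : Continuous fun x : H => lam m (s⁻¹ * x)⁻¹ h :=
    (cont_inv_lam h).comp (continuous_const_mul s⁻¹)
  rw [← integral_add]
  · rw [coef_integral, ← integral_const_mul]
    congr 1
    funext x
    rw [← mul_add]
    have h5 : ⟪lam m x⁻¹ h - h, lam m (s⁻¹ * x)⁻¹ h⟫_ℂ + ⟪h, lam m (s⁻¹ * x)⁻¹ h - h⟫_ℂ =
        uu m h s - 1 := by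
      rw [inner_sub_left, inner_sub_right, inner_shift, inner_self_eq_norm_sq_to_K, hh]
      simp
    rw [h5, mul_comm]
  · refine hint _ (hcs.inner hc2) (2 * ‖h‖ * ‖h‖) fun x => ?_
    refine (norm_inner_le_norm _ _).trans ?_
    rw [lam_norm]
    gcongr
    exact lam_sub_norm m x⁻¹ h
  · refine hint _ (continuous_const.inner (hc2.sub continuous_const)) (‖h‖ * (2 * ‖h‖)) fun x => ?_
    refine (norm_inner_le_norm _ _).trans ?_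
    gcongr
    exact lam_sub_norm m (s⁻¹ * x)⁻¹ h

end Pool.Agent.W5h53.CS
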