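import Pool.Agent.W5h53.CS.PartA

/-!
# Sums of coefficient functions with a bound on the norm
-/

set_option autoImplicit false
set_option linter.unusedSectionVars false

open Set Filter Topology MeasureTheory
open scoped ENNReal InnerProductSpace

namespace Pool.Agent.W5h53.CS

variable {H : Type*} [Group H] [TopologicalSpace H] [IsTopologicalGroup H] [LocallyCompactSpace H]
  [SecondCountableTopology H] [T2Space H] [MeasurableSpace H] [BorelSpace H]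

variable (m : Measure H) [m.IsHaarMeasure]

/-- `a` is a countable sum of coefficient functions `⟪G i, λ_s (F i)⟫` of the regular
representation with `Σ ‖F i‖² ≤ M₁` and `Σ ‖G i‖² ≤ M₂` -/
def HasAA (M₁ M₂ : ℝ≥0∞) (a : H → ℂ) : Prop :=
  ∃ (ι : Type) (_ : Countable ι) (F G : ι → Lp ℂ 2 m), ∑' i, ‖F i‖ₑ ^ 2 ≤ M₁ ∧
    ∑' i, ‖G i‖ₑ ^ 2 ≤ M₂ ∧ ∀ s, HasSum (fun i => ⟪G i, lam m s (F i)⟫_ℂ) (a s)

lemma summable_sq {ι : Type} {F : ι → Lp ℂ 2 m} (h : ∑' i, ‖F i‖ₑ ^ 2 ≠ ⊤) :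
    Summable fun i => ‖F i‖ ^ 2 := by
  have h1 := ENNReal.summable_toReal h
  refine h1.congr fun i => ?_
  rw [ENNReal.toReal_pow, toReal_enorm]

lemma tsum_sq {ι : Type} {F : ι → Lp ℂ 2 m} {M : ℝ} (hM : 0 ≤ M)
    (h : ∑' i, ‖F i‖ₑ ^ 2 ≤ ENNReal.ofReal M) : ∑' i, ‖F i‖ ^ 2 ≤ M := by
  have h0 : ∑' i, ‖F i‖ₑ ^ 2 ≠ ⊤ := ne_top_of_le_ne_top ENNReal.ofReal_ne_top h
  have h1 : ∑' i, ‖F i‖ ^ 2 = (∑' i, ‖F i‖ₑ ^ 2).toReal := by
    rw [ENNReal.tsum_toReal_eq (fun i => by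
      exact ENNReal.pow_ne_top enorm_ne_top)]
    simp only [ENNReal.toReal_pow, toReal_enorm]
  rw [h1]
  exact ENNReal.toReal_le_of_le_ofReal hM h

lemma summable_mul {ι : Type} {F G : ι → Lp ℂ 2 m} (hF : ∑' i, ‖F i‖ₑ ^ 2 ≠ ⊤)
    (hG : ∑' i, ‖G i‖ₑ ^ 2 ≠ ⊤) : Summable fun i => ‖G i‖ * ‖F i‖ := by
  refine Summable.of_nonneg_of_le (fun i => by positivity) (fun i => ?_)
    ((summable_sq m hF).add (summable_sq m hG))
  nlinarith [sq_nonneg (‖F i‖ - ‖G i‖), sq_nonneg ‖F i‖, sq_nonneg ‖G i‖]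

lemma coef_norm (f g : Lp ℂ 2 m) (s : H) : ‖⟪g, lam m s f⟫_ℂ‖ ≤ ‖g‖ * ‖f‖ := by
  refine (norm_inner_le_norm _ _).trans ?_
  rw [lam_norm]

lemma summable_coef {ι : Type} {F G : ι → Lp ℂ 2 m} (hF : ∑' i, ‖F i‖ₑ ^ 2 ≠ ⊤)
    (hG : ∑' i, ‖G i‖ₑ ^ 2 ≠ ⊤) (s : H) : Summable fun i => ⟪G i, lam m s (F i)⟫_ℂ :=
  Summable.of_norm_bounded (summable_mul m hF hG) fun i => coef_norm m (F i) (G i) s

variable {m}

lemma HasAA.sum {κ : Type} [Countable κ] {M₁ M₂ : κ → ℝ≥0∞} {a : κ → H → ℂ} {b : H → ℂ}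
    (h : ∀ k, HasAA m (M₁ k) (M₂ k) (a k)) (h1 : ∑' k, M₁ k ≠ ⊤) (h2 : ∑' k, M₂ k ≠ ⊤)
    (hb : ∀ s, HasSum (fun k => a k s) (b s)) : HasAA m (∑' k, M₁ k) (∑' k, M₂ k) b := by
  choose ι hι F G hF hG hs using h
  have hF' : ∑' p : Σ k, ι k, ‖F p.1 p.2‖ₑ ^ 2 ≤ ∑' k, M₁ k := by
    rw [ENNReal.tsum_sigma (fun k i => ‖F k i‖ₑ ^ 2)]
    exact ENNReal.tsum_le_tsum hF
  have hG' : ∑' p : Σ k, ι k, ‖G p.1 p.2‖ₑ ^ 2 ≤ ∑' k, M₂ k := by
    rw [ENNReal.tsum_sigma (fun k i => ‖G k i‖ₑ ^ 2)]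
    exact ENNReal.tsum_le_tsum hG
  refine ⟨Σ k, ι k, inferInstance, fun p => F p.1 p.2, fun p => G p.1 p.2, hF', hG', fun s => ?_⟩
  have hsum := summable_coef m (F := fun p : Σ k, ι k => F p.1 p.2)
    (G := fun p : Σ k, ι k => G p.1 p.2) (ne_top_of_le_ne_top h1 hF') (ne_top_of_le_ne_top h2 hG') s
  exact (hb s).sigma_of_hasSum (fun k => hs k s) hsum

lemma HasAA.mono {M₁ M₂ M₁' M₂' : ℝ≥0∞} {a : H → ℂ} (h : HasAA m M₁ M₂ a) (h1 : M₁ ≤ M₁')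
    (h2 : M₂ ≤ M₂') : HasAA m M₁' M₂' a := by
  obtain ⟨ι, _, F, G, hF, hG, hs⟩ := h
  exact ⟨ι, inferInstance, F, G, hF.trans h1, hG.trans h2, hs⟩

lemma enorm_smul_sq (c : ℝ) (f : Lp ℂ 2 m) :
    ‖(c : ℂ) • f‖ₑ ^ 2 = ENNReal.ofReal (c ^ 2) * ‖f‖ₑ ^ 2 := by
  rw [enorm_smul, mul_pow]
  congr 1
  rw [← ofReal_norm, Complex.norm_real, ← ENNReal.ofReal_pow (norm_nonneg _), Real.norm_eq_abs,
    sq_abs]

lemma HasAA.scale {M₁ M₂ : ℝ≥0∞} {a : H → ℂ} (h : HasAA m M₁ M₂ a) (c d : ℝ) :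
    HasAA m (ENNReal.ofReal (c ^ 2) * M₁) (ENNReal.ofReal (d ^ 2) * M₂)
      (fun s => (d * c : ℝ) * a s) := by
  obtain ⟨ι, _, F, G, hF, hG, hs⟩ := h
  refine ⟨ι, inferInstance, fun i => (c : ℂ) • F i, fun i => (d : ℂ) • G i, ?_, ?_, fun s => ?_⟩
  · simp only [enorm_smul_sq]
    rw [ENNReal.tsum_mul_left]
    gcongr
  · simp only [enorm_smul_sq]
    rw [ENNReal.tsum_mul_left]
    gcongr
  · have h1 := (hs s).mul_left ((d * c : ℝ) : ℂ)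
    refine h1.congr_fun fun i => ?_
    rw [map_smul, inner_smul_left, inner_smul_right, Complex.conj_ofReal]
    push_cast
    ring

variable (m) in
/-- `a` is a sum of coefficient functions with norm at most `M` -/
def HasA (M : ℝ) (a : H → ℂ) : Prop := HasAA m (ENNReal.ofReal M) (ENNReal.ofReal M) a

lemma HasA.mono {M M' : ℝ} {a : H → ℂ} (h : HasA m M a) (h1 : M ≤ M') : HasA m M' a :=
  HasAA.mono h (ENNReal.ofReal_le_ofReal h1) (ENNReal.ofReal_le_ofReal h1)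

lemma HasA.sum {κ : Type} [Countable κ] {M : κ → ℝ} (hM : ∀ k, 0 ≤ M k) {M' : ℝ}
    (hM' : HasSum M M') {a : κ → H → ℂ} {b : H → ℂ} (h : ∀ k, HasA m (M k) (a k))
    (hb : ∀ s, HasSum (fun k => a k s) (b s)) : HasA m M' b := by
  have h1 : ∑' k, ENNReal.ofReal (M k) = ENNReal.ofReal M' := by
    rw [← ENNReal.ofReal_tsum_of_nonneg hM hM'.summable, hM'.tsum_eq]
  have h2 := HasAA.sum h (by rw [h1]; exact ENNReal.ofReal_ne_top)
    (by rw [h1]; exact ENNReal.ofReal_ne_top) hb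
  rwa [h1] at h2

lemma HasA.smul {M : ℝ} {a : H → ℂ} (h : HasA m M a) {c : ℝ} (hc : 0 ≤ c) :
    HasA m (c * M) (fun s => (c : ℂ) * a s) := by
  have h1 := HasAA.scale h (Real.sqrt c) (Real.sqrt c)
  rw [Real.sq_sqrt hc, Real.mul_self_sqrt hc, ← ENNReal.ofReal_mul hc] at h1
  exact h1

lemma HasA.neg {M : ℝ} {a : H → ℂ} (h : HasA m M a) : HasA m M (fun s => -a s) := by
  have h1 := HasAA.scale h 1 (-1)
  simp only [one_pow, neg_one_sq, ENNReal.ofReal_one, one_mul, neg_mul, mul_one,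
    Complex.ofReal_neg, Complex.ofReal_one] at h1
  exact h1

lemma HasA.add {M M' : ℝ} (hM : 0 ≤ M) (hM' : 0 ≤ M') {a b : H → ℂ} (h : HasA m M a)
    (h' : HasA m M' b) : HasA m (M + M') (fun s => a s + b s) := by
  refine HasA.sum (κ := Bool) (M := fun k => cond k M M') (a := fun k => cond k a b) ?_ ?_ ?_ ?_
  · intro k
    cases k
    · exact hM'
    · exact hM
  · have := hasSum_fintype (fun k : Bool => cond k M M')
    simpa using this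
  · intro k
    cases k
    · exact h'
    · exact h
  · intro s
    have := hasSum_fintype (fun k : Bool => (cond k a b : H → ℂ) s)
    simpa using this

lemma HasA.congr {M : ℝ} {a b : H → ℂ} (h : HasA m M a) (hab : ∀ s, a s = b s) : HasA m M b := by
  have : a = b := funext hab
  rwa [← this]

lemma HasA.norm_le {M : ℝ} (hM : 0 ≤ M) {a : H → ℂ} (h : HasA m M a) (s : H) : ‖a s‖ ≤ M := by
  obtain ⟨ι, _, F, G, hF, hG, hs⟩ := h
  have hF0 : ∑' i, ‖F i‖ₑ ^ 2 ≠ ⊤ := ne_top_of_le_ne_top ENNReal.ofReal_ne_top hF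
  have hG0 : ∑' i, ‖G i‖ₑ ^ 2 ≠ ⊤ := ne_top_of_le_ne_top ENNReal.ofReal_ne_top hG
  have h1 : Summable fun i => (‖F i‖ ^ 2 + ‖G i‖ ^ 2) / 2 :=
    ((summable_sq m hF0).add (summable_sq m hG0)).div_const 2
  have h2 : ∀ i, ‖⟪G i, lam m s (F i)⟫_ℂ‖ ≤ (‖F i‖ ^ 2 + ‖G i‖ ^ 2) / 2 := by
    intro i
    refine (coef_norm m (F i) (G i) s).trans ?_
    nlinarith [sq_nonneg (‖F i‖ - ‖G i‖)]
  rw [← (hs s).tsum_eq]
  refine (tsum_of_norm_bounded h1.hasSum h2).trans ?_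
  rw [tsum_div_const, Summable.tsum_add (summable_sq m hF0) (summable_sq m hG0)]
  have h3 := tsum_sq m hM hF
  have h4 := tsum_sq m hM hG
  linarith

/-- from unbalanced to balanced bounds -/
lemma HasAA.balance {M₁ M₂ B ε : ℝ} (hB : 0 < B) (hε : 0 < ε) (h1 : M₁ ≤ B)
    (h2 : M₂ ≤ ε ^ 2 / B) {a : H → ℂ}
    (h : HasAA m (ENNReal.ofReal M₁) (ENNReal.ofReal M₂) a) : HasA m ε a := by
  have h3 := HasAA.scale h (Real.sqrt (ε / B)) (Real.sqrt (B / ε))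
  have h4 : Real.sqrt (B / ε) * Real.sqrt (ε / B) = 1 := by
    rw [← Real.sqrt_mul (by positivity), div_mul_div_comm, mul_comm ε B, div_self (by positivity),
      Real.sqrt_one]
  rw [h4, Real.sq_sqrt (by positivity), Real.sq_sqrt (by positivity),
    ← ENNReal.ofReal_mul (by positivity), ← ENNReal.ofReal_mul (by positivity)] at h3
  simp only [Complex.ofReal_one, one_mul] at h3
  refine HasAA.mono h3 (ENNReal.ofReal_le_ofReal ?_) (ENNReal.ofReal_le_ofReal ?_)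
  · calc ε / B * M₁ ≤ ε / B * B := by gcongr
      _ = ε := by field_simp
  · calc B / ε * M₂ ≤ B / ε * (ε ^ 2 / B) := by gcongr
      _ = ε := by field_simp

lemma HasAA.balance' {M₁ M₂ B ε : ℝ} (hB : 0 < B) (hε : 0 < ε) (h1 : M₁ ≤ ε ^ 2 / B)
    (h2 : M₂ ≤ B) {a : H → ℂ}
    (h : HasAA m (ENNReal.ofReal M₁) (ENNReal.ofReal M₂) a) : HasA m ε a := by
  have h3 := HasAA.scale h (Real.sqrt (B / ε)) (Real.sqrt (ε / B))
  have h4 : Real.sqrt (ε / B) * Real.sqrt (B / ε) = 1 := by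
    rw [← Real.sqrt_mul (by positivity), div_mul_div_comm, mul_comm ε B, div_self (by positivity),
      Real.sqrt_one]
  rw [h4, Real.sq_sqrt (by positivity), Real.sq_sqrt (by positivity),
    ← ENNReal.ofReal_mul (by positivity), ← ENNReal.ofReal_mul (by positivity)] at h3
  simp only [Complex.ofReal_one, one_mul] at h3
  refine HasAA.mono h3 (ENNReal.ofReal_le_ofReal ?_) (ENNReal.ofReal_le_ofReal ?_)
  · calc B / ε * M₁ ≤ B / ε * (ε ^ 2 / B) := by gcongr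
      _ = ε := by field_simp
  · calc ε / B * M₂ ≤ ε / B * B := by gcongr
      _ = ε := by field_simp

/-! ### a countable Parseval system -/

lemma countable_of_orthonormal {E : Type*} [NormedAddCommGroup E] [InnerProductSpace ℂ E]
    [TopologicalSpace.SeparableSpace E] {w : Set E} (hw : Orthonormal ℂ ((↑) : w → E)) :
    w.Countable := by
  have h1 : w.PairwiseDisjoint fun x => Metric.ball x (1 / 2 : ℝ) := by
    intro x hx y hy hxy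
    apply Metric.ball_disjoint_ball
    have h2 : ‖x - y‖ ^ 2 = 2 := by
      have h3 : ⟪x, y⟫_ℂ = 0 := hw.2 (i := ⟨x, hx⟩) (j := ⟨y, hy⟩) (by simpa using hxy)
      have h4 : ‖x‖ = 1 := hw.1 ⟨x, hx⟩
      have h5 : ‖y‖ = 1 := hw.1 ⟨y, hy⟩
      rw [@norm_sub_sq ℂ, h3, h4, h5]
      norm_num
    rw [dist_eq_norm]
    nlinarith [norm_nonneg (x - y)]
  exact h1.countable_of_isOpen (fun x _ => Metric.isOpen_ball)
    (fun x _ => ⟨x, Metric.mem_ball_self (by norm_num)⟩)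

variable (m)

lemma exists_parseval : ∃ e : ℕ → Lp ℂ 2 m, ∀ x y : Lp ℂ 2 m,
    HasSum (fun i => ⟪x, e i⟫_ℂ * ⟪e i, y⟫_ℂ) ⟪x, y⟫_ℂ := by
  have hfact : Fact ((2 : ℝ≥0∞) ≠ ⊤) := ⟨by norm_num⟩
  obtain ⟨w, b, hb⟩ := exists_hilbertBasis ℂ (Lp ℂ 2 m)
  have hw : w.Countable := countable_of_orthonormal (by rw [← hb]; exact b.orthonormal)
  have : Countable w := hw.to_subtype
  obtain ⟨j, hj⟩ := exists_injective_nat w
  classical
  refine ⟨fun n => if h : ∃ x : w, j x = n then b h.choose else 0, fun x y => ?_⟩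
  have h1 := b.hasSum_inner_mul_inner x y
  have h2 : ∀ i : w, (if h : ∃ x : w, j x = j i then b h.choose else 0) = b i := by
    intro i
    have h3 : ∃ x : w, j x = j i := ⟨i, rfl⟩
    rw [dif_pos h3, hj h3.choose_spec]
  rw [← hj.hasSum_iff (f := fun i => ⟪x, (if h : ∃ x : w, j x = i then b h.choose else 0 : Lp ℂ 2 m)⟫_ℂ *
    ⟪(if h : ∃ x : w, j x = i then b h.choose else 0 : Lp ℂ 2 m), y⟫_ℂ)]
  · refine h1.congr_fun fun i => ?_
    show ⟪x, (if h : ∃ x : w, j x = j i then b h.choose else 0 : Lp ℂ 2 m)⟫_ℂ *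
      ⟪(if h : ∃ x : w, j x = j i then b h.choose else 0 : Lp ℂ 2 m), y⟫_ℂ = _
    rw [h2]
  · intro n hn
    have h3 : ¬ ∃ x : w, j x = n := fun h => hn h
    simp only [dif_neg h3, inner_zero_right, zero_mul]

lemma parseval_enorm {e : ℕ → Lp ℂ 2 m} (he : ∀ x y : Lp ℂ 2 m,
    HasSum (fun i => ⟪x, e i⟫_ℂ * ⟪e i, y⟫_ℂ) ⟪x, y⟫_ℂ) (x : Lp ℂ 2 m) :
    ∑' i, ‖⟪e i, x⟫_ℂ‖ₑ ^ 2 = ‖x‖ₑ ^ 2 := by
  have h1 := he x x
  have h2 : HasSum (fun i => ‖⟪e i, x⟫_ℂ‖ ^ 2) (‖x‖ ^ 2) := by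
    have h3 := Complex.hasSum_re h1
    rw [inner_self_eq_norm_sq_to_K] at h3
    have h4 : (((‖x‖ : ℝ) : ℂ) ^ 2).re = ‖x‖ ^ 2 := by
      norm_cast
    have h5 : ((RCLike.ofReal ‖x‖ : ℂ) ^ 2).re = ‖x‖ ^ 2 := h4
    rw [h5] at h3
    refine h3.congr_fun fun i => ?_
    rw [← inner_conj_symm x (e i), ← Complex.normSq_eq_conj_mul_self, Complex.ofReal_re,
      Complex.normSq_eq_norm_sq]
  have h6 : ∀ i, ‖⟪e i, x⟫_ℂ‖ₑ ^ 2 = ENNReal.ofReal (‖⟪e i, x⟫_ℂ‖ ^ 2) := by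
    intro i
    rw [ENNReal.ofReal_pow (norm_nonneg _), ofReal_norm]
  simp only [h6]
  rw [← ENNReal.ofReal_tsum_of_nonneg (fun i => sq_nonneg _) h2.summable, h2.tsum_eq,
    ENNReal.ofReal_pow (norm_nonneg _), ofReal_norm]

end Pool.Agent.W5h53.CS
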