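import Pool.Agent.W5h53.CS.PartB

/-!
# From an invariant mean to Reiter's condition
-/

set_option autoImplicit false
set_option linter.unusedSectionVars false

open Set Filter Topology MeasureTheory BoundedContinuousFunction
open scoped ENNReal InnerProductSpace

namespace Pool.Agent.W5h53.CS

open Pool.Agent.X196.CS

variable {H : Type*} [Group H] [TopologicalSpace H] [IsTopologicalGroup H] [LocallyCompactSpace H]
  [SecondCountableTopology H] [T2Space H] [MeasurableSpace H] [BorelSpace H]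

/-- the operator of a point mass -/
noncomputable def TD (x : H) : Alg H := TA (Measure.dirac x)

lemma TD_apply (x : H) (f : H →ᵇ ℝ) (s : H) : app (TD x) f s = f (s * x) := by
  rw [TD, TA_apply, integral_dirac]

lemma TD_mul (x y : H) : TD x * TD y = TD (x * y) := by
  apply TA_ext
  intro f s
  rw [app_mul, TD_apply, TD_apply, TD_apply, mul_assoc]

lemma TD_norm (x : H) : ‖TD x‖ ≤ 1 := TT_norm_le_one (Measure.dirac x)

variable (m : Measure H) [m.IsHaarMeasure]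

lemma near_one {μ : Measure H} [IsFiniteMeasure μ] (hμ : μ ≪ m) {ε : ℝ} (hε : 0 < ε) :
    ∀ᶠ v in 𝓝 (1 : H), ‖TD v * TA μ - TA μ‖ ≤ ε ∧ ‖TA μ * TD v - TA μ‖ ≤ ε := by
  obtain ⟨V, hV, h⟩ := eventually_smallSets.1 (absorb m hμ hε)
  filter_upwards [hV] with v hv
  exact h V subset_rfl (Measure.dirac v) (by
    rw [Measure.dirac_apply]
    simp [hv])

lemma cont_right {A : Alg H} (hA : A ∈ CC m) : Continuous fun x : H => A * TD x := by
  obtain ⟨μ, _, hμ, rfl⟩ := hA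
  rw [continuous_iff_continuousAt]
  intro x
  rw [ContinuousAt, Metric.tendsto_nhds]
  intro ε hε
  have h2 : Tendsto (fun y => y * x⁻¹) (𝓝 x) (𝓝 1) := by
    have h3 : Continuous fun y : H => y * x⁻¹ := continuous_mul_const _
    have h4 := h3.tendsto x
    rwa [mul_inv_cancel] at h4
  filter_upwards [h2.eventually (near_one m hμ (half_pos hε))] with y hy
  rw [dist_eq_norm]
  have h3 : TA μ * TD y - TA μ * TD x = (TA μ * TD (y * x⁻¹) - TA μ) * TD x := by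
    rw [sub_mul, mul_assoc, TD_mul, inv_mul_cancel_right]
  rw [h3]
  calc ‖(TA μ * TD (y * x⁻¹) - TA μ) * TD x‖ ≤ ‖TA μ * TD (y * x⁻¹) - TA μ‖ * ‖TD x‖ :=
        norm_mul_le _ _
    _ ≤ (ε / 2) * 1 := mul_le_mul hy.2 (TD_norm x) (norm_nonneg _) (by positivity)
    _ < ε := by linarith

lemma cont_left {A : Alg H} (hA : A ∈ CC m) : Continuous fun x : H => TD x * A := by
  obtain ⟨μ, _, hμ, rfl⟩ := hA
  rw [continuous_iff_continuousAt]
  intro x
  rw [ContinuousAt, Metric.tendsto_nhds]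
  intro ε hε
  have h2 : Tendsto (fun y => x⁻¹ * y) (𝓝 x) (𝓝 1) := by
    have h3 : Continuous fun y : H => x⁻¹ * y := continuous_const_mul _
    have h4 := h3.tendsto x
    rwa [inv_mul_cancel] at h4
  filter_upwards [h2.eventually (near_one m hμ (half_pos hε))] with y hy
  rw [dist_eq_norm]
  have h3 : TD y * TA μ - TD x * TA μ = TD x * (TD (x⁻¹ * y) * TA μ - TA μ) := by
    rw [mul_sub, ← mul_assoc, TD_mul, mul_inv_cancel_left]
  rw [h3]
  calc ‖TD x * (TD (x⁻¹ * y) * TA μ - TA μ)‖ ≤ ‖TD x‖ * ‖TD (x⁻¹ * y) * TA μ - TA μ‖ :=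
        norm_mul_le _ _
    _ ≤ 1 * (ε / 2) := mul_le_mul (TD_norm x) hy.1 (norm_nonneg _) (by positivity)
    _ < ε := by linarith

/-- left invariant means on the bounded continuous functions -/
structure IsMean (M : (H →ᵇ ℝ) →ₗ[ℝ] ℝ) : Prop where
  one : M 1 = 1
  nonneg : ∀ f : H →ᵇ ℝ, (∀ x, 0 ≤ f x) → 0 ≤ M f
  inv : ∀ (s : H) (f g : H →ᵇ ℝ), (∀ x, g x = f (s * x)) → M g = M f

variable {M : (H →ᵇ ℝ) →ₗ[ℝ] ℝ}

lemma IsMean.ge (hM : IsMean M) {f : H →ᵇ ℝ} {c : ℝ} (h : ∀ x, c ≤ f x) : c ≤ M f := by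
  have h1 := hM.nonneg (f - c • 1) (fun x => by
    show 0 ≤ f x - c * 1
    have := h x
    linarith)
  rw [map_sub, map_smul, hM.one, smul_eq_mul, mul_one] at h1
  linarith

lemma IsMean.norm_le (hM : IsMean M) (f : H →ᵇ ℝ) : |M f| ≤ ‖f‖ := by
  rw [abs_le]
  have h0 : ∀ x, |f x| ≤ ‖f‖ := fun x => f.norm_coe_le_norm x
  constructor
  · exact hM.ge fun x => (abs_le.1 (h0 x)).1
  · have h1 := hM.ge (f := -f) (c := -‖f‖) fun x => by
      show -‖f‖ ≤ -f x
      have := (abs_le.1 (h0 x)).2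
      linarith
    rw [map_neg] at h1
    linarith

/-- the operators whose orbit function has mean `r` -/
def EE (M : (H →ᵇ ℝ) →ₗ[ℝ] ℝ) (l : Alg H →L[ℝ] ℝ) (r : ℝ) : Set (Alg H) :=
  {A | ∃ F : H →ᵇ ℝ, (∀ x, F x = l (A * TD x)) ∧ M F = r}

variable {l : Alg H →L[ℝ] ℝ}

lemma orbit_bound (l : Alg H →L[ℝ] ℝ) (A : Alg H) (x : H) : ‖l (A * TD x)‖ ≤ ‖l‖ * ‖A‖ := by
  refine (l.le_opNorm _).trans ?_
  gcongr
  calc ‖A * TD x‖ ≤ ‖A‖ * ‖TD x‖ := norm_mul_le _ _
    _ ≤ ‖A‖ * 1 := by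
      gcongr
      exact TD_norm x
    _ = ‖A‖ := mul_one _

lemma EE_mem (M : (H →ᵇ ℝ) →ₗ[ℝ] ℝ) (l : Alg H →L[ℝ] ℝ) {A : Alg H} (hA : A ∈ CC m) :
    ∃ r, A ∈ EE M l r :=
  ⟨_, BoundedContinuousFunction.ofNormedAddCommGroup (fun x => l (A * TD x))
    (l.continuous.comp (cont_right m hA)) (‖l‖ * ‖A‖) (orbit_bound l A), fun _ => rfl, rfl⟩

lemma EE_dist (hM : IsMean M) {A B : Alg H} {r r' : ℝ} (hA : A ∈ EE M l r) (hB : B ∈ EE M l r') :
    |r - r'| ≤ ‖l‖ * ‖A - B‖ := by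
  obtain ⟨F, hF, rfl⟩ := hA
  obtain ⟨G, hG, rfl⟩ := hB
  rw [← map_sub]
  refine (hM.norm_le _).trans ?_
  rw [BoundedContinuousFunction.norm_le (by positivity)]
  intro x
  have h1 : (F - G) x = l ((A - B) * TD x) := by
    show F x - G x = _
    rw [hF, hG, sub_mul, map_sub]
  rw [h1]
  exact orbit_bound l (A - B) x

lemma EE_convex (M : (H →ᵇ ℝ) →ₗ[ℝ] ℝ) (l : Alg H →L[ℝ] ℝ) (r : ℝ) : Convex ℝ (EE M l r) := by
  rintro A ⟨F, hF, hFr⟩ B ⟨G, hG, hGr⟩ a b _ _ hab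
  refine ⟨a • F + b • G, fun x => ?_, ?_⟩
  · show a * F x + b * G x = _
    rw [hF, hG, add_mul, smul_mul_assoc, smul_mul_assoc, map_add, map_smul, map_smul]
    rfl
  · rw [map_add, map_smul, map_smul, hFr, hGr, smul_eq_mul, smul_eq_mul, ← add_mul, hab, one_mul]

lemma EE_closed (hM : IsMean M) (l : Alg H →L[ℝ] ℝ) (r : ℝ) : IsClosed (EE M l r) := by
  apply IsSeqClosed.isClosed
  intro A B hA hB
  choose F hF hFr using hA
  have hn := tendsto_iff_norm_sub_tendsto_zero.1 hB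
  have hb : ∀ n x, |F n x - l (B * TD x)| ≤ ‖l‖ * ‖A n - B‖ := by
    intro n x
    rw [hF, ← map_sub, ← sub_mul]
    exact orbit_bound l (A n - B) x
  have h0 : Tendsto (fun n => ‖l‖ * ‖A n - B‖) atTop (𝓝 0) := by
    have := hn.const_mul ‖l‖
    rwa [mul_zero] at this
  have hunif : TendstoUniformly (fun n x => F n x) (fun x => l (B * TD x)) atTop := by
    rw [Metric.tendstoUniformly_iff]
    intro ε hε
    filter_upwards [h0.eventually (gt_mem_nhds hε)] with n hn x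
    rw [dist_comm, Real.dist_eq]
    exact (hb n x).trans_lt hn
  have hc : Continuous fun x => l (B * TD x) :=
    hunif.continuous (Frequently.of_forall fun n => (F n).continuous)
  let G : H →ᵇ ℝ := BoundedContinuousFunction.ofNormedAddCommGroup (fun x => l (B * TD x)) hc
    (‖l‖ * ‖B‖) (orbit_bound l B)
  refine ⟨G, fun _ => rfl, ?_⟩
  have h1 : ∀ n, |r - M G| ≤ ‖l‖ * ‖A n - B‖ :=
    fun n => EE_dist hM ⟨F n, hF n, hFr n⟩ ⟨G, fun _ => rfl, rfl⟩
  have h2 : |r - M G| ≤ 0 := ge_of_tendsto' h0 h1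
  have h3 := abs_nonpos_iff.1 h2
  linarith

lemma EE_trans (hM : IsMean M) {A : Alg H} {r : ℝ} (hA : A ∈ EE M l r) (s : H) :
    A * TD s ∈ EE M l r := by
  obtain ⟨F, hF, hFr⟩ := hA
  let G : H →ᵇ ℝ := F.compContinuous ⟨fun x => s * x, continuous_const_mul s⟩
  refine ⟨G, fun x => ?_, ?_⟩
  · show F (s * x) = _
    rw [hF, mul_assoc, TD_mul]
  · rw [hM.inv s F G fun x => rfl]
    exact hFr

/-- evaluation -/
noncomputable def ev (f : H →ᵇ ℝ) (u : H) : Alg H →L[ℝ] ℝ :=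
  LinearMap.mkContinuous
    { toFun := fun A => app A f u
      map_add' := fun A B => rfl
      map_smul' := fun c A => rfl } ‖f‖ (fun A => by
        show ‖app A f u‖ ≤ _
        calc ‖app A f u‖ ≤ ‖app A f‖ := (app A f).norm_coe_le_norm u
          _ ≤ ‖A‖ * ‖f‖ := app_norm A f
          _ = ‖f‖ * ‖A‖ := mul_comm _ _)

lemma ev_apply (f : H →ᵇ ℝ) (u : H) (A : Alg H) : ev f u A = app A f u := rfl

lemma EE_conv (hM : IsMean M) {κ : Measure H} [IsFiniteMeasure κ] (hκ : κ ≪ m) {r : ℝ}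
    (h : TA κ ∈ EE M l r) (ω : Measure H) [IsProbabilityMeasure ω] :
    TA κ * TA ω ∈ EE M l r := by
  have hcont : Continuous fun s : H => TA κ * TD s := cont_right m ⟨κ, inferInstance, hκ, rfl⟩
  have hint : Integrable (fun s : H => TA κ * TD s) ω := by
    refine Integrable.of_bound hcont.aestronglyMeasurable ‖TA κ‖ (Eventually.of_forall fun s => ?_)
    calc ‖TA κ * TD s‖ ≤ ‖TA κ‖ * ‖TD s‖ := norm_mul_le _ _
      _ ≤ ‖TA κ‖ * 1 := by
        gcongr
        exact TD_norm s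
      _ = ‖TA κ‖ := mul_one _
  have h1 := (EE_convex M l r).integral_mem (EE_closed hM l r)
    (Eventually.of_forall fun s => EE_trans hM h s) hint
  have h2 : ∫ s, TA κ * TD s ∂ω = TA κ * TA ω := by
    apply TA_ext
    intro f u
    have h3 := (ev f u).integral_comp_comm hint
    simp only [ev_apply] at h3
    rw [← h3]
    simp only [app_mul, TA_apply, TD_apply]
    symm
    apply integral_integral_swap
    apply Integrable.of_bound (C := ‖f‖)
    · apply Continuous.aestronglyMeasurable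
      exact f.continuous.comp ((continuous_const.mul continuous_fst).mul continuous_snd)
    · exact Eventually.of_forall fun p => f.norm_coe_le_norm _
  rwa [h2] at h1

lemma PP_left {ω κ : Measure H} [IsProbabilityMeasure ω] [IsProbabilityMeasure κ] (hκ : κ ≪ m) :
    TA ω * TA κ ∈ PP m :=
  ⟨ω ∗ₘ κ, inferInstance, Measure.mconv_absolutelyContinuous hκ, (TA_mul ω κ).symm⟩

lemma PP_right {κ : Measure H} [IsProbabilityMeasure κ] (hκ : κ ≪ m) (x : H) :
    TA κ * TD x ∈ PP m := by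
  refine ⟨κ ∗ₘ Measure.dirac x, inferInstance, ?_, (TA_mul κ _).symm⟩
  rw [Measure.mconv_dirac]
  exact (hκ.map (measurable_mul_const x)).trans
    (quasiMeasurePreserving_mul_right m x).absolutelyContinuous

lemma EE_left (hM : IsMean M) {ω κ : Measure H} [IsProbabilityMeasure ω] [IsProbabilityMeasure κ]
    (hκ : κ ≪ m) {r : ℝ} (h : TA κ ∈ EE M l r) : TA ω * TA κ ∈ EE M l r := by
  obtain ⟨r', hr'⟩ := EE_mem m M l (PP_CC m (PP_left m (ω := ω) hκ))
  have key : ∀ ε : ℝ, 0 < ε → |r - r'| ≤ ε := by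
    intro ε hε
    obtain ⟨η, hη, hη1⟩ : ∃ η : ℝ, 0 < η ∧ ‖l‖ * η ≤ ε / 2 := by
      refine ⟨ε / (2 * (‖l‖ + 1)), by positivity, ?_⟩
      rw [mul_div_assoc', div_le_div_iff₀ (by positivity) (by positivity)]
      nlinarith [norm_nonneg l]
    have hκ' : ω ∗ₘ κ ≪ m := Measure.mconv_absolutelyContinuous hκ
    obtain ⟨V, hV, h1⟩ := eventually_smallSets.1 ((absorb m hκ hη).and (absorb m hκ' hη))
    obtain ⟨ρ, _, hρ, hρV⟩ := exists_near m hV
    have h2 := h1 V subset_rfl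
    have h3 : ‖TA ρ * TA κ - TA κ‖ ≤ η := (h2.1 ρ hρV).1
    have h4 : ‖TA ρ * TA (ω ∗ₘ κ) - TA (ω ∗ₘ κ)‖ ≤ η := (h2.2 ρ hρV).1
    obtain ⟨q, hq⟩ := EE_mem m M l (A := TA ρ) ⟨ρ, inferInstance, hρ, rfl⟩
    have h5 := EE_dist hM (EE_conv m hM hρ hq κ) h
    have hr2 : TA (ω ∗ₘ κ) ∈ EE M l r' := by
      rw [TA_mul]
      exact hr'
    have h6 := EE_dist hM (EE_conv m hM hρ hq (ω ∗ₘ κ)) hr2
    have h7 : ‖l‖ * ‖TA ρ * TA κ - TA κ‖ ≤ ‖l‖ * η := by gcongr
    have h8 : ‖l‖ * ‖TA ρ * TA (ω ∗ₘ κ) - TA (ω ∗ₘ κ)‖ ≤ ‖l‖ * η := by gcongr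
    have h9 := abs_sub_le r q r'
    rw [abs_sub_comm r q] at h9
    linarith
  have h1 : |r - r'| ≤ 0 := le_of_forall_pos_le_add fun ε hε => by
    rw [zero_add]
    exact key ε hε
  have h2 : r = r' := by
    have := abs_nonpos_iff.1 h1
    linarith
  rw [h2]
  exact hr'

lemma PP_convex : Convex ℝ (PP m) := by
  rintro _ ⟨μ, _, hμ, rfl⟩ _ ⟨ν, _, hν, rfl⟩ a b ha hb hab
  refine ⟨a.toNNReal • μ + b.toNNReal • ν, ⟨?_⟩, ?_, ?_⟩
  · have h1 : (a.toNNReal • μ + b.toNNReal • ν) univ =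
        (a.toNNReal : ℝ≥0∞) * μ univ + (b.toNNReal : ℝ≥0∞) * ν univ := rfl
    rw [h1, measure_univ, measure_univ, mul_one, mul_one, ← ENNReal.coe_add, ← Real.toNNReal_add ha hb,
      hab, Real.toNNReal_one, ENNReal.coe_one]
  · exact Measure.AbsolutelyContinuous.add_left (hμ.smul_left _) (hν.smul_left _)
  · rw [TA_add, TA_smul, TA_smul, Real.coe_toNNReal a ha, Real.coe_toNNReal b hb]

/-- Day's convexity argument -/
theorem day (hM : IsMean M) {ι : Type*} [Fintype ι] (W : ι → Alg H) (hW : ∀ i, W i ∈ PP m)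
    {ε : ℝ} (hε : 0 < ε) : ∃ A ∈ PP m, ∀ i, ‖W i * A - A‖ ≤ ε := by
  classical
  by_contra hcon
  push Not at hcon
  let L : Alg H →L[ℝ] (ι → Alg H) := ContinuousLinearMap.pi fun i =>
    ContinuousLinearMap.mul ℝ (Alg H) (W i) - ContinuousLinearMap.id ℝ (Alg H)
  have hL : ∀ A i, L A i = W i * A - A := fun A i => rfl
  have hdisj : Disjoint (Metric.ball (0 : ι → Alg H) ε) (L '' (PP m)) := by
    rw [Set.disjoint_left]
    rintro v hv ⟨A, hA, rfl⟩
    obtain ⟨i, hi⟩ := hcon A hA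
    rw [mem_ball_zero_iff] at hv
    have h1 := norm_le_pi_norm (L A) i
    rw [hL] at h1
    linarith
  obtain ⟨Λ, u, h1, h2⟩ := geometric_hahn_banach_open (convex_ball _ _) Metric.isOpen_ball
    ((PP_convex m).linear_image L.toLinearMap) hdisj
  have hu : 0 < u := by
    have := h1 0 (Metric.mem_ball_self hε)
    rwa [map_zero] at this
  have h2' : ∀ A ∈ PP m, u ≤ Λ (L A) := fun A hA => h2 _ ⟨A, hA, rfl⟩
  let l : ι → (Alg H →L[ℝ] ℝ) := fun i => Λ.comp (ContinuousLinearMap.single ℝ (fun _ => Alg H) i)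
  have hl : ∀ v : ι → Alg H, Λ v = ∑ i, l i (v i) := by
    intro v
    have h3 : v = ∑ i, ContinuousLinearMap.single ℝ (fun _ => Alg H) i (v i) := by
      have h4 := (Finset.univ_sum_single v).symm
      exact h4
    conv_lhs => rw [h3]
    rw [map_sum]
    rfl
  obtain ⟨κ, _, hκ, -⟩ := exists_near m (V := univ) univ_mem
  have hκ' : TA κ ∈ CC m := ⟨κ, inferInstance, hκ, rfl⟩
  have hex : ∀ i, ∃ F G : H →ᵇ ℝ, (∀ x, F x = l i (TA κ * TD x)) ∧
      (∀ x, G x = l i (W i * TA κ * TD x)) ∧ M G - M F = 0 := by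
    intro i
    obtain ⟨r, hr⟩ := EE_mem m M (l i) hκ'
    obtain ⟨ω, _, hω, hωW⟩ := hW i
    have h3 := EE_left m hM (ω := ω) hκ hr
    rw [← hωW] at h3
    obtain ⟨F, hF, hFr⟩ := hr
    obtain ⟨G, hG, hGr⟩ := h3
    exact ⟨F, G, hF, hG, by rw [hFr, hGr, sub_self]⟩
  choose F G hF hG hFG using hex
  have h3 : M (∑ i, (G i - F i)) = 0 := by
    rw [map_sum]
    apply Finset.sum_eq_zero
    intro i _
    rw [map_sub]
    exact hFG i
  have h4 : u ≤ M (∑ i, (G i - F i)) := by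
    apply hM.ge
    intro x
    have h5 := h2' _ (PP_right m hκ x)
    rw [hl] at h5
    refine h5.trans (le_of_eq ?_)
    have h6 : (∑ i, (G i - F i)) x = ∑ i, (G i x - F i x) := by
      rw [BoundedContinuousFunction.sum_apply]
      rfl
    rw [h6]
    apply Finset.sum_congr rfl
    intro i _
    rw [hL, hF, hG, map_sub, mul_assoc]
  linarith

/-! ### from measures to vectors -/

lemma norm_sq_int (f : Lp ℂ 2 m) : ‖f‖ ^ 2 = ∫ x, ‖f x‖ ^ 2 ∂m := by
  have h1 := inner_self_eq_norm_sq (𝕜 := ℂ) f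
  rw [← h1, L2.inner_def]
  have h2 := L2.integrable_inner (𝕜 := ℂ) f f
  have h3 : RCLike.re (∫ a, ⟪f a, f a⟫_ℂ ∂m) = ∫ a, RCLike.re ⟪f a, f a⟫_ℂ ∂m := (integral_re h2).symm
  rw [h3]
  congr 1
  funext x
  exact inner_self_eq_norm_sq (𝕜 := ℂ) (f x)

lemma sqrt_sub_sq {a b : ℝ} (ha : 0 ≤ a) (hb : 0 ≤ b) :
    (Real.sqrt a - Real.sqrt b) ^ 2 ≤ |a - b| := by
  have h1 := Real.sqrt_nonneg a
  have h2 := Real.sqrt_nonneg b
  have h3 : a - b = (Real.sqrt a - Real.sqrt b) * (Real.sqrt a + Real.sqrt b) := by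
    have h4 := Real.mul_self_sqrt ha
    have h5 := Real.mul_self_sqrt hb
    linear_combination -h4 + h5
  rw [h3, abs_mul, abs_of_nonneg (show 0 ≤ Real.sqrt a + Real.sqrt b by positivity), ← sq_abs, sq]
  gcongr
  rw [abs_le]
  constructor <;> linarith

lemma exists_vec {μ : Measure H} [IsProbabilityMeasure μ] (hμ : μ ≪ m) :
    ∃ h : Lp ℂ 2 m, ‖h‖ = 1 ∧ ∀ s : H, ‖lam m s h - h‖ ^ 2 ≤ ‖TD s * TA μ - TA μ‖ := by
  obtain ⟨d, hd⟩ : ∃ d : Lp ℝ 1 m, d = dens m μ := ⟨_, rfl⟩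
  have hdc : d =ᵐ[m] fun u => (μ.rnDeriv m u).toReal := by
    rw [hd]
    exact dens_coe m μ
  have hd0 : ∀ᵐ x ∂m, 0 ≤ d x := by
    filter_upwards [hdc] with x hx
    rw [hx]
    exact ENNReal.toReal_nonneg
  have hdi : Integrable d m := memLp_one_iff_integrable.1 (Lp.memLp d)
  have hmeas : AEStronglyMeasurable (fun x => ((Real.sqrt (d x) : ℝ) : ℂ)) m := by
    apply Complex.continuous_ofReal.comp_aestronglyMeasurable
    exact Real.continuous_sqrt.comp_aestronglyMeasurable (Lp.aestronglyMeasurable d)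
  have hsq : ∀ᵐ x ∂m, ‖((Real.sqrt (d x) : ℝ) : ℂ)‖ ^ 2 = d x := by
    filter_upwards [hd0] with x hx
    rw [Complex.norm_real, Real.norm_eq_abs, sq_abs, Real.sq_sqrt hx]
  have hmem : MemLp (fun x => ((Real.sqrt (d x) : ℝ) : ℂ)) 2 m := by
    rw [memLp_two_iff_integrable_sq_norm hmeas]
    exact hdi.congr (hsq.mono fun x hx => hx.symm)
  obtain ⟨h, hh⟩ : ∃ h : Lp ℂ 2 m, h = hmem.toLp := ⟨_, rfl⟩
  have hhc : h =ᵐ[m] fun x => ((Real.sqrt (d x) : ℝ) : ℂ) := by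
    rw [hh]
    exact hmem.coeFn_toLp
  refine ⟨h, ?_, fun s => ?_⟩
  · have h1 : ‖h‖ ^ 2 = 1 := by
      rw [norm_sq_int]
      have h2 : ∫ x, ‖h x‖ ^ 2 ∂m = ∫ x, (μ.rnDeriv m x).toReal ∂m := by
        apply integral_congr_ae
        filter_upwards [hhc, hsq, hdc] with x h3 h4 h5
        rw [h3, h4, h5]
      rw [h2, Measure.integral_toReal_rnDeriv hμ, probReal_univ]
    have h2 : 0 ≤ ‖h‖ := norm_nonneg _
    nlinarith
  · have hqmp := (measurePreserving_mul_left m s⁻¹).quasiMeasurePreserving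
    obtain ⟨D, hD⟩ : ∃ D : Lp ℝ 1 m, D = DomMulAct.mk s⁻¹ • d - d := ⟨_, rfl⟩
    have hDc : ∀ᵐ x ∂m, D x = d (s⁻¹ * x) - d x := by
      rw [hD]
      filter_upwards [Lp.coeFn_sub (DomMulAct.mk s⁻¹ • d) d,
        DomMulAct.smul_Lp_ae_eq (DomMulAct.mk s⁻¹) d] with x h3 h4
      rw [h3, Pi.sub_apply, h4]
      rfl
    have hDi : Integrable D m := memLp_one_iff_integrable.1 (Lp.memLp D)
    have h1 : ‖D‖ ≤ ‖TD s * TA μ - TA μ‖ := by
      apply l1_norm_le
      intro F hF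
      have hdi' : Integrable (fun x => d (s⁻¹ * x)) m := hdi.comp_mul_left s⁻¹
      have i1 : Integrable (fun x => F x * d (s⁻¹ * x)) m :=
        hdi'.bdd_mul (c := ‖F‖) F.continuous.aestronglyMeasurable
          (Eventually.of_forall F.norm_coe_le_norm)
      have i2 : Integrable (fun x => F x * d x) m :=
        hdi.bdd_mul (c := ‖F‖) F.continuous.aestronglyMeasurable
          (Eventually.of_forall F.norm_coe_le_norm)
      have e1 : ∫ x, F x * D x ∂m = ∫ x, F x * d (s⁻¹ * x) ∂m - ∫ x, F x * d x ∂m := by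
        rw [← integral_sub i1 i2]
        apply integral_congr_ae
        filter_upwards [hDc] with x hx
        rw [hx, mul_sub]
      have e2 : ∫ x, F x * d (s⁻¹ * x) ∂m = ∫ x, F (s * x) * d x ∂m := by
        rw [← integral_mul_left_eq_self (fun u => F u * d (s⁻¹ * u)) s]
        congr 1
        funext u
        rw [inv_mul_cancel_left]
      have e3 : ∫ x, F (s * x) * d x ∂m = app (TD s * TA μ) F 1 := by
        rw [app_mul, TD_apply, TA_apply, one_mul, hd]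
        exact (int_dens m hμ (tr F s)).symm
      have e4 : ∫ x, F x * d x ∂m = app (TA μ) F 1 := by
        rw [TA_apply, hd]
        simp only [one_mul]
        exact (int_dens m hμ F).symm
      rw [e1, e2, e3, e4]
      have e5 : app (TD s * TA μ) F 1 - app (TA μ) F 1 = app (TD s * TA μ - TA μ) F 1 := rfl
      rw [e5, ← Real.norm_eq_abs]
      calc ‖app (TD s * TA μ - TA μ) F 1‖ ≤ ‖app (TD s * TA μ - TA μ) F‖ := norm_coe_le_norm _ _
        _ ≤ ‖TD s * TA μ - TA μ‖ * ‖F‖ := app_norm _ _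
        _ ≤ ‖TD s * TA μ - TA μ‖ * 1 := by gcongr
        _ = _ := mul_one _
    refine le_trans ?_ h1
    rw [norm_sq_int, L1.norm_eq_integral_norm]
    apply integral_mono_of_nonneg (Eventually.of_forall fun x => sq_nonneg _) hDi.norm
    filter_upwards [Lp.coeFn_sub (lam m s h) h, lam_coe m s h, hhc, hqmp.ae hhc, hd0,
      hqmp.ae hd0, hDc] with x a1 a2 a3 a4 a5 a6 a7
    rw [a1, Pi.sub_apply, a2, a3, a4, a7, ← Complex.ofReal_sub, Complex.norm_real,
      Real.norm_eq_abs, Real.norm_eq_abs, sq_abs]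
    exact sqrt_sub_sq a6 a5

/-- a left invariant mean gives Reiter's condition -/
theorem reiterTwo_of_isMean (hM : IsMean M) : ReiterTwo m := by
  intro K hK ε hε
  obtain ⟨η, hη, hη1⟩ : ∃ η : ℝ, 0 < η ∧ 3 * η ≤ ε ^ 2 := ⟨ε ^ 2 / 3, by positivity, by linarith⟩
  obtain ⟨ω, _, hω, -⟩ := exists_near m (V := univ) univ_mem
  have hc := cont_left m (A := TA ω) ⟨ω, inferInstance, hω, rfl⟩
  obtain ⟨t, -, ht⟩ := hK.elim_nhds_subcover
    (fun x => {s | ‖TD s * TA ω - TD x * TA ω‖ < η}) (fun x _ => by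
      have h1 : Tendsto (fun s : H => ‖TD s * TA ω - TD x * TA ω‖) (𝓝 x)
          (𝓝 ‖TD x * TA ω - TD x * TA ω‖) := ((hc.sub continuous_const).norm).tendsto x
      rw [sub_self, norm_zero] at h1
      exact h1.eventually (gt_mem_nhds hη))
  obtain ⟨A, ⟨κ, _, hκ, rfl⟩, hA⟩ := day m hM (ι := Option t)
    (fun i => match i with
      | none => TA ω
      | some x => TD (x : H) * TA ω) (by
      intro i
      cases i with
      | none => exact ⟨ω, inferInstance, hω, rfl⟩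
      | some x => exact PP_left m (ω := Measure.dirac (x : H)) hω) hη
  have hnone : ‖TA ω * TA κ - TA κ‖ ≤ η := hA none
  have hsome : ∀ x ∈ t, ‖TD x * TA ω * TA κ - TA κ‖ ≤ η := fun x hx => hA (some ⟨x, hx⟩)
  obtain ⟨h, h1, h2⟩ := exists_vec m (μ := ω ∗ₘ κ) (Measure.mconv_absolutelyContinuous hκ)
  refine ⟨h, h1, fun s hs => ?_⟩
  have h3 := h2 s
  rw [TA_mul] at h3
  obtain ⟨x, hx, hxs⟩ := mem_iUnion₂.1 (ht hs)
  have hxs' : ‖TD s * TA ω - TD x * TA ω‖ < η := hxs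
  have h4 : TD s * (TA ω * TA κ) - TA ω * TA κ = (TD s * TA ω - TD x * TA ω) * TA κ +
      (TD x * TA ω * TA κ - TA κ) - (TA ω * TA κ - TA κ) := by
    rw [sub_mul, mul_assoc]
    abel
  have h5 : ‖(TD s * TA ω - TD x * TA ω) * TA κ‖ ≤ η := by
    calc ‖(TD s * TA ω - TD x * TA ω) * TA κ‖ ≤ ‖TD s * TA ω - TD x * TA ω‖ * ‖TA κ‖ :=
          norm_mul_le _ _
      _ ≤ η * 1 := mul_le_mul hxs'.le (TT_norm_le_one κ) (norm_nonneg _) hη.le
      _ = η := mul_one _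
  have h6 : ‖TD s * (TA ω * TA κ) - TA ω * TA κ‖ ≤ 3 * η := by
    rw [h4]
    refine (norm_sub_le _ _).trans ?_
    have h7 := norm_add_le ((TD s * TA ω - TD x * TA ω) * TA κ) (TD x * TA ω * TA κ - TA κ)
    have h8 := hsome x hx
    linarith
  have h7 : ‖lam m s h - h‖ ^ 2 ≤ ε ^ 2 := h3.trans (h6.trans hη1)
  exact (pow_le_pow_iff_left₀ (norm_nonneg _) hε.le two_ne_zero).1 h7

end Pool.Agent.W5h53.CS
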