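import Pool.Agent.W5h53.CS.Fell

/-!
# Multipliers, exponentials and the choice of the jumps
-/

set_option autoImplicit false
set_option linter.unusedSectionVars false

open Set Filter Topology MeasureTheory
open scoped ENNReal InnerProductSpace

namespace Pool.Agent.W5h53.CS

variable {H : Type*} [Group H] [TopologicalSpace H] [IsTopologicalGroup H] [LocallyCompactSpace H]
  [SecondCountableTopology H] [T2Space H] [MeasurableSpace H] [BorelSpace H]

variable {m : Measure H} [m.IsHaarMeasure]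

variable (m) in
/-- multiplication by `w` has norm at most `c` -/
def Mult (c : ℝ) (w : H → ℂ) : Prop :=
  ∀ (M : ℝ) (a : H → ℂ), 0 ≤ M → HasA m M a → HasA m (c * M) (fun s => w s * a s)

lemma Mult.uu {h : Lp ℂ 2 m} (h1 : ‖h‖ = 1) : Mult m 1 (uu m h) := by
  intro M a _ ha
  rw [one_mul]
  exact ha.mul_uu h1

lemma Mult.add {c c' : ℝ} (hc : 0 ≤ c) (hc' : 0 ≤ c') {w w' : H → ℂ} (h : Mult m c w)
    (h' : Mult m c' w') : Mult m (c + c') (fun s => w s + w' s) := by
  intro M a hM ha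
  have h1 := HasA.add (by positivity) (by positivity) (h M a hM ha) (h' M a hM ha)
  rw [← add_mul] at h1
  exact h1.congr fun s => by ring

lemma Mult.sub_one {c : ℝ} (hc : 0 ≤ c) {w : H → ℂ} (h : Mult m c w) :
    Mult m (c + 1) (fun s => w s - 1) := by
  intro M a hM ha
  have h1 := HasA.add (by positivity) hM (h M a hM ha) ha.neg
  rw [add_mul, one_mul]
  exact h1.congr fun s => by ring

lemma Mult.pow {c : ℝ} (hc : 0 ≤ c) {w : H → ℂ} (h : Mult m c w) {M : ℝ} (hM : 0 ≤ M) {a : H → ℂ}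
    (ha : HasA m M a) (k : ℕ) : HasA m (c ^ k * M) (fun s => w s ^ k * a s) := by
  induction k with
  | zero =>
    simp only [pow_zero, one_mul]
    exact ha
  | succ k ih =>
    have h1 := h (c ^ k * M) _ (by positivity) ih
    rw [← mul_assoc, ← pow_succ'] at h1
    exact h1.congr fun s => by ring

/-- countable convex combinations -/
lemma Mult.tsum {κ : Type} [Countable κ] {c : κ → ℝ} (hc : ∀ k, 0 ≤ c k) {C : ℝ}
    (hC : HasSum c C) {w : κ → H → ℂ} {v : H → ℂ} (h : ∀ k, Mult m (c k) (w k))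
    (hv : ∀ s, HasSum (fun k => w k s) (v s)) : Mult m C v := by
  intro M a hM ha
  exact HasA.sum (fun k => mul_nonneg (hc k) hM) (hC.mul_right M) (fun k => h k M a hM ha)
    (fun s => (hv s).mul_right (a s))

lemma hasSum_exp_real (x : ℝ) : HasSum (fun k : ℕ => x ^ k / k.factorial) (Real.exp x) := by
  rw [Real.exp_eq_exp_ℝ]
  exact NormedSpace.expSeries_div_hasSum_exp x

lemma hasSum_exp_complex (x : ℂ) : HasSum (fun k : ℕ => x ^ k / k.factorial) (Complex.exp x) := by
  rw [Complex.exp_eq_exp_ℂ]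
  exact NormedSpace.expSeries_div_hasSum_exp x

/-- the main estimate for exponentials -/
lemma exp_sub_one {c : ℝ} (hc : 0 ≤ c) {w : H → ℂ} (h : Mult m c w) {M : ℝ} (hM : 0 ≤ M)
    {a : H → ℂ} (ha : HasA m M (fun s => w s * a s)) {t : ℝ} (ht : 0 ≤ t) :
    HasA m (t * Real.exp (t * c) * M) (fun s => (Complex.exp (t * w s) - 1) * a s) := by
  refine HasA.sum (κ := ℕ) (M := fun k => t * ((t * c) ^ k / k.factorial) * M)
    (a := fun k s => ((t ^ (k + 1) / (k + 1).factorial : ℝ) : ℂ) * (w s ^ k * (w s * a s)))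
    (fun k => by positivity) (((hasSum_exp_real (t * c)).mul_left t).mul_right M) (fun k => ?_)
    (fun s => ?_)
  · have h1 := (h.pow hc hM ha k).smul (c := t ^ (k + 1) / (k + 1).factorial) (by positivity)
    refine h1.mono ?_
    have h2 : t ^ (k + 1) / ((k + 1).factorial : ℝ) ≤ t ^ (k + 1) / (k.factorial : ℝ) := by
      apply div_le_div_of_nonneg_left (by positivity) (by positivity)
      exact_mod_cast Nat.factorial_le (Nat.le_succ k)
    calc t ^ (k + 1) / ((k + 1).factorial : ℝ) * (c ^ k * M) ≤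
        t ^ (k + 1) / (k.factorial : ℝ) * (c ^ k * M) := by gcongr
      _ = t * ((t * c) ^ k / k.factorial) * M := by
        rw [mul_pow, pow_succ]
        ring
  · have h1 := (hasSum_nat_add_iff' 1).2 (hasSum_exp_complex (t * w s))
    have h2 := h1.mul_right (a s)
    simp only [Finset.sum_range_one, pow_zero, Nat.factorial_zero, Nat.cast_one, div_one] at h2
    refine h2.congr_fun fun k => ?_
    push_cast
    rw [mul_pow]
    ring

/-- the sums of jumps -/
noncomputable def SS (m : Measure H) [m.IsHaarMeasure] (v0 : H → ℂ) (h : ℕ → Lp ℂ 2 m) (n : ℕ) :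
    H → ℂ := fun s => v0 s + ∑ k ∈ Finset.range n, uu m (h k) s

lemma SS_zero (v0 : H → ℂ) (h : ℕ → Lp ℂ 2 m) : SS m v0 h 0 = v0 := by
  funext s
  simp [SS]

lemma SS_succ (v0 : H → ℂ) (h : ℕ → Lp ℂ 2 m) (n : ℕ) (s : H) :
    SS m v0 h (n + 1) s = SS m v0 h n s + uu m (h n) s := by
  simp only [SS, Finset.sum_range_succ]
  ring

lemma SS_HasA {v0 : H → ℂ} (hv : HasA m 1 v0) {h : ℕ → Lp ℂ 2 m} (h1 : ∀ n, ‖h n‖ = 1) (n : ℕ) :
    HasA m (n + 1) (SS m v0 h n) := by
  induction n with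
  | zero =>
    rw [SS_zero]
    simpa using hv
  | succ n ih =>
    have h2 := HasA.add (by positivity) zero_le_one ih (HasA.uu (h1 n))
    push_cast
    exact h2.congr fun s => (SS_succ v0 h n s).symm

lemma SS_Mult {v0 : H → ℂ} (hv : Mult m 1 v0) {h : ℕ → Lp ℂ 2 m} (h1 : ∀ n, ‖h n‖ = 1) (n : ℕ) :
    Mult m (n + 1) (SS m v0 h n) := by
  induction n with
  | zero =>
    rw [SS_zero]
    simpa using hv
  | succ n ih =>
    have h2 := Mult.add (by positivity) zero_le_one ih (Mult.uu (h1 n))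
    push_cast
    have h3 : SS m v0 h (n + 1) = fun s => SS m v0 h n s + uu m (h n) s :=
      funext fun s => SS_succ v0 h n s
    rw [h3]
    exact h2

/-- the choice of the jumps -/
theorem exists_jumps (hm : ReiterTwo m) {v0 : H → ℂ} (hv : HasA m 1 v0) (K : ℕ → Set H)
    (hK : ∀ n, IsCompact (K n)) : ∃ h : ℕ → Lp ℂ 2 m, (∀ n, ‖h n‖ = 1) ∧
      (∀ n, ∀ s ∈ K n, ‖lam m s (h n) - h n‖ ≤ (1 / 2) ^ n) ∧
      ∀ n, HasA m ((1 / 2) ^ n) (fun s => (uu m (h n) s - 1) * SS m v0 h n s) := by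
  have step : ∀ (n : ℕ) (S : H → ℂ), HasA m (n + 1) S → ∃ h : Lp ℂ 2 m, ‖h‖ = 1 ∧
      (∀ s ∈ K n, ‖lam m s h - h‖ ≤ (1 / 2) ^ n) ∧
      HasA m ((1 / 2) ^ n) (fun s => (uu m h s - 1) * S s) := by
    intro n S hS
    obtain ⟨K', hK', δ, hδ, h1⟩ := approx_unit (by positivity) hS
      (show (0 : ℝ) < (1 / 2) ^ n by positivity)
    obtain ⟨h, h2, h3⟩ := hm (K n ∪ K') ((hK n).union hK') (min ((1 / 2) ^ n) δ)
      (lt_min (by positivity) hδ)
    exact ⟨h, h2, fun s hs => (h3 s (Or.inl hs)).trans (min_le_left _ _),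
      h1 h h2 fun s hs => (h3 s (Or.inr hs)).trans (min_le_right _ _)⟩
  choose! st st1 st2 st3 using step
  obtain ⟨S, hS⟩ : ∃ S : ℕ → H → ℂ, S = fun n => Nat.rec v0 (fun n S s => S s + uu m (st n S) s) n :=
    ⟨_, rfl⟩
  have hS0 : S 0 = v0 := by
    rw [hS]
    rfl
  have hS1 : ∀ n, S (n + 1) = fun s => S n s + uu m (st n (S n)) s := by
    intro n
    rw [hS]
  have hSA : ∀ n : ℕ, HasA m (n + 1) (S n) := by
    intro n
    induction n with
    | zero =>
      rw [hS0]
      simpa using hv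
    | succ n ih =>
      rw [hS1]
      push_cast
      exact HasA.add (by positivity) zero_le_one ih (HasA.uu (st1 n (S n) ih))
  have hSS : ∀ n, SS m v0 (fun n => st n (S n)) n = S n := by
    intro n
    induction n with
    | zero => rw [SS_zero, hS0]
    | succ n ih =>
      funext s
      rw [SS_succ, ih, hS1]
  refine ⟨fun n => st n (S n), fun n => st1 n _ (hSA n), fun n => st2 n _ (hSA n), fun n => ?_⟩
  rw [hSS]
  exact st3 n _ (hSA n)

/-- the approximating functions -/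
noncomputable def aa (m : Measure H) [m.IsHaarMeasure] (v0 : H → ℂ) (h : ℕ → Lp ℂ 2 m) (t : ℝ)
    (n : ℕ) : H → ℂ := fun s =>
  (Real.exp (-(t * (n + 1))) : ℂ) * (Complex.exp (t * SS m v0 h n s) - 1)

lemma aa_zero {v0 : H → ℂ} (hv : HasA m 1 v0) (hv' : Mult m 1 v0) (h : ℕ → Lp ℂ 2 m) {t : ℝ}
    (ht : 0 ≤ t) : HasA m t (aa m v0 h t 0) := by
  have h1 := exp_sub_one zero_le_one hv' zero_le_one (a := fun _ => 1)
    (by simpa using hv) ht
  have h2 := h1.smul (Real.exp_pos (-(t * ((0 : ℕ) + 1)))).le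
  have h3 : Real.exp (-(t * ((0 : ℕ) + 1))) * (t * Real.exp (t * 1) * 1) = t := by
    have h4 : Real.exp (-(t * ((0 : ℕ) + 1))) * Real.exp (t * 1) = 1 := by
      rw [← Real.exp_add]
      simp
    calc _ = t * (Real.exp (-(t * ((0 : ℕ) + 1))) * Real.exp (t * 1)) := by ring
      _ = t := by rw [h4, mul_one]
  rw [h3] at h2
  refine h2.congr fun s => ?_
  simp only [aa, SS_zero, mul_one]

lemma aa_succ {v0 : H → ℂ} (hv' : Mult m 1 v0) {h : ℕ → Lp ℂ 2 m} (h1 : ∀ n, ‖h n‖ = 1)
    {t : ℝ} (ht : 0 ≤ t) {n : ℕ} {δ : ℝ} (hδ : 0 ≤ δ)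
    (h2 : HasA m δ (fun s => (uu m (h n) s - 1) * SS m v0 h n s)) :
    HasA m (t * Real.exp (t * 2) * (t * δ) + t * Real.exp (-(t * (n + 1))))
      (fun s => aa m v0 h t (n + 1) s - aa m v0 h t n s) := by
  -- first term
  have e1 : HasA m (t * δ) (fun s => (uu m (h n) s - 1) * aa m v0 h t n s) := by
    have h3 := exp_sub_one (a := fun s => uu m (h n) s - 1) (by positivity) (SS_Mult hv' h1 n) hδ
      (h2.congr fun s => mul_comm _ _) ht
    have h4 := h3.smul (Real.exp_pos (-(t * ((n : ℝ) + 1)))).le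
    have h5 : Real.exp (-(t * ((n : ℝ) + 1))) * (t * Real.exp (t * ((n : ℝ) + 1)) * δ) = t * δ := by
      have h6 : Real.exp (-(t * ((n : ℝ) + 1))) * Real.exp (t * ((n : ℝ) + 1)) = 1 := by
        rw [← Real.exp_add]
        simp
      calc _ = (t * δ) * (Real.exp (-(t * ((n : ℝ) + 1))) * Real.exp (t * ((n : ℝ) + 1))) := by ring
        _ = t * δ := by rw [h6, mul_one]
    rw [h5] at h4
    refine h4.congr fun s => ?_
    simp only [aa]
    ring
  have e2 := exp_sub_one (c := 2) (by norm_num)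
    (by
      have := Mult.sub_one zero_le_one (Mult.uu (h1 n))
      norm_num at this
      exact this) (by positivity) e1 ht
  have e3 := (exp_sub_one zero_le_one (Mult.uu (h1 n)) zero_le_one (a := fun _ => 1)
    (by simpa using HasA.uu (h1 n)) ht).smul (Real.exp_pos (-(t * ((n : ℝ) + 1 + 1)))).le
  have h5 : Real.exp (-(t * ((n : ℝ) + 1 + 1))) * (t * Real.exp (t * 1) * 1) =
      t * Real.exp (-(t * (n + 1))) := by
    have h6 : Real.exp (-(t * ((n : ℝ) + 1 + 1))) * Real.exp (t * 1) =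
        Real.exp (-(t * ((n : ℝ) + 1))) := by
      rw [← Real.exp_add]
      congr 1
      ring
    calc _ = t * (Real.exp (-(t * ((n : ℝ) + 1 + 1))) * Real.exp (t * 1)) := by ring
      _ = _ := by rw [h6]
  rw [h5] at e3
  refine (HasA.add (by positivity) (by positivity) e2 e3).congr fun s => ?_
  simp only [aa]
  push_cast
  rw [SS_succ]
  obtain ⟨u, hu⟩ : ∃ u, u = uu m (h n) s := ⟨_, rfl⟩
  obtain ⟨S, hS⟩ : ∃ S, S = SS m v0 h n s := ⟨_, rfl⟩
  rw [← hu, ← hS]
  have h7 : Complex.exp (t * (u - 1)) = Complex.exp (t * u) * Complex.exp (-t) := by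
    rw [← Complex.exp_add]
    congr 1
    ring
  have h8 : Complex.exp (t * (S + u)) = Complex.exp (t * S) * Complex.exp (t * u) := by
    rw [← Complex.exp_add]
    congr 1
    ring
  have h9 : Complex.exp (-(t * ((n : ℂ) + 1 + 1))) =
      Complex.exp (-(t * ((n : ℂ) + 1))) * Complex.exp (-t) := by
    rw [← Complex.exp_add]
    congr 1
    ring
  rw [h7, h8, h9]
  ring

end Pool.Agent.W5h53.CS
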