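import Pool.Agent.W5h53.CS.Multi

/-!
# Positive definite functions and the first function
-/

set_option autoImplicit false
set_option linter.unusedSectionVars false

open Set Filter Topology MeasureTheory
open scoped ENNReal InnerProductSpace ComplexOrder Matrix

namespace Pool.Agent.W5h53.CS

section
variable {H : Type*} [Group H]

/-- positive definite functions -/
def PD (φ : H → ℂ) : Prop :=
  ∀ (n : ℕ) (x : Fin n → H), (Matrix.of fun i j => φ ((x i)⁻¹ * x j)).PosSemidef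

lemma PD.add {φ ψ : H → ℂ} (h1 : PD φ) (h2 : PD ψ) : PD (fun s => φ s + ψ s) := by
  intro n x
  have h := (h1 n x).add (h2 n x)
  have h3 : (Matrix.of fun i j => φ ((x i)⁻¹ * x j) + ψ ((x i)⁻¹ * x j)) =
      (Matrix.of fun i j => φ ((x i)⁻¹ * x j)) + (Matrix.of fun i j => ψ ((x i)⁻¹ * x j)) := rfl
  rw [h3]
  exact h

lemma PD.mul {φ ψ : H → ℂ} (h1 : PD φ) (h2 : PD ψ) : PD (fun s => φ s * ψ s) := by
  intro n x
  have h := (h1 n x).hadamard (h2 n x)
  exact h

lemma PD.const {c : ℝ} (hc : 0 ≤ c) : PD (fun _ : H => (c : ℂ)) := by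
  intro n x
  have h := Matrix.posSemidef_gram ℂ (fun _ : Fin n => (Real.sqrt c : ℂ))
  have h3 : (Matrix.of fun _ _ : Fin n => (c : ℂ)) =
      Matrix.gram ℂ (fun _ : Fin n => (Real.sqrt c : ℂ)) := by
    ext i j
    rw [Matrix.gram_apply, RCLike.inner_apply, Complex.conj_ofReal, ← Complex.ofReal_mul,
      Real.mul_self_sqrt hc]
    rfl
  show (Matrix.of fun _ _ : Fin n => (c : ℂ)).PosSemidef
  rw [h3]
  exact h

lemma PD.pow {φ : H → ℂ} (h1 : PD φ) (k : ℕ) : PD (fun s => φ s ^ k) := by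
  induction k with
  | zero =>
    have := PD.const (H := H) zero_le_one
    simpa using this
  | succ k ih =>
    have h2 := ih.mul h1
    simpa only [pow_succ] using h2

lemma PD.sum {φ : ℕ → H → ℂ} (h1 : ∀ k, PD (φ k)) (n : ℕ) :
    PD (fun s => ∑ k ∈ Finset.range n, φ k s) := by
  induction n with
  | zero =>
    have := PD.const (H := H) (le_refl (0 : ℝ))
    simpa using this
  | succ k ih =>
    have h2 := ih.add (h1 k)
    simpa only [Finset.sum_range_succ] using h2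

lemma PD.lim {φ : ℕ → H → ℂ} (h1 : ∀ k, PD (φ k)) {ψ : H → ℂ}
    (h : ∀ s, Tendsto (fun k => φ k s) atTop (𝓝 (ψ s))) : PD ψ := by
  intro n x
  rw [Matrix.posSemidef_iff_dotProduct_mulVec]
  constructor
  · ext i j
    have h2 : ∀ k, star (φ k ((x j)⁻¹ * x i)) = φ k ((x i)⁻¹ * x j) := by
      intro k
      exact (h1 k n x).isHermitian.apply i j
    have h3 := (h ((x j)⁻¹ * x i)).star
    simp only [h2] at h3
    exact tendsto_nhds_unique h3 (h ((x i)⁻¹ * x j))
  · intro v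
    have h2 : ∀ k, 0 ≤ ∑ i, star (v i) * ∑ j, φ k ((x i)⁻¹ * x j) * v j :=
      fun k => (h1 k n x).dotProduct_mulVec_nonneg v
    have h3 : Tendsto (fun k => ∑ i, star (v i) * ∑ j, φ k ((x i)⁻¹ * x j) * v j) atTop
        (𝓝 (∑ i, star (v i) * ∑ j, ψ ((x i)⁻¹ * x j) * v j)) := by
      apply tendsto_finsetSum
      intro i _
      apply Tendsto.const_mul
      apply tendsto_finsetSum
      intro j _
      exact (h _).mul_const _
    exact ge_of_tendsto' h3 h2

lemma PD.tsum {φ : ℕ → H → ℂ} (h1 : ∀ k, PD (φ k)) {ψ : H → ℂ}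
    (h : ∀ s, HasSum (fun k => φ k s) (ψ s)) : PD ψ :=
  PD.lim (PD.sum h1) fun s => (h s).tendsto_sum_nat

lemma PD.exp {φ : H → ℂ} (h1 : PD φ) {t : ℝ} (ht : 0 ≤ t) :
    PD (fun s => Complex.exp (t * φ s)) := by
  refine PD.tsum (φ := fun k s => ((t ^ k / k.factorial : ℝ) : ℂ) * φ s ^ k) (fun k => ?_) fun s => ?_
  · exact (PD.const (by positivity)).mul (h1.pow k)
  · refine (hasSum_exp_complex (t * φ s)).congr_fun fun k => ?_
    push_cast
    rw [mul_pow]
    ring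

end

variable {H : Type*} [Group H] [TopologicalSpace H] [IsTopologicalGroup H] [LocallyCompactSpace H]
  [SecondCountableTopology H] [T2Space H] [MeasurableSpace H] [BorelSpace H]

variable (m : Measure H) [m.IsHaarMeasure]

lemma PD.uu (h : Lp ℂ 2 m) : PD (uu m h) := by
  intro n x
  have h1 := Matrix.posSemidef_gram ℂ (fun i : Fin n => lam m (x i) h)
  have h3 : (Matrix.of fun i j => Pool.Agent.W5h53.CS.uu m h ((x i)⁻¹ * x j)) =
      Matrix.gram ℂ (fun i : Fin n => lam m (x i) h) := by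
    ext i j
    rw [Matrix.gram_apply, lam_inner_left, ← lam_mul]
    rfl
  rw [h3]
  exact h1

lemma uu_cont (h : Lp ℂ 2 m) : Continuous (uu m h) := continuous_const.inner (lam_cont m h)

lemma uu_norm {h : Lp ℂ 2 m} (h1 : ‖h‖ = 1) (s : H) : ‖uu m h s‖ ≤ 1 := by
  have := coef_norm m h h s
  rwa [h1, mul_one] at this

lemma uu_one {h : Lp ℂ 2 m} (h1 : ‖h‖ = 1) : uu m h 1 = 1 := by
  rw [uu, lam_one, inner_self_eq_norm_sq_to_K, h1]
  simp

lemma uu_sub {h : Lp ℂ 2 m} (h1 : ‖h‖ = 1) (s : H) : ‖1 - uu m h s‖ ≤ ‖lam m s h - h‖ := by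
  have h2 : 1 - uu m h s = -⟪h, lam m s h - h⟫_ℂ := by
    rw [inner_sub_right, inner_self_eq_norm_sq_to_K, h1, uu]
    simp
  rw [h2, norm_neg]
  refine (norm_inner_le_norm _ _).trans ?_
  rw [h1, one_mul]

/-- a vector supported near the identity -/
lemma exists_local {V : Set H} (hV : V ∈ 𝓝 (1 : H)) :
    ∃ h : Lp ℂ 2 m, ‖h‖ = 1 ∧ ∀ s ∉ V, uu m h s = 0 := by
  obtain ⟨W, hW, hW1⟩ := exists_nhds_split_inv hV
  obtain ⟨K, hK, hK1⟩ := exists_compact_mem_nhds (1 : H)
  obtain ⟨O, hO⟩ : ∃ O, O = interior (W ∩ K) := ⟨_, rfl⟩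
  have hOo : IsOpen O := by rw [hO]; exact isOpen_interior
  have h1O : (1 : H) ∈ O := by rw [hO]; exact mem_interior_iff_mem_nhds.2 (inter_mem hW hK1)
  have hOW : O ⊆ W := by rw [hO]; exact interior_subset.trans inter_subset_left
  have hOK : O ⊆ K := by rw [hO]; exact interior_subset.trans inter_subset_right
  have h0 : m O ≠ 0 := (hOo.measure_pos m ⟨1, h1O⟩).ne'
  have hfin : m O ≠ ⊤ := ne_top_of_le_ne_top hK.measure_lt_top.ne (measure_mono hOK)
  obtain ⟨h0', hh0⟩ : ∃ h0' : Lp ℂ 2 m, h0' = indicatorConstLp 2 hOo.measurableSet hfin (1 : ℂ) :=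
    ⟨_, rfl⟩
  have hn : ‖h0'‖ ≠ 0 := by
    rw [hh0, norm_indicatorConstLp (by norm_num) (by norm_num), norm_one, one_mul]
    have h3 : 0 < m.real O := ENNReal.toReal_pos h0 hfin
    positivity
  have hz : ∀ s ∉ V, uu m h0' s = 0 := by
    intro s hs
    rw [uu, coef_integral]
    have hqmp := (measurePreserving_mul_left m s⁻¹).quasiMeasurePreserving
    have h3 : ∀ᵐ x ∂m, h0' x = O.indicator (fun _ => (1 : ℂ)) x := by
      rw [hh0]
      exact indicatorConstLp_coeFn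
    have h4 : ∀ᵐ x ∂m, (starRingEnd ℂ) (h0' x) * h0' (s⁻¹ * x) = 0 := by
      filter_upwards [h3, hqmp.ae h3] with x h5 h6
      rw [h5, h6]
      by_cases hx : x ∈ O
      · by_cases hy : s⁻¹ * x ∈ O
        · exfalso
          apply hs
          have h7 := hW1 x (hOW hx) (s⁻¹ * x) (hOW hy)
          simpa [div_eq_mul_inv] using h7
        · rw [indicator_of_notMem hy, mul_zero]
      · rw [indicator_of_notMem hx, map_zero, zero_mul]
    rw [integral_congr_ae h4, integral_zero]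
  refine ⟨((‖h0'‖⁻¹ : ℝ) : ℂ) • h0', ?_, fun s hs => ?_⟩
  · rw [norm_smul, Complex.norm_real, norm_inv, norm_norm, inv_mul_cancel₀ hn]
  · have h5 := hz s hs
    unfold uu at h5 ⊢
    rw [map_smul, inner_smul_left, inner_smul_right, h5, mul_zero, mul_zero]

lemma exists_v0 : ∃ v0 : H → ℂ, HasA m 1 v0 ∧ Mult m 1 v0 ∧ PD v0 ∧ Continuous v0 ∧ v0 1 = 1 ∧
    (∀ s, (v0 s).re ≤ 1) ∧ ∀ U ∈ 𝓝 (1 : H), ∃ c : ℝ, 0 < c ∧ ∀ s ∉ U, (v0 s).re ≤ 1 - c := by
  obtain ⟨V, hV⟩ := (𝓝 (1 : H)).exists_antitone_basis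
  have hVn : ∀ n, V n ∈ 𝓝 (1 : H) := fun n => hV.1.mem_of_mem trivial
  choose h hh hz using fun n => exists_local m (hVn n)
  obtain ⟨c, hcdef⟩ : ∃ c : ℕ → ℝ, c = fun n => 1 / 2 * (1 / 2) ^ n := ⟨_, rfl⟩
  have hc0 : ∀ n, 0 < c n := by
    intro n
    rw [hcdef]
    positivity
  have hc1 : HasSum c 1 := by
    have h1 := hasSum_geometric_two.mul_left (1 / 2 : ℝ)
    norm_num at h1
    rw [hcdef]
    norm_num
    exact h1
  have hb : ∀ n s, ‖(c n : ℂ) * uu m (h n) s‖ ≤ c n := by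
    intro n s
    rw [norm_mul, Complex.norm_real, Real.norm_eq_abs, abs_of_pos (hc0 n)]
    exact mul_le_of_le_one_right (hc0 n).le (uu_norm m (hh n) s)
  have hs : ∀ s, HasSum (fun n => (c n : ℂ) * uu m (h n) s) (∑' n, (c n : ℂ) * uu m (h n) s) :=
    fun s => (Summable.of_norm_bounded hc1.summable fun n => hb n s).hasSum
  have hre : ∀ s, HasSum (fun n => c n * (1 - (uu m (h n) s).re))
      (1 - (∑' n, (c n : ℂ) * uu m (h n) s).re) := by
    intro s
    have h1 := hc1.sub (Complex.hasSum_re (hs s))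
    refine h1.congr_fun fun n => ?_
    rw [Complex.re_ofReal_mul]
    ring
  have hnn : ∀ s n, 0 ≤ c n * (1 - (uu m (h n) s).re) := by
    intro s n
    have h1 := (Complex.re_le_norm (uu m (h n) s)).trans (uu_norm m (hh n) s)
    exact mul_nonneg (hc0 n).le (by linarith)
  refine ⟨fun s => ∑' n, (c n : ℂ) * uu m (h n) s, ?_, ?_, ?_, ?_, ?_, ?_, ?_⟩
  · refine HasA.sum (fun n => (hc0 n).le) hc1 (fun n => ?_) hs
    have h1 := (HasA.uu (hh n)).smul (hc0 n).le
    rwa [mul_one] at h1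
  · refine Mult.tsum (fun n => (hc0 n).le) hc1 (fun n => ?_) hs
    intro M a hM ha
    have h1 := (ha.mul_uu (hh n)).smul (hc0 n).le
    exact h1.congr fun s => by ring
  · exact PD.tsum (fun n => (PD.const (hc0 n).le).mul (PD.uu m (h n))) hs
  · exact continuous_tsum (fun n => continuous_const.mul (uu_cont m (h n))) hc1.summable hb
  · simp only [uu_one m (hh _), mul_one]
    have h1 : HasSum (fun n => (c n : ℂ)) ((1 : ℝ) : ℂ) := Complex.ofRealCLM.hasSum hc1
    rw [Complex.ofReal_one] at h1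
    exact h1.tsum_eq
  · intro s
    have h1 := (hre s).nonneg (hnn s)
    linarith
  · intro U hU
    obtain ⟨j, _, hj⟩ := hV.1.mem_iff.1 hU
    refine ⟨c j, hc0 j, fun s hsU => ?_⟩
    have h1 := le_hasSum (hre s) j fun i _ => hnn s i
    rw [hz j s (fun h => hsU (hj h))] at h1
    simp only [Complex.zero_re, sub_zero, mul_one] at h1
    show (∑' n, (c n : ℂ) * uu m (h n) s).re ≤ 1 - c j
    linarith

end Pool.Agent.W5h53.CS
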