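import Pool.Agent.W5h53.CS.Trans

/-!
# Asymptotic invariance of the semigroup of measures
-/

set_option autoImplicit false
set_option linter.unusedSectionVars false

open Set Filter Topology MeasureTheory BoundedContinuousFunction NormedSpace
open scoped ZeroAtInfty ENNReal InnerProductSpace

namespace Pool.Agent.W5h53.CS

open Pool.Agent.X196.CS

/-- domination of an absolutely continuous measure up to a small error -/
lemma dominate {X : Type*} [MeasurableSpace X] (ω ν : Measure X) [IsFiniteMeasure ω]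
    [IsFiniteMeasure ν] (h : ω ≪ ν) {ε : ℝ} (hε : 0 < ε) :
    ∃ C : ℝ, 0 ≤ C ∧ ∀ (φ : X → ℝ) (D : ℝ), 0 ≤ D → Measurable φ → (∀ x, 0 ≤ φ x) →
      (∀ x, φ x ≤ D) → ∫ x, φ x ∂ω ≤ ε * D + C * ∫ x, φ x ∂ν := by
  obtain ⟨g, hgdef⟩ : ∃ g : X → ℝ, g = fun x => (ω.rnDeriv ν x).toReal := ⟨_, rfl⟩
  have hg : Integrable g ν := by
    rw [hgdef]
    exact Measure.integrable_toReal_rnDeriv
  have hgm : Measurable g := by
    rw [hgdef]
    exact (Measure.measurable_rnDeriv ω ν).ennreal_toReal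
  have hg0 : ∀ x, 0 ≤ g x := by
    intro x
    rw [hgdef]
    exact ENNReal.toReal_nonneg
  have h1 : Tendsto (fun n : ℕ => ∫ x, max (g x - n) 0 ∂ν) atTop (𝓝 (∫ _, (0 : ℝ) ∂ν)) := by
    apply tendsto_integral_of_dominated_convergence g
    · intro n
      exact ((hgm.sub_const _).max measurable_const).aestronglyMeasurable
    · exact hg
    · intro n
      refine Eventually.of_forall fun x => ?_
      rw [Real.norm_eq_abs, abs_of_nonneg (le_max_right _ _)]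
      have h2 := Nat.cast_nonneg (α := ℝ) n
      exact max_le (by linarith) (hg0 x)
    · refine Eventually.of_forall fun x => ?_
      apply tendsto_const_nhds.congr'
      obtain ⟨N, hN⟩ := exists_nat_ge (g x)
      filter_upwards [eventually_ge_atTop N] with n hn
      have h2 : (N : ℝ) ≤ n := by exact_mod_cast hn
      rw [max_eq_right]
      linarith
  rw [integral_zero] at h1
  obtain ⟨n, hn⟩ := (h1.eventually (gt_mem_nhds hε)).exists
  refine ⟨n, n.cast_nonneg, fun φ D hD hφ h0 hφD => ?_⟩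
  have hb : ∀ x, ‖φ x‖ ≤ D := by
    intro x
    rw [Real.norm_eq_abs, abs_of_nonneg (h0 x)]
    exact hφD x
  have hφi : Integrable φ ν :=
    Integrable.of_bound hφ.aestronglyMeasurable D (Eventually.of_forall hb)
  have h2 : ∫ x, φ x ∂ω = ∫ x, g x * φ x ∂ν := by
    rw [hgdef]
    exact (integral_toReal_rnDeriv_mul h).symm
  rw [h2]
  have hi1 : Integrable (fun x => max (g x - n) 0) ν := (hg.sub (integrable_const _)).pos_part
  have hi2 : Integrable (fun x => g x * φ x) ν := by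
    have h3 := hg.bdd_mul (c := D) hφ.aestronglyMeasurable (Eventually.of_forall hb)
    refine h3.congr (Eventually.of_forall fun x => ?_)
    exact mul_comm _ _
  have h3 : ∫ x, g x * φ x ∂ν ≤ ∫ x, (D * max (g x - n) 0 + n * φ x) ∂ν := by
    apply integral_mono hi2
    · exact (hi1.const_mul D).add (hφi.const_mul _)
    · intro x
      have h4 := le_max_left (g x - n) 0
      have h5 := le_max_right (g x - n) 0
      have h6 : g x * φ x ≤ (n + max (g x - n) 0) * φ x :=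
        mul_le_mul_of_nonneg_right (by linarith) (h0 x)
      have h7 : max (g x - n) 0 * φ x ≤ max (g x - n) 0 * D :=
        mul_le_mul_of_nonneg_left (hφD x) h5
      show g x * φ x ≤ D * max (g x - n) 0 + n * φ x
      linarith
  rw [integral_add (hi1.const_mul D) (hφi.const_mul _), integral_const_mul, integral_const_mul] at h3
  have h4 : D * ∫ x, max (g x - n) 0 ∂ν ≤ D * ε := mul_le_mul_of_nonneg_left hn.le hD
  linarith

variable {H : Type*} [Group H] [TopologicalSpace H] [IsTopologicalGroup H] [LocallyCompactSpace H]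
  [SecondCountableTopology H] [T2Space H] [MeasurableSpace H] [BorelSpace H]

variable (m : Measure H) [m.IsHaarMeasure]

lemma lam_sub_sq (s : H) (f : Lp ℂ 2 m) :
    ‖lam m s f - f‖ ^ 2 = 2 * ‖f‖ ^ 2 - 2 * (⟪f, lam m s f⟫_ℂ).re := by
  have h1 := norm_sub_sq (𝕜 := ℂ) f (lam m s f)
  rw [lam_norm] at h1
  rw [norm_sub_rev, h1]
  show ‖f‖ ^ 2 - 2 * (⟪f, lam m s f⟫_ℂ).re + ‖f‖ ^ 2 = _
  ring

lemma lamF_re (ν : Measure H) [IsFiniteMeasure ν] (f : Lp ℂ 2 m) :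
    ∫ s, (⟪f, lam m s f⟫_ℂ).re ∂ν = (⟪f, lamF m ν f⟫_ℂ).re := by
  rw [lamF_inner]
  have h4 : Integrable (fun s => ⟪f, lam m s f⟫_ℂ) ν := (lam_int m ν f).const_inner f
  exact (integral_re h4)

lemma int_sq (ν : Measure H) [IsProbabilityMeasure ν] (f : Lp ℂ 2 m) :
    ∫ s, ‖lam m s f - f‖ ^ 2 ∂ν = 2 * (⟪f - lamF m ν f, f⟫_ℂ).re := by
  simp only [lam_sub_sq]
  have h3 : ∫ s, 2 * (⟪f, lam m s f⟫_ℂ).re ∂ν = 2 * (⟪f, lamF m ν f⟫_ℂ).re := by
    rw [integral_const_mul, lamF_re]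
  rw [integral_sub (integrable_const _), h3]
  · have h1 : (⟪f - lamF m ν f, f⟫_ℂ).re = ‖f‖ ^ 2 - (⟪f, lamF m ν f⟫_ℂ).re := by
      have h2 : (⟪lamF m ν f, f⟫_ℂ).re = (⟪f, lamF m ν f⟫_ℂ).re :=
        inner_re_symm (𝕜 := ℂ) (lamF m ν f) f
      rw [inner_sub_left, Complex.sub_re, h2, inner_self_eq_norm_sq_to_K]
      norm_cast
    rw [h1]
    simp
    ring
  · have h4 : Integrable (fun s => ⟪f, lam m s f⟫_ℂ) ν := (lam_int m ν f).const_inner f
    exact (h4.re).const_mul 2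

lemma form_nonneg (ν : Measure H) [IsProbabilityMeasure ν] (f : Lp ℂ 2 m) :
    0 ≤ (⟪f - lamF m ν f, f⟫_ℂ).re := by
  have h1 := int_sq m ν f
  have h2 : 0 ≤ ∫ s, ‖lam m s f - f‖ ^ 2 ∂ν := integral_nonneg fun s => sq_nonneg _
  linarith

lemma lam_sub_int (ν : Measure H) [IsFiniteMeasure ν] (f : Lp ℂ 2 m) :
    Integrable (fun s => lam m s f - f) ν := (lam_int m ν f).sub (integrable_const _)

lemma lam_sub_norm (s : H) (f : Lp ℂ 2 m) : ‖lam m s f - f‖ ≤ 2 * ‖f‖ := by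
  refine (norm_sub_le _ _).trans ?_
  rw [lam_norm]
  linarith

lemma lamF_sub_self (ν : Measure H) [IsProbabilityMeasure ν] (f : Lp ℂ 2 m) :
    lamF m ν f - f = ∫ s, (lam m s f - f) ∂ν := by
  rw [integral_sub (lam_int m ν f) (integrable_const _), lamF_apply]
  simp

lemma lamF_sub_sq (ν : Measure H) [IsProbabilityMeasure ν] (f : Lp ℂ 2 m) :
    ‖lamF m ν f - f‖ ^ 2 ≤ ∫ s, ‖lam m s f - f‖ ^ 2 ∂ν := by
  obtain ⟨c, hc⟩ : ∃ c, c = ∫ s, ‖lam m s f - f‖ ∂ν := ⟨_, rfl⟩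
  have h1 : ‖lamF m ν f - f‖ ≤ c := by
    rw [lamF_sub_self, hc]
    exact norm_integral_le_integral_norm _
  have hi1 : Integrable (fun s => ‖lam m s f - f‖) ν := (lam_sub_int m ν f).norm
  have hcont : Continuous fun s => ‖lam m s f - f‖ := ((lam_cont m f).sub continuous_const).norm
  have hi2 : Integrable (fun s => ‖lam m s f - f‖ ^ 2) ν := by
    refine Integrable.of_bound (hcont.pow 2).aestronglyMeasurable ((2 * ‖f‖) ^ 2)
      (Eventually.of_forall fun s => ?_)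
    rw [Real.norm_eq_abs, abs_of_nonneg (by positivity)]
    gcongr
    exact lam_sub_norm m s f
  have h2 : 0 ≤ ∫ s, (‖lam m s f - f‖ - c) ^ 2 ∂ν := integral_nonneg fun s => sq_nonneg _
  have h3 : ∫ s, (‖lam m s f - f‖ - c) ^ 2 ∂ν = ∫ s, ‖lam m s f - f‖ ^ 2 ∂ν - c ^ 2 := by
    have h4 : (fun s => (‖lam m s f - f‖ - c) ^ 2) =
        fun s => ‖lam m s f - f‖ ^ 2 - (2 * c) * ‖lam m s f - f‖ + c ^ 2 := by
      funext s
      ring
    have hi3 : Integrable (fun s => ‖lam m s f - f‖ ^ 2 - (2 * c) * ‖lam m s f - f‖) ν :=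
      hi2.sub (hi1.const_mul _)
    rw [h4, integral_add hi3 (integrable_const _),
      integral_sub hi2 (hi1.const_mul _), integral_const_mul, ← hc]
    simp
    ring
  have h5 : ‖lamF m ν f - f‖ ^ 2 ≤ c ^ 2 := by gcongr
  linarith

lemma form_bound (ω ν0 : Measure H) [IsProbabilityMeasure ω] [IsProbabilityMeasure ν0]
    (h : ω ≪ ν0) {ε : ℝ} (hε : 0 < ε) : ∃ C : ℝ, 0 ≤ C ∧ ∀ f : Lp ℂ 2 m,
      ‖lamF m ω f - f‖ ^ 2 ≤ ε * ‖f‖ ^ 2 + C * (⟪f - lamF m ν0 f, f⟫_ℂ).re := by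
  obtain ⟨C, hC, h1⟩ := dominate ω ν0 h (show 0 < ε / 4 by positivity)
  refine ⟨2 * C, by positivity, fun f => ?_⟩
  have hcont : Continuous fun s => ‖lam m s f - f‖ ^ 2 :=
    (((lam_cont m f).sub continuous_const).norm).pow 2
  have h2 := h1 (fun s => ‖lam m s f - f‖ ^ 2) (4 * ‖f‖ ^ 2) (by positivity) hcont.measurable
    (fun s => sq_nonneg _) (fun s => by
      have h3 := lam_sub_norm m s f
      have h4 : ‖lam m s f - f‖ ^ 2 ≤ (2 * ‖f‖) ^ 2 := by gcongr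
      linarith)
  have h3 := lamF_sub_sq m ω f
  rw [int_sq m ν0] at h2
  linarith

/-- self-adjointness for symmetric measures -/
lemma lamF_symm (ρ : Measure H) [IsFiniteMeasure ρ] (h : ρ.map Inv.inv = ρ) (f g : Lp ℂ 2 m) :
    ⟪lamF m ρ f, g⟫_ℂ = ⟪f, lamF m ρ g⟫_ℂ := by
  rw [lamF_inner m ρ g f, ← inner_conj_symm, lamF_inner m ρ f g, ← integral_conj]
  have h1 : ∀ s, (starRingEnd ℂ) ⟪g, lam m s f⟫_ℂ = ⟪f, lam m s⁻¹ g⟫_ℂ := by
    intro s
    rw [inner_conj_symm, lam_inner_left]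
  simp only [h1]
  have h2 : ∫ s, ⟪f, lam m s g⟫_ℂ ∂(ρ.map Inv.inv) = ∫ s, ⟪f, lam m s⁻¹ g⟫_ℂ ∂ρ :=
    integral_map measurable_inv.aemeasurable
      (continuous_const.inner (lam_cont m g)).aestronglyMeasurable
  rw [← h2, h]

lemma lamF_congr {μ ν : Measure H} [IsFiniteMeasure μ] [IsFiniteMeasure ν] (h : μ = ν) :
    lamF m μ = lamF m ν := by
  subst h
  rfl

/-- the first jump distribution -/
lemma exists_nu0 : ∃ ν0 : Measure H, IsProbabilityMeasure ν0 ∧ ν0 ≪ m ∧ m ≪ ν0 ∧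
    ν0.map Inv.inv = ν0 := by
  have hne : NeZero m := ⟨by
    intro h
    have h1 := (isOpen_univ (X := H)).measure_pos m ⟨1, trivial⟩
    rw [h] at h1
    simp at h1⟩
  refine ⟨sym m.toFinite, sym_prob _, sym_ac m (toFinite_absolutelyContinuous m), ?_, sym_symm _⟩
  refine (absolutelyContinuous_toFinite m).trans ?_
  intro s hs
  rw [sym, Measure.smul_apply, Measure.add_apply, smul_eq_mul, mul_eq_zero, add_eq_zero] at hs
  rcases hs with hs | hs
  · simp at hs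
  · exact hs.1

theorem partA [Nontrivial (Lp ℂ 2 m)] :
    ∃ μ : ℝ → Measure H, ∃ _ : ∀ t, IsProbabilityMeasure (μ t),
    μ 0 = Measure.dirac 1 ∧ (∀ s t, 0 ≤ s → 0 ≤ t → μ (s + t) = μ s ∗ₘ μ t) ∧
    (∀ f : H → ℝ, Continuous f → Tendsto f (cocompact H) (𝓝 0) →
      Tendsto (fun t => ∫ x, f x ∂(μ t)) (𝓝[>] 0) (𝓝 (f 1))) ∧
    (∀ t, 0 < t → μ t ≪ m) ∧
    ∀ (ω : Measure H) [IsProbabilityMeasure ω], ω ≪ m →
      Tendsto (fun t => ‖lamF m ω * lamF m (μ t) - lamF m (μ t)‖) atTop (𝓝 0) := by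
  obtain ⟨ν0, hν0p, hν0ac, hν0m, hν0s⟩ := exists_nu0 m
  obtain ⟨μ, hμp, hμ0, hμadd, hμw, hμac, r, hr, hr0, hμr⟩ := exists_semigroup2 m ν0 hν0ac hν0s
  refine ⟨μ, hμp, hμ0, hμadd, hμw, hμac, ?_⟩
  intro ω _ hω
  choose ρ hρp hρac hρs hρr using hr
  obtain ⟨B, hB⟩ : ∃ B : ℕ → LL m, B = fun k => lamF m (ρ k) := ⟨_, rfl⟩
  have hB0 : B 0 = lamF m ν0 := by
    rw [hB]
    have h1 : TT (ρ 0) = TT ν0 := by
      have h2 := hρr 0
      rw [hr0] at h2
      exact h2.symm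
    exact lamF_congr m (TT_inj h1)
  have hrel : ∀ k, Rel m (r k) (B k) := by
    intro k
    rw [hρr k, hB]
    exact Rel.of m (ρ k)
  have hR : ∀ N : ℕ, ∑ k ∈ Finset.range N, r k ∈ CC m := by
    intro N
    induction N with
    | zero => exact CC_zero m
    | succ N ih =>
      rw [Finset.sum_range_succ]
      exact CC_add m _ ih _ ⟨ρ N, inferInstance, hρac N, hρr N⟩
  have hlim : ∀ t, 0 < t → Tendsto (fun N : ℕ => xx (∑ k ∈ Finset.range N, B k) N t) atTop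
      (𝓝 (lamF m (μ t))) := by
    intro t ht
    obtain ⟨_, h1⟩ := hμr t ht
    refine Rel.lim (fun N => ?_) (Rel.of m (μ t)) h1
    exact Rel.xx (hR N) (Rel.sum hrel N) N t ht.le
  have hS : ∀ (N : ℕ) (f : Lp ℂ 2 m), (∑ k ∈ Finset.range N, B k) f =
      ∑ k ∈ Finset.range N, B k f := by
    intro N f
    simp
  have hsymm : ∀ (N : ℕ) (f g : Lp ℂ 2 m), ⟪(∑ k ∈ Finset.range N, B k) f, g⟫_ℂ =
      ⟪f, (∑ k ∈ Finset.range N, B k) g⟫_ℂ := by
    intro N f g
    rw [hS, hS, sum_inner, inner_sum]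
    apply Finset.sum_congr rfl
    intro k _
    rw [hB]
    exact lamF_symm m (ρ k) (hρs k) f g
  have hpos : ∀ (N : ℕ) (f : Lp ℂ 2 m), (⟪f - lamF m ν0 f, f⟫_ℂ).re ≤
      (⟪((N + 1 : ℕ) : ℝ) • f - (∑ k ∈ Finset.range (N + 1), B k) f, f⟫_ℂ).re := by
    intro N f
    induction N with
    | zero => simp [hB0]
    | succ N ih =>
      have h1 : ((N + 1 + 1 : ℕ) : ℝ) • f - (∑ k ∈ Finset.range (N + 1 + 1), B k) f =
          (((N + 1 : ℕ) : ℝ) • f - (∑ k ∈ Finset.range (N + 1), B k) f) + (f - B (N + 1) f) := by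
        have hc : ((N + 1 + 1 : ℕ) : ℝ) = ((N + 1 : ℕ) : ℝ) + 1 := by
          push_cast
          ring
        rw [Finset.sum_range_succ _ (N + 1), hc, add_smul, one_smul]
        show _ - ((∑ k ∈ Finset.range (N + 1), B k) f + B (N + 1) f) = _
        abel
      rw [h1, inner_add_left, Complex.add_re]
      have h2 : 0 ≤ (⟪f - B (N + 1) f, f⟫_ℂ).re := by
        rw [hB]
        exact form_nonneg m (ρ (N + 1)) f
      linarith
  have key : ∀ ε : ℝ, 0 < ε → ∃ C : ℝ, 0 ≤ C ∧ ∀ t, 0 < t → ∀ x : Lp ℂ 2 m,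
      ‖(lamF m ω * lamF m (μ t) - lamF m (μ t)) x‖ ^ 2 ≤ (ε + C / (2 * t)) * ‖x‖ ^ 2 := by
    intro ε hε
    obtain ⟨C, hC, h1⟩ := form_bound m ω ν0 (hω.trans hν0m) hε
    refine ⟨C, hC, fun t ht x => ?_⟩
    obtain ⟨y, hy⟩ : ∃ y : ℕ → Lp ℂ 2 m, y = fun N => xx (∑ k ∈ Finset.range (N + 1), B k)
      ((N + 1 : ℕ) : ℝ) t x := ⟨_, rfl⟩
    have h2 : Tendsto y atTop (𝓝 (lamF m (μ t) x)) := by
      have h3 := (hlim t ht).comp (tendsto_add_atTop_nat 1)
      have h4 := ((ContinuousLinearMap.apply ℂ (Lp ℂ 2 m) x).continuous.tendsto _).comp h3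
      rw [hy]
      exact h4
    have h3 : Tendsto (fun N => ‖lamF m ω (y N) - y N‖ ^ 2) atTop
        (𝓝 (‖lamF m ω (lamF m (μ t) x) - lamF m (μ t) x‖ ^ 2)) :=
      (((((lamF m ω).continuous.tendsto _).comp h2).sub h2).norm).pow 2
    show ‖lamF m ω (lamF m (μ t) x) - lamF m (μ t) x‖ ^ 2 ≤ _
    refine le_of_tendsto' h3 fun N => ?_
    have h4 := decay (∑ k ∈ Finset.range (N + 1), B k) ((N + 1 : ℕ) : ℝ) (hsymm (N + 1))
      (fun f => (form_nonneg m ν0 f).trans (hpos N f)) ht x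
    have h5 := h1 (y N)
    have h6 := hpos N (y N)
    have h7 : y N = xx (∑ k ∈ Finset.range (N + 1), B k) ((N + 1 : ℕ) : ℝ) t x := by rw [hy]
    rw [← h7] at h4
    have h8 : C * (⟪y N - lamF m ν0 (y N), y N⟫_ℂ).re ≤ C * (‖x‖ ^ 2 / (2 * t)) :=
      mul_le_mul_of_nonneg_left (h6.trans h4.2) hC
    have h9 : ε * ‖y N‖ ^ 2 ≤ ε * ‖x‖ ^ 2 := mul_le_mul_of_nonneg_left h4.1 hε.le
    calc ‖lamF m ω (y N) - y N‖ ^ 2 ≤ ε * ‖x‖ ^ 2 + C * (‖x‖ ^ 2 / (2 * t)) := by linarith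
      _ = _ := by ring
  rw [Metric.tendsto_atTop]
  intro η hη
  obtain ⟨C, hC, h1⟩ := key (η ^ 2 / 8) (by positivity)
  refine ⟨4 * C / η ^ 2 + 1, fun t ht => ?_⟩
  have ht0 : 0 < t := lt_of_lt_of_le (by positivity) ht
  have h2 : C / (2 * t) ≤ η ^ 2 / 8 := by
    rw [div_le_iff₀ (by positivity)]
    have h3 : 4 * C / η ^ 2 ≤ t := by linarith
    rw [div_le_iff₀ (by positivity)] at h3
    nlinarith
  have h3 : ‖lamF m ω * lamF m (μ t) - lamF m (μ t)‖ ≤ η / 2 := by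
    refine ContinuousLinearMap.opNorm_le_bound _ (by positivity) fun x => ?_
    have h4 := h1 t ht0 x
    have h5 : (η ^ 2 / 8 + C / (2 * t)) * ‖x‖ ^ 2 ≤ (η / 2 * ‖x‖) ^ 2 := by
      have h6 : (η ^ 2 / 8 + C / (2 * t)) * ‖x‖ ^ 2 ≤ (η ^ 2 / 4) * ‖x‖ ^ 2 := by
        gcongr
        linarith
      calc _ ≤ _ := h6
        _ = _ := by ring
    exact (pow_le_pow_iff_left₀ (norm_nonneg _) (by positivity) two_ne_zero).1 (h4.trans h5)
  rw [Real.dist_eq, sub_zero, abs_of_nonneg (ContinuousLinearMap.opNorm_nonneg _)]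
  linarith

/-- **Reiter's condition** `(P₂)` -/
def ReiterTwo (m : Measure H) [m.IsMulLeftInvariant] : Prop :=
  ∀ K : Set H, IsCompact K → ∀ ε : ℝ, 0 < ε →
    ∃ f : Lp ℂ 2 m, ‖f‖ = 1 ∧ ∀ s ∈ K, ‖lam m s f - f‖ ≤ ε

lemma exists_compact_prob (μ : Measure H) [IsProbabilityMeasure μ] {ε : ℝ} (hε : 0 < ε) :
    ∃ K : Set H, IsCompact K ∧ μ.real Kᶜ ≤ ε := by
  have h1 : Tendsto (fun n => μ (compactCovering H n)) atTop (𝓝 (μ (⋃ n, compactCovering H n))) :=
    tendsto_measure_iUnion_atTop (compactCovering_subset H)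
  rw [iUnion_compactCovering, measure_univ] at h1
  have h2 : Tendsto (fun n => μ.real (compactCovering H n)) atTop (𝓝 1) := by
    have h3 := (ENNReal.tendsto_toReal ENNReal.one_ne_top).comp h1
    rw [ENNReal.toReal_one] at h3
    exact h3
  obtain ⟨n, hn⟩ := (h2.eventually (lt_mem_nhds (show 1 - ε < 1 by linarith))).exists
  refine ⟨compactCovering H n, isCompact_compactCovering H n, ?_⟩
  rw [probReal_compl_eq_one_sub (isCompact_compactCovering H n).measurableSet]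
  linarith

lemma lamF_norm_eq_one (hm : ReiterTwo m) (μ : Measure H) [IsProbabilityMeasure μ] :
    ‖lamF m μ‖ = 1 := by
  apply le_antisymm (lamF_norm_le_one m μ)
  apply le_of_forall_pos_le_add
  intro ε hε
  obtain ⟨K, hK, hK1⟩ := exists_compact_prob μ (show 0 < ε / 4 by positivity)
  obtain ⟨f, hf1, hf⟩ := hm K hK (ε / 4) (by positivity)
  have h1 : ‖lamF m μ f - f‖ ≤ ε := by
    rw [lamF_sub_self]
    refine (norm_integral_le_integral_norm _).trans ?_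
    have hi1 : Integrable (fun s => ‖lam m s f - f‖) μ := (lam_sub_int m μ f).norm
    rw [← integral_add_compl hK.measurableSet hi1]
    have h2 : ∫ s in K, ‖lam m s f - f‖ ∂μ ≤ ε / 4 := by
      calc ∫ s in K, ‖lam m s f - f‖ ∂μ ≤ ∫ s in K, ε / 4 ∂μ := by
            apply setIntegral_mono_on hi1.integrableOn (integrable_const _) hK.measurableSet
            exact fun s hs => hf s hs
        _ = μ.real K * (ε / 4) := by simp
        _ ≤ 1 * (ε / 4) := by
            gcongr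
            exact measureReal_le_one
        _ = ε / 4 := one_mul _
    have h3 : ∫ s in Kᶜ, ‖lam m s f - f‖ ∂μ ≤ 2 * (ε / 4) := by
      calc ∫ s in Kᶜ, ‖lam m s f - f‖ ∂μ ≤ ∫ s in Kᶜ, 2 ∂μ := by
            apply setIntegral_mono_on hi1.integrableOn (integrable_const _) hK.measurableSet.compl
            intro s _
            have h4 := lam_sub_norm m s f
            rw [hf1] at h4
            linarith
        _ = μ.real Kᶜ * 2 := by simp
        _ ≤ (ε / 4) * 2 := by gcongr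
        _ = _ := by ring
    linarith
  have h2 : ‖lamF m μ f‖ ≤ ‖lamF m μ‖ := by
    have h3 := (lamF m μ).le_opNorm f
    rwa [hf1, mul_one] at h3
  have h3 := norm_sub_norm_le f (lamF m μ f)
  rw [norm_sub_rev, hf1] at h3
  linarith

end Pool.Agent.W5h53.CS
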