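import Pool.Agent.W5h53.CS.PD

/-!
# The semigroup of positive definite functions
-/

set_option autoImplicit false
set_option linter.unusedSectionVars false

open Set Filter Topology MeasureTheory
open scoped ENNReal InnerProductSpace

namespace Pool.Agent.W5h53.CS

variable {H : Type*} [Group H] [TopologicalSpace H] [IsTopologicalGroup H] [LocallyCompactSpace H]
  [SecondCountableTopology H] [T2Space H] [MeasurableSpace H] [BorelSpace H]

variable (m : Measure H) [m.IsHaarMeasure]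

/-- membership in the Fourier algebra -/
def InA (u : H → ℂ) : Prop :=
  ∃ f g : ℕ → Lp ℂ 2 m, Summable (fun n => ‖f n‖ * ‖g n‖) ∧
    ∀ s, HasSum (fun n => ⟪g n, lam m s (f n)⟫_ℂ) (u s)

variable {m}

lemma HasA.inA {M : ℝ} {a : H → ℂ} (ha : HasA m M a) : InA m a := by
  obtain ⟨ι, _, F, G, hF, hG, hs⟩ := ha
  have hF0 : ∑' i, ‖F i‖ₑ ^ 2 ≠ ⊤ := ne_top_of_le_ne_top ENNReal.ofReal_ne_top hF
  have hG0 : ∑' i, ‖G i‖ₑ ^ 2 ≠ ⊤ := ne_top_of_le_ne_top ENNReal.ofReal_ne_top hG
  obtain ⟨j, hj⟩ := exists_injective_nat ι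
  classical
  obtain ⟨E, hE⟩ : ∃ E : (ι → Lp ℂ 2 m) → ℕ → Lp ℂ 2 m,
      E = fun F n => if h : ∃ x : ι, j x = n then F h.choose else 0 := ⟨_, rfl⟩
  have hE1 : ∀ F i, E F (j i) = F i := by
    intro F i
    have h3 : ∃ x : ι, j x = j i := ⟨i, rfl⟩
    rw [hE]
    show (if h : ∃ x : ι, j x = j i then F h.choose else 0) = F i
    rw [dif_pos h3, hj h3.choose_spec]
  have hE2 : ∀ F, ∀ n ∉ Set.range j, E F n = 0 := by
    intro F n hn
    have h3 : ¬ ∃ x : ι, j x = n := fun h => hn h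
    rw [hE]
    show (if h : ∃ x : ι, j x = n then F h.choose else 0) = 0
    rw [dif_neg h3]
  refine ⟨E F, E G, ?_, fun s => ?_⟩
  · rw [← hj.summable_iff]
    · refine (summable_mul m hF0 hG0).congr fun i => ?_
      show ‖G i‖ * ‖F i‖ = ‖E F (j i)‖ * ‖E G (j i)‖
      rw [hE1, hE1, mul_comm]
    · intro n hn
      rw [hE2 F n hn, norm_zero, zero_mul]
  · rw [← hj.hasSum_iff]
    · refine (hs s).congr_fun fun i => ?_
      show ⟪E G (j i), lam m s (E F (j i))⟫_ℂ = _
      rw [hE1, hE1]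
    · intro n hn
      rw [hE2 F n hn, map_zero, inner_zero_right]

variable (m) in
theorem partB (hm : ReiterTwo m) : ∃ ψ : H → ℂ, Continuous ψ ∧ ψ 1 = 0 ∧ (∀ s, 0 ≤ (ψ s).re) ∧
    (∀ t : ℝ, 0 < t → InA m (fun s => Complex.exp (-(t * ψ s)))) ∧
    (∀ t : ℝ, 0 ≤ t → PD (fun s => Complex.exp (-(t * ψ s)))) ∧
    ∀ U ∈ 𝓝 (1 : H), ∃ c : ℝ, 0 < c ∧ ∀ s ∉ U, c ≤ (ψ s).re := by
  obtain ⟨v0, hv1, hv2, hv3, hv4, hv5, hv6, hv7⟩ := exists_v0 m
  obtain ⟨K⟩ : Nonempty (CompactExhaustion H) := ⟨CompactExhaustion.choice H⟩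
  obtain ⟨h, h1, h2, h3⟩ := exists_jumps hm hv1 (fun n => K n) (fun n => K.isCompact n)
  -- bounds on `1 - u_n`
  have hb : ∀ N, ∀ s ∈ K N, ∀ n, ‖1 - uu m (h n) s‖ ≤ 2 ^ (N + 1) * (1 / 2 : ℝ) ^ n := by
    intro N s hs n
    rcases le_total N n with hn | hn
    · calc ‖1 - uu m (h n) s‖ ≤ ‖lam m s (h n) - h n‖ := uu_sub m (h1 n) s
        _ ≤ (1 / 2) ^ n := h2 n s (K.subset hn hs)
        _ = 1 * (1 / 2) ^ n := (one_mul _).symm
        _ ≤ 2 ^ (N + 1) * (1 / 2 : ℝ) ^ n := by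
            gcongr
            exact one_le_pow₀ (by norm_num)
    · have h4 : ‖1 - uu m (h n) s‖ ≤ 2 := by
        refine (norm_sub_le _ _).trans ?_
        have := uu_norm m (h1 n) s
        rw [norm_one]
        linarith
      refine h4.trans ?_
      have h5 : (2 : ℝ) ^ (N + 1) * (1 / 2) ^ n = 2 ^ (N - n) * 2 := by
        obtain ⟨k, rfl⟩ := Nat.exists_eq_add_of_le hn
        rw [Nat.add_sub_cancel_left, pow_succ, pow_add, one_div, inv_pow]
        field_simp
      rw [h5]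
      have h6 : (1 : ℝ) ≤ 2 ^ (N - n) := one_le_pow₀ (by norm_num)
      linarith
  have hgeo : ∀ N : ℕ, Summable fun n : ℕ => (2 : ℝ) ^ (N + 1) * (1 / 2 : ℝ) ^ n :=
    fun N => summable_geometric_two.mul_left _
  have hsum : ∀ s, Summable fun n => 1 - uu m (h n) s := by
    intro s
    obtain ⟨N, hN⟩ := K.exists_mem s
    exact Summable.of_norm_bounded (hgeo N) (hb N s hN)
  obtain ⟨ψ, hψ⟩ : ∃ ψ : H → ℂ, ψ = fun s => (1 - v0 s) + ∑' n, (1 - uu m (h n) s) := ⟨_, rfl⟩
  have hψs : ∀ s, ψ s = (1 - v0 s) + ∑' n, (1 - uu m (h n) s) := by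
    intro s
    rw [hψ]
  have hψc : Continuous ψ := by
    rw [hψ]
    refine (continuous_const.sub hv4).add ?_
    rw [continuous_iff_continuousAt]
    intro x
    obtain ⟨N, hN⟩ := K.exists_mem_nhds x
    refine ContinuousOn.continuousAt (s := K N) ?_ hN
    exact continuousOn_tsum (fun n => (continuous_const.sub (uu_cont m (h n))).continuousOn)
      (hgeo N) (fun n s hs => hb N s hs n)
  have hψ0 : ψ 1 = 0 := by
    rw [hψs, hv5]
    simp [uu_one m (h1 _)]
  have hre : ∀ s, 1 - (v0 s).re ≤ (ψ s).re := by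
    intro s
    rw [hψs, Complex.add_re, Complex.sub_re, Complex.one_re]
    have h4 := Complex.hasSum_re (hsum s).hasSum
    have h5 : 0 ≤ (∑' n, (1 - uu m (h n) s)).re := by
      refine h4.nonneg fun n => ?_
      rw [Complex.sub_re, Complex.one_re]
      have := (Complex.re_le_norm (uu m (h n) s)).trans (uu_norm m (h1 n) s)
      linarith
    linarith
  have hre0 : ∀ s, 0 ≤ (ψ s).re := by
    intro s
    have h4 := hre s
    have h5 := hv6 s
    linarith
  -- the exponents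
  have hSS : ∀ s, Tendsto (fun n : ℕ => ((n : ℂ) + 1) - SS m v0 h n s) atTop (𝓝 (ψ s)) := by
    intro s
    have h4 := ((hsum s).hasSum.tendsto_sum_nat).const_add (1 - v0 s)
    rw [hψs]
    refine h4.congr fun n => ?_
    rw [Finset.sum_sub_distrib, SS]
    simp
    ring
  have hexp : ∀ (t : ℝ) (s : H), Tendsto (fun n : ℕ => (Real.exp (-(t * (n + 1))) : ℂ) *
      Complex.exp (t * SS m v0 h n s)) atTop (𝓝 (Complex.exp (-(t * ψ s)))) := by
    intro t s
    have h4 := (Complex.continuous_exp.tendsto _).comp (((hSS s).const_mul (t : ℂ)).neg)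
    refine h4.congr fun n => ?_
    show Complex.exp (-(t * (((n : ℂ) + 1) - SS m v0 h n s))) = _
    push_cast
    rw [← Complex.exp_add]
    congr 1
    ring
  refine ⟨ψ, hψc, hψ0, hre0, ?_, ?_, ?_⟩
  · intro t ht
    obtain ⟨C, hC⟩ : ∃ C : ℕ → ℝ, C = fun n : ℕ => t * Real.exp (t * 2) * (t * (1 / 2) ^ n) +
      t * Real.exp (-(t * (n + 1))) := ⟨_, rfl⟩
    have hC0 : ∀ n, 0 ≤ C n := by
      intro n
      rw [hC]
      positivity
    have hCs : Summable C := by
      rw [hC]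
      apply Summable.add
      · exact (summable_geometric_two.mul_left t).mul_left _
      · apply Summable.mul_left
        have h4 : (fun n : ℕ => Real.exp (-(t * ((n : ℝ) + 1)))) =
            fun n : ℕ => Real.exp (-t) * Real.exp (-t) ^ n := by
          funext n
          rw [← Real.exp_nat_mul, ← Real.exp_add]
          congr 1
          ring
        rw [h4]
        apply Summable.mul_left
        exact summable_geometric_of_lt_one (Real.exp_pos _).le (by
          rw [Real.exp_lt_one_iff]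
          linarith)
    have hD : ∀ n, HasA m (C n) (fun s => aa m v0 h t (n + 1) s - aa m v0 h t n s) := by
      intro n
      rw [hC]
      exact aa_succ hv2 h1 ht.le (by positivity) (h3 n)
    have hlim : ∀ s, Tendsto (fun n => aa m v0 h t n s) atTop (𝓝 (Complex.exp (-(t * ψ s)))) := by
      intro s
      have h4 : Tendsto (fun n : ℕ => (Real.exp (-(t * ((n : ℝ) + 1))) : ℂ)) atTop (𝓝 0) := by
        have h5 : Tendsto (fun n : ℕ => Real.exp (-(t * ((n : ℝ) + 1)))) atTop (𝓝 0) := by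
          apply Real.tendsto_exp_neg_atTop_nhds_zero.comp
          exact (tendsto_natCast_atTop_atTop.atTop_add tendsto_const_nhds).const_mul_atTop ht
        have h6 := (Complex.continuous_ofReal.tendsto 0).comp h5
        rw [Complex.ofReal_zero] at h6
        exact h6
      have h5 := (hexp t s).sub h4
      rw [sub_zero] at h5
      refine h5.congr fun n => ?_
      rw [aa]
      ring
    have hDs : ∀ s, HasSum (fun n => aa m v0 h t (n + 1) s - aa m v0 h t n s)
        (Complex.exp (-(t * ψ s)) - aa m v0 h t 0 s) := by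
      intro s
      have h4 : Summable (fun n => aa m v0 h t (n + 1) s - aa m v0 h t n s) :=
        Summable.of_norm_bounded hCs fun n => (hD n).norm_le (hC0 n) s
      rw [h4.hasSum_iff_tendsto_nat]
      have h5 := (hlim s).sub_const (aa m v0 h t 0 s)
      refine h5.congr fun n => ?_
      rw [Finset.sum_range_sub (fun n => aa m v0 h t n s)]
    have h4 : HasA m (∑' n, C n) (fun s => Complex.exp (-(t * ψ s)) - aa m v0 h t 0 s) :=
      HasA.sum hC0 hCs.hasSum hD hDs
    have h5 := HasA.add (tsum_nonneg hC0) ht.le h4 (aa_zero hv1 hv2 h ht.le)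
    exact (h5.congr fun s => by ring).inA
  · intro t ht
    refine PD.lim (φ := fun n s => (Real.exp (-(t * (n + 1))) : ℂ) *
      Complex.exp (t * SS m v0 h n s)) (fun n => ?_) (hexp t)
    refine (PD.const (Real.exp_pos _).le).mul (PD.exp ?_ ht)
    exact hv3.add (PD.sum (fun k => PD.uu m (h k)) n)
  · intro U hU
    obtain ⟨c, hc, h4⟩ := hv7 U hU
    refine ⟨c, hc, fun s hs => ?_⟩
    have h5 := hre s
    have h6 := h4 s hs
    linarith

lemma InA.bounded {u : H → ℂ} (h : InA m u) : ∃ C : ℝ, ∀ s, ‖u s‖ ≤ C := by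
  obtain ⟨f, g, hfg, hs⟩ := h
  refine ⟨∑' n, ‖f n‖ * ‖g n‖, fun s => ?_⟩
  rw [← (hs s).tsum_eq]
  refine tsum_of_norm_bounded hfg.hasSum fun n => ?_
  rw [mul_comm]
  exact coef_norm m (f n) (g n) s

lemma InA.continuous {u : H → ℂ} (h : InA m u) : Continuous u := by
  obtain ⟨f, g, hfg, hs⟩ := h
  have h1 : u = fun s => ∑' n, ⟪g n, lam m s (f n)⟫_ℂ := funext fun s => (hs s).tsum_eq.symm
  rw [h1]
  refine continuous_tsum (fun n => continuous_const.inner (lam_cont m (f n))) hfg fun n s => ?_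
  rw [mul_comm]
  exact coef_norm m (f n) (g n) s

/-- the asymptotic invariance -/
theorem asymptotic {ψ : H → ℂ} (h0 : ∀ s, 0 ≤ (ψ s).re)
    (h1 : ∀ U ∈ 𝓝 (1 : H), ∃ c : ℝ, 0 < c ∧ ∀ s ∉ U, c ≤ (ψ s).re) {ω : H → ℂ}
    (hω : Continuous ω) {C : ℝ} (hC : ∀ s, ‖ω s‖ ≤ C) (hω1 : ω 1 = 1) :
    TendstoUniformly (fun (t : ℝ) s => ω s * Complex.exp (-(t * ψ s)) - Complex.exp (-(t * ψ s)))
      (fun _ => 0) atTop := by
  rw [Metric.tendstoUniformly_iff]
  intro ε hε
  have hC0 : 0 ≤ C := (norm_nonneg _).trans (hC 1)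
  have h2 : ∀ᶠ s in 𝓝 (1 : H), ‖ω s - 1‖ < ε := by
    have h3 : Tendsto (fun s => ‖ω s - 1‖) (𝓝 1) (𝓝 ‖ω 1 - 1‖) :=
      ((hω.sub (continuous_const (y := (1 : ℂ)))).norm).tendsto 1
    simp only [hω1, sub_self, norm_zero] at h3
    exact h3.eventually (gt_mem_nhds hε)
  obtain ⟨c, hc, h3⟩ := h1 _ h2
  have h4 : Tendsto (fun t : ℝ => (C + 1) * Real.exp (-(t * c))) atTop (𝓝 ((C + 1) * 0)) := by
    apply Tendsto.const_mul
    exact Real.tendsto_exp_neg_atTop_nhds_zero.comp (tendsto_id.atTop_mul_const hc)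
  rw [mul_zero] at h4
  filter_upwards [h4.eventually (gt_mem_nhds hε), eventually_ge_atTop 0] with t ht ht0 s
  rw [dist_comm, dist_eq_norm, sub_zero, ← sub_one_mul, norm_mul, Complex.norm_exp]
  have h5 : (-(t * ψ s : ℂ)).re = -(t * (ψ s).re) := by
    rw [Complex.neg_re, Complex.re_ofReal_mul]
  rw [h5]
  by_cases hs : ‖ω s - 1‖ < ε
  · have h6 : Real.exp (-(t * (ψ s).re)) ≤ 1 := by
      rw [Real.exp_le_one_iff]
      have := mul_nonneg ht0 (h0 s)
      linarith
    calc ‖ω s - 1‖ * Real.exp (-(t * (ψ s).re)) ≤ ‖ω s - 1‖ * 1 := by gcongr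
      _ < ε := by rw [mul_one]; exact hs
  · have h6 : c ≤ (ψ s).re := h3 s hs
    have h7 : ‖ω s - 1‖ ≤ C + 1 := by
      refine (norm_sub_le _ _).trans ?_
      rw [norm_one]
      have := hC s
      linarith
    calc ‖ω s - 1‖ * Real.exp (-(t * (ψ s).re)) ≤ (C + 1) * Real.exp (-(t * c)) := by gcongr
      _ < ε := ht

end Pool.Agent.W5h53.CS
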