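import Pool.Agent.X196.CS.Semi

/-!
# The left regular representation and its integrated form
-/

set_option autoImplicit false
set_option linter.unusedSectionVars false

open MeasureTheory Filter Topology Set BoundedContinuousFunction
open scoped ENNReal InnerProductSpace

namespace Pool.Agent.W5h53.CS

variable {H : Type*} [Group H] [TopologicalSpace H] [IsTopologicalGroup H] [MeasurableSpace H]
  [BorelSpace H]

/-- left translation `(λ_s f)(x) = f(s⁻¹ x)` on `L²(H, m)` -/
noncomputable def lam (m : Measure H) [m.IsMulLeftInvariant] (s : H) :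
    Lp ℂ 2 m →ₗᵢ[ℂ] Lp ℂ 2 m :=
  Lp.compMeasurePreservingₗᵢ ℂ (fun x => s⁻¹ * x) (measurePreserving_mul_left m s⁻¹)

section
variable (m : Measure H) [m.IsMulLeftInvariant]

lemma lam_coe (s : H) (f : Lp ℂ 2 m) : lam m s f =ᵐ[m] fun x => f (s⁻¹ * x) :=
  Lp.coeFn_compMeasurePreserving f (measurePreserving_mul_left m s⁻¹)

lemma lam_norm (s : H) (f : Lp ℂ 2 m) : ‖lam m s f‖ = ‖f‖ := (lam m s).norm_map f

lemma lam_mul (s t : H) (f : Lp ℂ 2 m) : lam m (s * t) f = lam m s (lam m t f) := by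
  apply Lp.ext
  have h1 := lam_coe m (s * t) f
  have h2 := lam_coe m s (lam m t f)
  have h3 := (measurePreserving_mul_left m s⁻¹).quasiMeasurePreserving.ae (lam_coe m t f)
  filter_upwards [h1, h2, h3] with x h1 h2 h3
  rw [h1, h2, h3, mul_inv_rev, mul_assoc]

lemma lam_one (f : Lp ℂ 2 m) : lam m 1 f = f := by
  apply Lp.ext
  filter_upwards [lam_coe m 1 f] with x h1
  rw [h1, inv_one, one_mul]

lemma lam_inner (s : H) (f g : Lp ℂ 2 m) : ⟪lam m s f, lam m s g⟫_ℂ = ⟪f, g⟫_ℂ :=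
  (lam m s).inner_map_map f g

lemma lam_inner_left (s : H) (f g : Lp ℂ 2 m) : ⟪lam m s f, g⟫_ℂ = ⟪f, lam m s⁻¹ g⟫_ℂ := by
  rw [← lam_inner m s⁻¹, ← lam_mul, inv_mul_cancel, lam_one]

end

variable [LocallyCompactSpace H] [SecondCountableTopology H] [T2Space H]
  (m : Measure H) [m.IsHaarMeasure]

lemma lam_cont (f : Lp ℂ 2 m) : Continuous fun s => lam m s f := by
  have h1 : Continuous fun s : H => (⟨fun x => s⁻¹ * x, continuous_const_mul s⁻¹⟩ : C(H, H)) := by
    apply ContinuousMap.continuous_of_continuous_uncurry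
    show Continuous fun p : H × H => p.1⁻¹ * p.2
    fun_prop
  exact (continuous_const (y := f)).compMeasurePreservingLp h1
    (fun s => measurePreserving_mul_left m s⁻¹) (by norm_num)

lemma lam_int (μ : Measure H) [IsFiniteMeasure μ] (f : Lp ℂ 2 m) :
    Integrable (fun s => lam m s f) μ :=
  Integrable.of_bound (lam_cont m f).aestronglyMeasurable ‖f‖
    (Eventually.of_forall fun s => (lam_norm m s f).le)

/-- the operator `λ(μ) = ∫ λ_s dμ(s)` of a finite measure -/
noncomputable def lamF (μ : Measure H) [IsFiniteMeasure μ] : Lp ℂ 2 m →L[ℂ] Lp ℂ 2 m :=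
  LinearMap.mkContinuous
    { toFun := fun f => ∫ s, lam m s f ∂μ
      map_add' := fun f g => by
        simp only [map_add]
        exact integral_add (lam_int m μ f) (lam_int m μ g)
      map_smul' := fun c f => by
        simp only [map_smul, RingHom.id_apply]
        exact integral_smul c _ } (μ.real univ) (fun f => by
        have h1 := norm_integral_le_of_norm_le_const (μ := μ) (f := fun s => lam m s f) (C := ‖f‖)
          (Eventually.of_forall fun s => (lam_norm m s f).le)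
        rw [mul_comm]
        exact h1)

lemma lamF_apply (μ : Measure H) [IsFiniteMeasure μ] (f : Lp ℂ 2 m) :
    lamF m μ f = ∫ s, lam m s f ∂μ := rfl

lemma lamF_norm_le (μ : Measure H) [IsFiniteMeasure μ] : ‖lamF m μ‖ ≤ μ.real univ :=
  LinearMap.mkContinuous_norm_le _ (by positivity) _

lemma lamF_norm_le_one (μ : Measure H) [IsProbabilityMeasure μ] : ‖lamF m μ‖ ≤ 1 := by
  refine (lamF_norm_le m μ).trans ?_
  simp

lemma lamF_inner (μ : Measure H) [IsFiniteMeasure μ] (f g : Lp ℂ 2 m) :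
    ⟪g, lamF m μ f⟫_ℂ = ∫ s, ⟪g, lam m s f⟫_ℂ ∂μ := by
  rw [lamF_apply]
  exact (integral_inner (lam_int m μ f) g).symm

lemma lamF_mconv (μ ν : Measure H) [IsFiniteMeasure μ] [IsFiniteMeasure ν] :
    lamF m (μ ∗ₘ ν) = lamF m μ * lamF m ν := by
  ext1 f
  show lamF m (μ ∗ₘ ν) f = lamF m μ (lamF m ν f)
  rw [lamF_apply, lamF_apply m μ]
  have h0 : AEStronglyMeasurable (fun s => lam m s f) (Measure.map (fun x : H × H => x.1 * x.2)
      (μ.prod ν)) := (lam_cont m f).aestronglyMeasurable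
  have h1 : ∫ s, lam m s f ∂(μ ∗ₘ ν) = ∫ p : H × H, lam m (p.1 * p.2) f ∂(μ.prod ν) := by
    rw [Measure.mconv]
    exact integral_map (by fun_prop) h0
  rw [h1, integral_prod]
  · apply integral_congr_ae
    refine Eventually.of_forall fun s => ?_
    show ∫ t, lam m (s * t) f ∂ν = lam m s (lamF m ν f)
    rw [lamF_apply]
    simp only [lam_mul]
    exact ((lam m s).toContinuousLinearMap.integral_comp_comm (lam_int m ν f))
  · refine Integrable.of_bound ?_ ‖f‖ (Eventually.of_forall fun s => (lam_norm m _ f).le)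
    exact ((lam_cont m f).comp continuous_mul).aestronglyMeasurable

lemma lamF_add (μ ν : Measure H) [IsFiniteMeasure μ] [IsFiniteMeasure ν] :
    lamF m (μ + ν) = lamF m μ + lamF m ν := by
  ext1 f
  show lamF m (μ + ν) f = lamF m μ f + lamF m ν f
  rw [lamF_apply, lamF_apply, lamF_apply, integral_add_measure (lam_int m μ f) (lam_int m ν f)]

lemma lamF_smul (c : NNReal) (μ : Measure H) [IsFiniteMeasure μ] :
    lamF m (c • μ) = (c : ℝ) • lamF m μ := by
  ext1 f
  show lamF m (c • μ) f = (c : ℝ) • lamF m μ f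
  rw [lamF_apply, lamF_apply, integral_smul_nnreal_measure]
  rfl

lemma lamF_zero : lamF m (0 : Measure H) = 0 := by
  ext1 f
  show lamF m (0 : Measure H) f = 0
  rw [lamF_apply, integral_zero_measure]

lemma lamF_dirac : lamF m (Measure.dirac (1 : H)) = 1 := by
  ext1 f
  show lamF m (Measure.dirac (1 : H)) f = f
  rw [lamF_apply, integral_dirac, lam_one]

open Pool.Agent.X196.CS in
/-- the norm on `L²` is bounded by the total variation norm -/
lemma lamF_sub_le (μ ν : Measure H) [IsFiniteMeasure μ] [IsFiniteMeasure ν] :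
    ‖lamF m μ - lamF m ν‖ ≤ ‖TT μ - TT ν‖ := by
  refine ContinuousLinearMap.opNorm_le_bound _ (ContinuousLinearMap.opNorm_nonneg _) fun f => ?_
  set v := (lamF m μ - lamF m ν) f with hv
  by_cases hv0 : ‖v‖ = 0
  · rw [hv0]; positivity
  have hvpos : 0 < ‖v‖ := lt_of_le_of_ne (norm_nonneg _) (Ne.symm hv0)
  have hb : ∀ s, ‖(⟪v, lam m s f⟫_ℂ).re‖ ≤ ‖v‖ * ‖f‖ := by
    intro s
    refine (Complex.abs_re_le_norm _).trans ?_
    refine (norm_inner_le_norm _ _).trans ?_
    rw [lam_norm]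
  have hcont : Continuous fun s => (⟪v, lam m s f⟫_ℂ).re :=
    Complex.continuous_re.comp (continuous_const.inner (lam_cont m f))
  let F : H →ᵇ ℝ := BoundedContinuousFunction.ofNormedAddCommGroup _ hcont _ hb
  have hF : ‖F‖ ≤ ‖v‖ * ‖f‖ := norm_ofNormedAddCommGroup_le _ (by positivity) hb
  have h1 : (TT μ - TT ν) F 1 = ‖v‖ ^ 2 := by
    have h2 : (TT μ - TT ν) F 1 = TT μ F 1 - TT ν F 1 := rfl
    have h3 : ∀ (ρ : Measure H) [IsFiniteMeasure ρ], TT ρ F 1 = (⟪v, lamF m ρ f⟫_ℂ).re := by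
      intro ρ _
      rw [TT_apply, lamF_inner]
      simp only [one_mul]
      have h4 : Integrable (fun s => ⟪v, lam m s f⟫_ℂ) ρ := (lam_int m ρ f).const_inner v
      exact (integral_re h4)
    rw [h2, h3, h3, ← Complex.sub_re, ← inner_sub_right]
    have h5 : lamF m μ f - lamF m ν f = v := rfl
    rw [h5, inner_self_eq_norm_sq_to_K]
    norm_cast
  have h2 : ‖v‖ ^ 2 ≤ ‖TT μ - TT ν‖ * (‖v‖ * ‖f‖) := by
    rw [← h1]
    calc (TT μ - TT ν) F 1 ≤ ‖(TT μ - TT ν) F 1‖ := Real.le_norm_self _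
      _ ≤ ‖(TT μ - TT ν) F‖ := ((TT μ - TT ν) F).norm_coe_le_norm 1
      _ ≤ ‖TT μ - TT ν‖ * ‖F‖ := ContinuousLinearMap.le_opNorm _ _
      _ ≤ _ := by gcongr
  have h3 : ‖v‖ * ‖v‖ ≤ (‖TT μ - TT ν‖ * ‖f‖) * ‖v‖ := by nlinarith
  exact le_of_mul_le_mul_right h3 hvpos

end Pool.Agent.W5h53.CS
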