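import Pool.Agent.W5h53.CS.Rep
import Pool.Agent.W5h53.CS.Rec2

/-!
# Absolutely continuous semigroups with symmetric jumps and a prescribed first jump distribution
-/

set_option autoImplicit false
set_option linter.unusedSectionVars false

open Set Filter Topology MeasureTheory BoundedContinuousFunction NormedSpace
open scoped ZeroAtInfty ENNReal

namespace Pool.Agent.W5h53.CS

open Pool.Agent.X196.CS

variable {H : Type*} [Group H] [TopologicalSpace H] [IsTopologicalGroup H] [LocallyCompactSpace H]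
  [SecondCountableTopology H] [T2Space H] [MeasurableSpace H] [BorelSpace H]

/-- symmetrisation of a measure -/
noncomputable def sym (ρ : Measure H) : Measure H := (2⁻¹ : ℝ≥0∞) • (ρ + ρ.map Inv.inv)

lemma TA_congr {μ ν : Measure H} [IsFiniteMeasure μ] [IsFiniteMeasure ν] (h : μ = ν) :
    TA μ = TA ν := by
  subst h
  rfl

lemma sym_symm (ρ : Measure H) : (sym ρ).map Inv.inv = sym ρ := by
  rw [sym, Measure.map_smul, Measure.map_add _ _ measurable_inv,
    Measure.map_map measurable_inv measurable_inv]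
  have h1 : (Inv.inv ∘ Inv.inv : H → H) = id := by
    funext x
    simp
  rw [h1, Measure.map_id, add_comm]

lemma sym_prob (ρ : Measure H) [IsProbabilityMeasure ρ] : IsProbabilityMeasure (sym ρ) := by
  have h1 : IsProbabilityMeasure (ρ.map Inv.inv) :=
    Measure.isProbabilityMeasure_map measurable_inv.aemeasurable
  refine ⟨?_⟩
  rw [sym, Measure.smul_apply, Measure.add_apply, measure_univ, measure_univ, smul_eq_mul]
  rw [one_add_one_eq_two]
  exact ENNReal.inv_mul_cancel (by norm_num) (by norm_num)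

lemma sym_ac (m : Measure H) [m.IsHaarMeasure] {ρ : Measure H} (hρ : ρ ≪ m) : sym ρ ≪ m := by
  unfold sym
  exact (Measure.AbsolutelyContinuous.add_left hρ (inv_ac m hρ)).smul_left _

variable (m : Measure H) [m.IsHaarMeasure]

lemma exists_near_symm {V : Set H} (hV : V ∈ 𝓝 (1 : H)) :
    ∃ ρ : Measure H, IsProbabilityMeasure ρ ∧ ρ ≪ m ∧ ρ.map Inv.inv = ρ ∧ ρ Vᶜ = 0 := by
  have hV' : V⁻¹ ∈ 𝓝 (1 : H) := by
    have := inv_mem_nhds_one H hV
    exact this
  obtain ⟨ρ, h1, h2, h3⟩ := exists_near m (inter_mem hV hV')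
  refine ⟨sym ρ, sym_prob ρ, sym_ac m h2, sym_symm ρ, ?_⟩
  have h4 : ρ Vᶜ = 0 := measure_mono_null (by intro x hx h; exact hx h.1) h3
  have h5 : ρ.map Inv.inv Vᶜ = 0 := by
    have h6 : ρ.map (MeasurableEquiv.inv H) Vᶜ = 0 := by
      rw [MeasurableEquiv.map_apply]
      refine measure_mono_null ?_ h3
      intro x hx h
      exact hx (by simpa using h.2)
    exact h6
  rw [sym, Measure.smul_apply, Measure.add_apply, h4, h5]
  simp

/-- the operators of symmetric absolutely continuous probability measures -/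
def PS : Set (Alg H) :=
  {A | ∃ (μ : Measure H) (_ : IsProbabilityMeasure μ), μ ≪ m ∧ μ.map Inv.inv = μ ∧ A = TA μ}

lemma PS_CC : PS m ⊆ CC m := by
  rintro A ⟨μ, _, h1, _, h2⟩
  exact ⟨μ, inferInstance, h1, h2⟩

theorem exists_semigroup2 (ν0 : Measure H) [IsProbabilityMeasure ν0] (hν0ac : ν0 ≪ m)
    (hν0s : ν0.map Inv.inv = ν0) : ∃ μ : ℝ → Measure H, (∀ t, IsProbabilityMeasure (μ t)) ∧
    μ 0 = Measure.dirac 1 ∧ (∀ s t, 0 ≤ s → 0 ≤ t → μ (s + t) = μ s ∗ₘ μ t) ∧
    (∀ f : H → ℝ, Continuous f → Tendsto f (cocompact H) (𝓝 0) →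
      Tendsto (fun t => ∫ x, f x ∂(μ t)) (𝓝[>] 0) (𝓝 (f 1))) ∧
    (∀ t, 0 < t → μ t ≪ m) ∧ ∃ r : ℕ → Alg H, (∀ k, r k ∈ PS m) ∧ r 0 = TA ν0 ∧
      ∀ t, 0 < t → ∃ _ : IsFiniteMeasure (μ t),
        Tendsto (fun N : ℕ => xx (∑ k ∈ Finset.range N, r k) N t) atTop (𝓝 (TA (μ t))) := by
  classical
  obtain ⟨V, hV⟩ := (𝓝 (1 : H)).exists_antitone_basis
  have hVn : ∀ n, V n ∈ 𝓝 (1 : H) := fun n => hV.1.mem_of_mem trivial
  choose κ hκp hκac hκV using fun n => exists_near m (hVn n)
  have habs : ∀ Q : Finset (Alg H), (∀ q ∈ Q, q ∈ CC m) → ∀ ε : ℝ, 0 < ε →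
      ∃ p ∈ PS m, ∀ q ∈ Q, ‖p * q - q‖ ≤ ε ∧ ‖q * p - q‖ ≤ ε := by
    intro Q hQ ε hε
    have h1 : ∀ᶠ W in (𝓝 (1 : H)).smallSets, ∀ q ∈ Q, ∀ (ρ : Measure H) [IsProbabilityMeasure ρ],
        ρ Wᶜ = 0 → ‖TA ρ * q - q‖ ≤ ε ∧ ‖q * TA ρ - q‖ ≤ ε := by
      rw [Filter.eventually_all_finset]
      intro q hq
      obtain ⟨μ, _, hμ, rfl⟩ := hQ q hq
      exact absorb m hμ hε
    obtain ⟨W, hW, h2⟩ := (eventually_smallSets.1 h1)
    obtain ⟨ρ, hρp, hρac, hρs, hρW⟩ := exists_near_symm m hW
    exact ⟨TA ρ, ⟨ρ, hρp, hρac, hρs, rfl⟩, fun q hq => h2 W subset_rfl q hq ρ hρW⟩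
  obtain ⟨r, x, hr, hr0, hx, hq⟩ := Pool.Agent.W5h53.CS.abs_main (CC m) (PS m) (PS_CC m)
    (CC_add m) (CC_zero m)
    (by
      rintro p ⟨μ, _, _, _, rfl⟩
      exact TT_norm_le_one μ) habs (fun M => TA (κ M)) (fun M => ⟨κ M, inferInstance, hκac M, rfl⟩)
      (TA ν0) ⟨ν0, inferInstance, hν0ac, hν0s, rfl⟩
  -- the sums of jumps
  have hR : ∀ N : ℕ, ∑ k ∈ Finset.range N, r k ∈ CC m := by
    intro N
    induction N with
    | zero => exact CC_zero m
    | succ N ih =>
      rw [Finset.sum_range_succ]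
      exact CC_add m _ ih _ (PS_CC m (hr N))
  have hR1 : ∀ N : ℕ, app (∑ k ∈ Finset.range N, r k) (const H 1) = (N : ℝ) • const H 1 := by
    intro N
    induction N with
    | zero => simp [app_zero]
    | succ N ih =>
      obtain ⟨μ, _, _, _, h⟩ := hr N
      have h1 : app (r N) (const H 1) = const H 1 := by
        rw [h]
        exact TT_one μ
      rw [Finset.sum_range_succ, app_add, ih, h1]
      push_cast
      rw [add_smul, one_smul]
  have hRn : ∀ N : ℕ, ‖∑ k ∈ Finset.range N, r k‖ ≤ N := by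
    intro N
    refine (norm_sum_le _ _).trans ?_
    have h1 : ∀ k ∈ Finset.range N, ‖r k‖ ≤ 1 := by
      intro k _
      obtain ⟨μ, _, _, _, h⟩ := hr k
      rw [h]
      exact TT_norm_le_one μ
    refine (Finset.sum_le_sum h1).trans ?_
    simp
  -- the limits are in the cone
  have hxC : ∀ t : ℝ, 0 < t → x t ∈ CC m := by
    intro t ht
    have h1 : Tendsto (fun N : ℕ => xx (∑ k ∈ Finset.range N, r k) N t -
        Real.exp (-(t * N)) • (1 : Alg H)) atTop (𝓝 (x t - (0 : ℝ) • (1 : Alg H))) := by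
      apply (hx t ht).sub
      apply Tendsto.smul_const
      have h2 : Tendsto (fun N : ℕ => t * (N : ℝ)) atTop atTop :=
        tendsto_natCast_atTop_atTop.const_mul_atTop ht
      exact Real.tendsto_exp_neg_atTop_nhds_zero.comp h2
    rw [zero_smul, sub_zero] at h1
    refine CC_closed m _ (fun N => ?_) _ h1
    rw [xx_eq, ← smul_sub]
    exact CC_smul m (Real.exp_pos _).le _ (exp_mem m (hR N) ht.le)
  have hx1 : ∀ t : ℝ, 0 < t → app (x t) (const H 1) = const H 1 := by
    intro t ht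
    have h1 := app_tendsto (hx t ht) (const H (1 : ℝ))
    have h2 : (fun N : ℕ => app (xx (∑ k ∈ Finset.range N, r k) N t) (const H (1 : ℝ))) =
        fun _ => const H (1 : ℝ) := by
      funext N
      apply exp_apply_of_zero
      rw [app_smul, app_sub, app_smul, hR1, app_one, sub_self, smul_zero]
    rw [h2] at h1
    exact tendsto_nhds_unique h1 tendsto_const_nhds
  choose! μ hμfin hμac hμT using hxC
  have hμp : ∀ t : ℝ, 0 < t → IsProbabilityMeasure (μ t) := by
    intro t ht
    have := hμfin t ht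
    have h1 := hx1 t ht
    rw [hμT t ht] at h1
    have h2 : app (TA (μ t)) (const H 1) 1 = const H (1 : ℝ) 1 := by rw [h1]
    rw [TA_apply] at h2
    simp only [const_apply, integral_const, smul_eq_mul, mul_one] at h2
    refine ⟨?_⟩
    rw [measureReal_def] at h2
    rw [← ENNReal.ofReal_toReal (measure_ne_top (μ t) univ), h2, ENNReal.ofReal_one]
  -- the semigroup
  let ν : ℝ → Measure H := fun t => if 0 < t then μ t else Measure.dirac 1
  have hνp : ∀ t, IsProbabilityMeasure (ν t) := by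
    intro t
    by_cases ht : 0 < t
    · have := hμp t ht
      simp only [ν, if_pos ht]
      exact this
    · simp only [ν, if_neg ht]
      infer_instance
  have hν : ∀ t, 0 < t → ν t = μ t := fun t ht => if_pos ht
  have hν0 : ν 0 = Measure.dirac 1 := if_neg (lt_irrefl 0)
  refine ⟨ν, hνp, hν0, ?_, ?_, ?_, r, hr, hr0, ?_⟩
  · intro s t hs ht
    rcases hs.eq_or_lt with rfl | hs
    · rw [zero_add, hν0, Measure.dirac_one_mconv]
    · rcases ht.eq_or_lt with rfl | ht
      · rw [add_zero, hν0, Measure.mconv_dirac_one]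
      · have := hμfin s hs
        have := hμfin t ht
        have := hμfin (s + t) (by linarith)
        rw [hν s hs, hν t ht, hν (s + t) (by linarith)]
        apply TT_inj
        rw [TT_mconv]
        have h1 : x (s + t) = x s * x t := by
          refine tendsto_nhds_unique (hx (s + t) (by linarith)) ?_
          have h2 := (hx s hs).mul (hx t ht)
          refine h2.congr fun N => ?_
          rw [xx_add]
        rw [hμT s hs, hμT t ht, hμT (s + t) (by linarith)] at h1
        exact h1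
  · intro f hf hf0
    -- a bounded continuous function
    obtain ⟨C, hC⟩ : ∃ C, ∀ u, ‖f u‖ ≤ C := by
      let f0 : C₀(H, ℝ) := ⟨⟨f, hf⟩, hf0⟩
      exact ⟨‖f0.toBCF‖, fun u => f0.toBCF.norm_coe_le_norm u⟩
    let F : H →ᵇ ℝ := BoundedContinuousFunction.ofNormedAddCommGroup f hf C hC
    rw [Metric.tendsto_nhds]
    intro η hη
    have h1 := unif hf hf0 (show 0 < η / 4 by positivity)
    obtain ⟨M, hM⟩ := hV.1.mem_iff.1 h1
    have hM' : V M ⊆ {v | ∀ s : H, |f (s * v) - f s| ≤ η / 4} := hM.2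
    have hκF : ‖app (TA (κ M)) F - F‖ ≤ η / 4 := by
      rw [norm_le (by positivity)]
      intro s
      show ‖∫ v, f (s * v) ∂(κ M) - f s‖ ≤ _
      have h2 : ∫ v, f (s * v) ∂(κ M) - f s = ∫ v, (f (s * v) - f s) ∂(κ M) := by
        have h3 : Integrable (fun v => f (s * v)) (κ M) := int_tr (κ M) F s
        rw [integral_sub h3 (integrable_const _)]
        simp
      rw [h2, Real.norm_eq_abs]
      exact int_conc (hκV M) fun v hv => hM' hv s
    have h3 := app_tendsto (hq M) F
    rw [Metric.tendsto_nhds] at h3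
    filter_upwards [h3 (η / 4) (by positivity), self_mem_nhdsWithin] with t h4 ht
    have ht' : 0 < t := ht
    have hxn : ‖x t‖ ≤ 1 :=
      le_of_tendsto (hx t ht').norm (Eventually.of_forall fun N => xx_norm_le (hRn N) ht'.le)
    rw [dist_eq_norm] at h4
    have := hμfin t ht'
    have h5 : ∫ x, f x ∂(ν t) = app (x t) F 1 := by
      rw [hν t ht', hμT t ht', TA_apply]
      simp only [one_mul]
      rfl
    rw [h5, Real.dist_eq]
    have h6 : |app (x t) F 1 - app (x t) (app (TA (κ M)) F) 1| ≤ η / 4 := by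
      rw [← Real.norm_eq_abs]
      calc ‖app (x t) F 1 - app (x t) (app (TA (κ M)) F) 1‖ ≤
          ‖app (x t) F - app (x t) (app (TA (κ M)) F)‖ :=
            (app (x t) F - app (x t) (app (TA (κ M)) F)).norm_coe_le_norm 1
        _ = ‖app (x t) (F - app (TA (κ M)) F)‖ := by rw [app_vsub]
        _ ≤ ‖x t‖ * ‖F - app (TA (κ M)) F‖ := app_norm _ _
        _ ≤ 1 * (η / 4) := by
          gcongr
          rw [norm_sub_rev]
          exact hκF
        _ = η / 4 := one_mul _
    have h7 : |app (x t) (app (TA (κ M)) F) 1 - app (TA (κ M)) F 1| < η / 4 := by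
      rw [← Real.norm_eq_abs]
      rw [app_mul] at h4
      exact lt_of_le_of_lt ((app (x t) (app (TA (κ M)) F) - app (TA (κ M)) F).norm_coe_le_norm 1) h4
    have h8 : |app (TA (κ M)) F 1 - f 1| ≤ η / 4 := by
      rw [← Real.norm_eq_abs]
      exact ((app (TA (κ M)) F - F).norm_coe_le_norm 1).trans hκF
    have h9 := abs_sub_le (app (x t) F 1) (app (x t) (app (TA (κ M)) F) 1) (f 1)
    have h10 := abs_sub_le (app (x t) (app (TA (κ M)) F) 1) (app (TA (κ M)) F 1) (f 1)
    linarith
  · intro t ht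
    rw [hν t ht]
    exact hμac t ht
  · intro t ht
    have h1 : ν t = μ t := hν t ht
    have := hμfin t ht
    have h4 : IsFiniteMeasure (ν t) := by rw [h1]; infer_instance
    refine ⟨h4, ?_⟩
    have h2 := hx t ht
    rw [hμT t ht] at h2
    have h3 : TA (ν t) = TA (μ t) := TA_congr h1
    rw [h3]
    exact h2

end Pool.Agent.W5h53.CS
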