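import Pool.Agent.W5h53.CS.Semi2

/-!
# Transfer of the limits to the left regular representation
-/

set_option autoImplicit false
set_option linter.unusedSectionVars false

open Set Filter Topology MeasureTheory BoundedContinuousFunction NormedSpace
open scoped ZeroAtInfty ENNReal InnerProductSpace

namespace Pool.Agent.W5h53.CS

open Pool.Agent.X196.CS

variable {H : Type*} [Group H] [TopologicalSpace H] [IsTopologicalGroup H] [LocallyCompactSpace H]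
  [SecondCountableTopology H] [T2Space H] [MeasurableSpace H] [BorelSpace H]

lemma TA_add (μ ν : Measure H) [IsFiniteMeasure μ] [IsFiniteMeasure ν] :
    TA (μ + ν) = TA μ + TA ν := TT_add μ ν

lemma TA_mul (μ ν : Measure H) [IsFiniteMeasure μ] [IsFiniteMeasure ν] :
    TA (μ ∗ₘ ν) = TA μ * TA ν := TT_mconv μ ν

lemma TA_smul (c : NNReal) (μ : Measure H) [IsFiniteMeasure μ] :
    TA (c • μ) = (c : ℝ) • TA μ := TT_smul c μ

lemma TA_zero : TA (0 : Measure H) = 0 := TT_zero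

lemma TA_dirac : TA (Measure.dirac (1 : H)) = 1 := TT_dirac

variable (m : Measure H) [m.IsHaarMeasure]

/-- the operators on `L²` -/
abbrev LL (m : Measure H) := Lp ℂ 2 m →L[ℂ] Lp ℂ 2 m

/-- `A` and `B` come from the same difference of finite measures -/
def Rel (A : Alg H) (B : LL m) : Prop :=
  ∃ (μ ν : Measure H) (_ : IsFiniteMeasure μ) (_ : IsFiniteMeasure ν),
    A = TA μ - TA ν ∧ B = lamF m μ - lamF m ν

lemma Rel.of (μ : Measure H) [IsFiniteMeasure μ] : Rel m (TA μ) (lamF m μ) :=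
  ⟨μ, 0, inferInstance, inferInstance, by rw [TA_zero, sub_zero], by rw [lamF_zero, sub_zero]⟩

lemma Rel.one : Rel m (1 : Alg H) 1 := by
  have h := Rel.of m (Measure.dirac (1 : H))
  rwa [TA_dirac, lamF_dirac] at h

variable {m}

lemma Rel.add {A C : Alg H} {B D : LL m} (h1 : Rel m A B) (h2 : Rel m C D) :
    Rel m (A + C) (B + D) := by
  obtain ⟨μ1, ν1, _, _, rfl, rfl⟩ := h1
  obtain ⟨μ2, ν2, _, _, rfl, rfl⟩ := h2
  refine ⟨μ1 + μ2, ν1 + ν2, inferInstance, inferInstance, ?_, ?_⟩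
  · rw [TA_add, TA_add]; abel
  · rw [lamF_add, lamF_add]; abel

lemma Rel.neg {A : Alg H} {B : LL m} (h1 : Rel m A B) : Rel m (-A) (-B) := by
  obtain ⟨μ1, ν1, _, _, rfl, rfl⟩ := h1
  refine ⟨ν1, μ1, inferInstance, inferInstance, ?_, ?_⟩
  · abel
  · abel

lemma Rel.sub {A C : Alg H} {B D : LL m} (h1 : Rel m A B) (h2 : Rel m C D) :
    Rel m (A - C) (B - D) := by
  rw [sub_eq_add_neg, sub_eq_add_neg]
  exact h1.add h2.neg

lemma Rel.mul {A C : Alg H} {B D : LL m} (h1 : Rel m A B) (h2 : Rel m C D) :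
    Rel m (A * C) (B * D) := by
  obtain ⟨μ1, ν1, _, _, rfl, rfl⟩ := h1
  obtain ⟨μ2, ν2, _, _, rfl, rfl⟩ := h2
  refine ⟨(μ1 ∗ₘ μ2) + (ν1 ∗ₘ ν2), (μ1 ∗ₘ ν2) + (ν1 ∗ₘ μ2), inferInstance, inferInstance, ?_, ?_⟩
  · rw [TA_add, TA_add, TA_mul, TA_mul, TA_mul, TA_mul, sub_mul, mul_sub, mul_sub]; abel
  · rw [lamF_add, lamF_add, lamF_mconv, lamF_mconv, lamF_mconv, lamF_mconv, sub_mul, mul_sub,
      mul_sub]; abel

lemma Rel.smul_nonneg {A : Alg H} {B : LL m} (h1 : Rel m A B) {c : ℝ} (hc : 0 ≤ c) :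
    Rel m (c • A) (c • B) := by
  obtain ⟨μ1, ν1, _, _, rfl, rfl⟩ := h1
  refine ⟨c.toNNReal • μ1, c.toNNReal • ν1, inferInstance, inferInstance, ?_, ?_⟩
  · rw [TA_smul, TA_smul, Real.coe_toNNReal c hc, smul_sub]
  · rw [lamF_smul, lamF_smul, Real.coe_toNNReal c hc, smul_sub]

lemma Rel.smul {A : Alg H} {B : LL m} (h1 : Rel m A B) (c : ℝ) : Rel m (c • A) (c • B) := by
  rcases le_total 0 c with hc | hc
  · exact h1.smul_nonneg hc
  · have h2 := (h1.smul_nonneg (neg_nonneg.2 hc)).neg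
    rw [neg_smul, neg_neg, neg_smul, neg_neg] at h2
    exact h2

lemma Rel.pow {A : Alg H} {B : LL m} (h1 : Rel m A B) (n : ℕ) : Rel m (A ^ n) (B ^ n) := by
  induction n with
  | zero => rw [pow_zero, pow_zero]; exact Rel.one m
  | succ n ih => rw [pow_succ, pow_succ]; exact ih.mul h1

lemma Rel.sum {A : ℕ → Alg H} {B : ℕ → LL m} (h1 : ∀ k, Rel m (A k) (B k)) (n : ℕ) :
    Rel m (∑ k ∈ Finset.range n, A k) (∑ k ∈ Finset.range n, B k) := by
  induction n with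
  | zero =>
    rw [Finset.sum_range_zero, Finset.sum_range_zero]
    have h := (Rel.one m).sub (Rel.one m)
    rwa [sub_self, sub_self] at h
  | succ n ih => rw [Finset.sum_range_succ, Finset.sum_range_succ]; exact ih.add (h1 n)

lemma Rel.norm {A : Alg H} {B : LL m} (h1 : Rel m A B) : ‖B‖ ≤ ‖A‖ := by
  obtain ⟨μ1, ν1, _, _, rfl, rfl⟩ := h1
  exact lamF_sub_le m μ1 ν1

lemma Rel.exp [Nontrivial (Lp ℂ 2 m)] {A : Alg H} {B D : LL m} (h1 : Rel m A B)
    (h2 : Rel m (NormedSpace.exp A) D) : D = NormedSpace.exp B := by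
  have hA : HasSum (fun n : ℕ => ((n.factorial : ℝ))⁻¹ • A ^ n) (NormedSpace.exp A) :=
    exp_series_hasSum_exp' (𝕂 := ℝ) A
  have hB : HasSum (fun n : ℕ => ((n.factorial : ℝ))⁻¹ • B ^ n) (NormedSpace.exp B) :=
    exp_series_hasSum_exp' (𝕂 := ℝ) B
  have h3 := hA.tendsto_sum_nat
  have h4 := hB.tendsto_sum_nat
  refine tendsto_nhds_unique ?_ h4
  rw [tendsto_iff_norm_sub_tendsto_zero] at h3 ⊢
  refine squeeze_zero (fun _ => norm_nonneg _) (fun n => ?_) h3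
  have h5 : Rel m (∑ i ∈ Finset.range n, ((i.factorial : ℝ))⁻¹ • A ^ i)
      (∑ i ∈ Finset.range n, ((i.factorial : ℝ))⁻¹ • B ^ i) :=
    Rel.sum (fun k => (h1.pow k).smul _) n
  exact (h5.sub h2).norm

lemma Rel.lim {A : ℕ → Alg H} {B : ℕ → LL m} {E : Alg H} {F : LL m}
    (hR : ∀ N, Rel m (A N) (B N)) (hE : Rel m E F) (h : Tendsto A atTop (𝓝 E)) :
    Tendsto B atTop (𝓝 F) := by
  rw [tendsto_iff_norm_sub_tendsto_zero] at h ⊢
  exact squeeze_zero (fun _ => norm_nonneg _) (fun n => ((hR n).sub hE).norm) h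

/-- the exponentials on `L²` -/
lemma Rel.xx [Nontrivial (Lp ℂ 2 m)] {R : Alg H} {B : LL m} (hR : R ∈ CC m) (h1 : Rel m R B)
    (N t : ℝ) (ht : 0 ≤ t) : Rel m (xx R N t) (xx B N t) := by
  obtain ⟨σ, _, hσ, h2⟩ := exp_mem m hR ht
  have h3 : Rel m (NormedSpace.exp (t • R)) (lamF m σ + 1) := by
    have h4 := (Rel.of m σ).add (Rel.one m)
    rw [← h2, sub_add_cancel] at h4
    exact h4
  have h5 := h3.smul (Real.exp (-(t * N)))
  rw [← xx_eq] at h5
  have h6 : Rel m (t • (R - N • (1 : Alg H))) (t • (B - N • (1 : LL m))) :=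
    (h1.sub ((Rel.one m).smul N)).smul t
  have h7 := h6.exp h5
  rw [h7] at h5
  exact h5

/-! ### decay -/

lemma decay {E : Type*} [NormedAddCommGroup E] [InnerProductSpace ℂ E] [CompleteSpace E]
    [Nontrivial E] (R : E →L[ℂ] E) (N : ℝ) (hs : ∀ f g, ⟪R f, g⟫_ℂ = ⟪f, R g⟫_ℂ)
    (hp : ∀ f, 0 ≤ (⟪N • f - R f, f⟫_ℂ).re) {t : ℝ} (ht : 0 < t) (x : E) :
    ‖xx R N t x‖ ^ 2 ≤ ‖x‖ ^ 2 ∧
    (⟪N • xx R N t x - R (xx R N t x), xx R N t x⟫_ℂ).re ≤ ‖x‖ ^ 2 / (2 * t) := by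
  obtain ⟨y, hy⟩ : ∃ y : ℝ → E, y = fun u => xx R N u x := ⟨_, rfl⟩
  obtain ⟨A, hA⟩ : ∃ A : E →L[ℂ] E, A = N • (1 : E →L[ℂ] E) - R := ⟨_, rfl⟩
  have hAf : ∀ f, A f = N • f - R f := by
    intro f
    rw [hA]
    rfl
  have hAs : ∀ f g, ⟪A f, g⟫_ℂ = ⟪f, A g⟫_ℂ := by
    intro f g
    have h1 : ∀ f : E, N • f = (N : ℂ) • f := fun f => rfl
    rw [hAf, hAf, inner_sub_left, inner_sub_right, hs, h1, h1, inner_smul_left, inner_smul_right,
      Complex.conj_ofReal]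
  have hder : ∀ u, HasDerivAt y (-(A (y u))) u := by
    intro u
    have h := xx_hasDeriv R N u
    have h2 := (((ContinuousLinearMap.apply ℂ E x).restrictScalars ℝ).hasFDerivAt).comp_hasDerivAt
      u h
    have h3 : -(A (y u)) = ((R - N • (1 : E →L[ℂ] E)) * xx R N u) x := by
      rw [hA, hy]
      show -((N • (1 : E →L[ℂ] E) - R) (xx R N u x)) = (R - N • (1 : E →L[ℂ] E)) (xx R N u x)
      rw [_root_.sub_apply, _root_.sub_apply, neg_sub]
    rw [h3, hy]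
    exact h2
  have hg : ∀ u, HasDerivAt (fun v => ‖y v‖ ^ 2) (-(2 * (⟪A (y u), y u⟫_ℂ).re)) u := by
    intro u
    have h1 := (hder u).inner ℂ (hder u)
    have h2 := (Complex.reCLM.hasFDerivAt).comp_hasDerivAt u h1
    have h3 : (fun v => ‖y v‖ ^ 2) = Complex.reCLM ∘ fun v => ⟪y v, y v⟫_ℂ := by
      funext v
      show _ = (⟪y v, y v⟫_ℂ).re
      rw [inner_self_eq_norm_sq_to_K]
      norm_cast
    rw [h3]
    have h5 : Complex.reCLM (⟪y u, -(A (y u))⟫_ℂ + ⟪-(A (y u)), y u⟫_ℂ) =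
        -(2 * (⟪A (y u), y u⟫_ℂ).re) := by
      show (⟪y u, -(A (y u))⟫_ℂ + ⟪-(A (y u)), y u⟫_ℂ).re = _
      rw [inner_neg_right, inner_neg_left, ← hAs, Complex.add_re, Complex.neg_re]
      ring
    rw [h5] at h2
    exact h2
  have hh : ∀ u, HasDerivAt (fun v => (⟪A (y v), y v⟫_ℂ).re) (-(2 * ‖A (y u)‖ ^ 2)) u := by
    intro u
    have h0 : HasDerivAt (fun v => A (y v)) (A (-(A (y u)))) u :=
      ((A.restrictScalars ℝ).hasFDerivAt).comp_hasDerivAt u (hder u)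
    have h1 := h0.inner ℂ (hder u)
    have h2 := (Complex.reCLM.hasFDerivAt).comp_hasDerivAt u h1
    have h5 : Complex.reCLM (⟪A (y u), -(A (y u))⟫_ℂ + ⟪A (-(A (y u))), y u⟫_ℂ) =
        -(2 * ‖A (y u)‖ ^ 2) := by
      show (⟪A (y u), -(A (y u))⟫_ℂ + ⟪A (-(A (y u))), y u⟫_ℂ).re = _
      rw [hAs (-(A (y u))) (y u), inner_neg_right, inner_neg_left, inner_self_eq_norm_sq_to_K]
      have h4 : (-((‖A (y u)‖ : ℂ)) ^ 2 + -((‖A (y u)‖ : ℂ)) ^ 2).re = -(2 * ‖A (y u)‖ ^ 2) := by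
        norm_cast
        ring
      exact h4
    rw [h5] at h2
    exact h2
  have hanti : AntitoneOn (fun v => (⟪A (y v), y v⟫_ℂ).re) univ := by
    apply antitoneOn_of_deriv_nonpos convex_univ
    · exact fun u _ => (hh u).continuousAt.continuousWithinAt
    · exact fun u _ => (hh u).differentiableAt.differentiableWithinAt
    · intro u _
      rw [(hh u).deriv]
      nlinarith [sq_nonneg ‖A (y u)‖]
  obtain ⟨c, hc, hc1⟩ := exists_hasDerivAt_eq_slope (fun v => ‖y v‖ ^ 2)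
    (fun u => -(2 * (⟪A (y u), y u⟫_ℂ).re)) ht
    (fun u _ => (hg u).continuousAt.continuousWithinAt) (fun u _ => hg u)
  have h0 : y 0 = x := by
    rw [hy]
    show xx R N 0 x = x
    rw [xx_zero]
    rfl
  have h1 := hanti (mem_univ c) (mem_univ t) hc.2.le
  have h2 : 0 ≤ (⟪A (y t), y t⟫_ℂ).re := by
    rw [hAf]
    exact hp _
  simp only [h0, sub_zero] at hc1
  rw [eq_div_iff ht.ne'] at hc1
  have h3 : (⟪A (y t), y t⟫_ℂ).re ≤ (⟪A (y c), y c⟫_ℂ).re := h1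
  have hyt : xx R N t x = y t := by rw [hy]
  rw [hyt, ← hAf]
  constructor
  · nlinarith
  · rw [le_div_iff₀ (by positivity)]
    nlinarith [sq_nonneg ‖y t‖]

end Pool.Agent.W5h53.CS
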